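import Pool.Agent.Lib.MP_0d9445_pr.EN.Casc

/-! All the facts about the field part of the engine. -/

open Real

namespace Pool.Agent.Lib.MP_0d9445_pr

/-- the facts of `EN/Facts.lean` -/
structure Model.All (M : Model) : Prop where
  ep : M.EP
  e0 : M.E0
  ew : M.EW
  e1 : M.E1
  e1m : M.E1m
  e2 : M.E2
  e4 : ∀ q : ℝ, 1 ≤ q → q ≤ 2 → q * M.γ ^ 2 < 4 → M.E4 q
  e4m : M.E4m
  e6 : M.E6
  e7 : M.E7
  e8 : M.E8
  e9 : M.E9
  eu : M.EU

theorem Model.All.base {M : Model} (F : M.All) : ∃ p, M.Base p := by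
  have h0 := M.γ_pos
  have h2 := M.γ_lt
  have hq : 0 < M.γ ^ 2 := by positivity
  have h4 : M.γ ^ 2 < 4 := by nlinarith
  have h1 : 1 < 4 / M.γ ^ 2 := (one_lt_div hq).2 h4
  set p := min 2 ((1 + 4 / M.γ ^ 2) / 2) with hp
  have a : 1 < p := lt_min one_lt_two (by linarith)
  have b : p ≤ 2 := min_le_left _ _
  have c : p * M.γ ^ 2 < 4 := by
    have : p < 4 / M.γ ^ 2 := (min_le_right _ _).trans_lt (by linarith)
    exact (lt_div_iff₀ hq).1 this
  exact ⟨p, a, b, c, F.e0, F.ew, F.e1, F.e2, F.e4 p a.le b c, F.e6⟩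

end Pool.Agent.Lib.MP_0d9445_pr
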