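import Pool.Agent.Lib.MP_0d9445_pr.EN.Field
import Pool.Agent.Lib.MP_0d9445_pr.Su.Iface

/-! The local data of a surface are absolutely continuous for the reference law. -/

open MeasureTheory ProbabilityTheory Set Filter Topology Real LQ.Met
open scoped NNReal ENNReal

noncomputable section

namespace Pool.Agent.Lib.MP_0d9445_pr

open CR EN
open Mu (addFn_apply addFn_addFn addFn_zero)

namespace EN

/-- absolute continuity on a sigma-algebra is uniform -/
theorem tendsto_of_null {X ι : Type*} {m m0 : MeasurableSpace X} (hm : m ≤ m0) {μ ν : Measure X}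
    [IsFiniteMeasure μ] [IsFiniteMeasure ν]
    (ac : ∀ S, MeasurableSet[m] S → ν S = 0 → μ S = 0) {l : Filter ι} {f : ι → X → ℝ≥0∞}
    (hf : ∀ i, Measurable[m] (f i)) (h1 : ∀ i x, f i x ≤ 1)
    (h : Tendsto (fun i => ∫⁻ x, f i x ∂ν) l (𝓝 0)) :
    Tendsto (fun i => ∫⁻ x, f i x ∂μ) l (𝓝 0) := by
  have ac' : μ.trim hm ≪ ν.trim hm := Measure.AbsolutelyContinuous.mk fun S hS h0 => by
    rw [trim_measurableSet_eq hm hS] at h0 ⊢
    exact ac S hS h0
  refine ENNReal.tendsto_nhds_zero.2 fun ε hε => ?_
  obtain ⟨δ, hδ, hδ'⟩ : ∃ δ : ℝ≥0∞, δ ≠ 0 ∧ δ * μ univ ≤ ε / 2 := by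
    obtain ⟨δ, h1, h2⟩ := ENNReal.exists_nnreal_pos_mul_lt (measure_ne_top μ univ)
      (ENNReal.half_pos hε.ne').ne'
    exact ⟨δ, by exact_mod_cast h1.ne', h2.le⟩
  have hS : ∀ i, MeasurableSet[m] {x | δ ≤ f i x} := fun i =>
    @measurableSet_le _ _ _ _ _ m _ _ _ _ _ measurable_const (hf i)
  have t1 : Tendsto (ν.trim hm ∘ fun i => {x | δ ≤ f i x}) l (𝓝 0) := by
    rcases eq_or_ne δ ∞ with rfl | hd
    · refine tendsto_const_nhds.congr fun i => ?_
      have : {x | ∞ ≤ f i x} = ∅ := eq_empty_of_forall_notMem fun x hx =>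
        ENNReal.one_ne_top (top_le_iff.1 (le_trans hx (h1 i x)))
      simp only [Function.comp, this, measure_empty]
    have t2 := ENNReal.Tendsto.div_const h (b := δ) (Or.inr hδ)
    rw [ENNReal.zero_div] at t2
    refine tendsto_of_tendsto_of_tendsto_of_le_of_le tendsto_const_nhds t2
      (fun _ => zero_le) fun i => ?_
    simp only [Function.comp, trim_measurableSet_eq hm (hS i)]
    exact meas_ge_le_lintegral_div ((hf i).mono hm le_rfl).aemeasurable hδ hd
  have t3 := tendsto_setLIntegral_zero (μ := ν.trim hm) (f := (μ.trim hm).rnDeriv (ν.trim hm))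
    (Measure.lintegral_rnDeriv_lt_top _ _).ne t1
  filter_upwards [ENNReal.tendsto_nhds_zero.1 t3 (ε / 2) (ENNReal.half_pos hε.ne')] with i hi
  rw [Measure.setLIntegral_rnDeriv ac', trim_measurableSet_eq hm (hS i)] at hi
  calc ∫⁻ x, f i x ∂μ ≤ ∫⁻ x, (δ + {x | δ ≤ f i x}.indicator 1 x) ∂μ := by
        refine lintegral_mono fun x => ?_
        by_cases hx : δ ≤ f i x
        · rw [indicator_of_mem (show x ∈ {x | δ ≤ f i x} from hx)]
          exact (h1 i x).trans le_add_self
        · exact (not_le.1 hx).le.trans le_self_add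
    _ = δ * μ univ + μ {x | δ ≤ f i x} := by
        rw [lintegral_add_left measurable_const, lintegral_const,
          lintegral_indicator_one (hm _ (hS i))]
    _ ≤ ε / 2 + ε / 2 := add_le_add hδ' hi
    _ = ε := ENNReal.add_halves ε

/-- configurations with the same local data inside `A` are not separated by `GG A` -/
theorem mem_iff_of_loc {A : Set ℂ} {c c' : Cf} (h : ∀ w : Sq, w.o ⊆ A → loc w c = loc w c')
    {S : Set Cf} (hS : MeasurableSet[GG A] S) : c ∈ S ↔ c' ∈ S := by
  let m : MeasurableSpace Cf :=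
    { MeasurableSet' := fun S => c ∈ S ↔ c' ∈ S
      measurableSet_empty := Iff.rfl
      measurableSet_compl := fun S hS => not_congr hS
      measurableSet_iUnion := fun f hf => by
        simp only [mem_iUnion]
        exact exists_congr hf }
  refine (show GG A ≤ m from iSup₂_le fun w hw => ?_) S hS
  rintro _ ⟨B, -, rfl⟩
  change loc w c ∈ B ↔ loc w c' ∈ B
  rw [h w hw]

theorem cst_add (s t : ℝ) : cst s + cst t = cst (s + t) := rfl

variable {Ω : Type} [MeasurableSpace Ω] {P : Measure Ω}

/-- an independent Gaussian constant absorbs a random shift, as far as null sets go -/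
theorem null_shift [SFinite P] {X : Ω → Field} (hX : Measurable X) {a : Ω → ℝ} (ha : Measurable a)
    {B : Set Field} (hB : MeasurableSet B)
    (h : P.prod (gaussianReal 0 1) {x | addFn (X x.1) (cst x.2) ∈ B} = 0) :
    P.prod (gaussianReal 0 1) {x | addFn (X x.1) (cst (a x.1 + x.2)) ∈ B} = 0 := by
  have m1 := measurable_addFn' (hX.comp (measurable_fst (β := ℝ)))
    (measurable_cst.comp measurable_snd) hB
  have m2 := measurable_addFn' (hX.comp (measurable_fst (β := ℝ)))
    (measurable_cst.comp ((ha.comp measurable_fst).add measurable_snd)) hB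
  refine (Measure.measure_prod_null m2).2 (((Measure.measure_prod_null m1).1 h).mono fun ω hω => ?_)
  refine gaussianReal_absolutelyContinuous 0 one_ne_zero ?_
  have h1 := gaussianReal_absolutelyContinuous' 0 one_ne_zero hω
  rw [← measure_preimage_add volume (a ω)] at h1
  exact h1

theorem gff_suref {ν : Measure Field} (hν : IsGFF id ν) : IsGFF id (Su.ref ν) := by
  have := hν.prob
  have h1 : IsGFF (fun x : Field × ℝ => id x.1) (ν.prod (gaussianReal 0 1)) :=
    IsGFF.of_map measurable_fst (by rwa [Measure.map_fst_prod, measure_univ, one_smul])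
  exact IsGFF.map measurable_id (measurable_addFn' measurable_fst
    (measurable_cst.comp measurable_snd)) (h1.add_cst measurable_snd)

theorem loc_scale {ξ γ t : ℝ} (w : Sq) (c : Cf) :
    loc w (scale ξ γ t c) = scale ξ γ t (loc w c) := by
  refine Prod.ext (ContinuousMap.ext fun p => ?_) (Measure.restrict_smul _ _ _)
  have h := sInf_image_const_mul (exp_pos (ξ * t)).le (fun u => c.1 (proj w p.1, u)) (frontier w.o)
  exact (congrArg _ h).trans (mul_min_of_nonneg _ _ (exp_pos _).le).symm

theorem measurable_scale_GG (ξ γ t : ℝ) (A : Set ℂ) : Measurable[GG A, GG A] (scale ξ γ t) := by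
  refine measurable_iff_comap_le.2 ?_
  simp only [GG, MeasurableSpace.comap_iSup, MeasurableSpace.comap_comp]
  refine iSup₂_le fun w hw => measurable_iff_comap_le.1 ?_
  have : loc w ∘ scale ξ γ t = scale ξ γ t ∘ loc w := funext (loc_scale w)
  rw [this]
  exact (measurable_scale ξ γ t).comp (measurable_loc_GG hw)

end EN

namespace Model

variable (M : Model)

theorem meas_G0 : Measurable fun x : M.Ω × ℝ =>
    addFn (addFn (M.H 0 x.1) (M.ginf x.1)) (cst x.2) :=
  measurable_addFn' (M.gff.meas.comp measurable_fst) (measurable_cst.comp measurable_snd)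

/-- the reference law is the law of the configuration of the GFF plus a Gaussian constant -/
theorem ref_eq : M.ref = (M.P.prod (gaussianReal 0 1)).map fun x =>
    M.conf (addFn (addFn (M.H 0 x.1) (M.ginf x.1)) (cst x.2)) := by
  have hm := M.measurable_conf.fun_comp M.meas_G0
  have hk : Measurable fun p : Fn × ℝ => M.Pk 0 (p.1 + cst p.2) :=
    (M.Pk 0).measurable.comp (measurable_fst.add (measurable_cst.comp measurable_snd))
  have : IsProbabilityMeasure M.Ginf := Measure.isProbabilityMeasure_map M.meas_ginf.aemeasurable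
  ext S hS
  rw [ref, Measure.bind_apply hS hk.aemeasurable, Measure.map_apply hm hS,
    lintegral_prod_symm _ ((Measure.measurable_coe hS).fun_comp hk).aemeasurable,
    Measure.prod_apply_symm (hm hS)]
  refine lintegral_congr fun t => ?_
  have h := M.freeze M.meas_ginf M.indep_ginf_H (cst t)
    (Φ := fun q => S.indicator 1 q.2) ((measurable_one.indicator hS).comp measurable_snd)
  simp only [lintegral_indicator_one hS, add_comm (cst t)] at h
  rw [Ginf, ← h, ← lintegral_indicator_one (measurable_prodMk_right (hm hS))]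
  refine lintegral_congr fun ω => ?_
  rw [← addFn_addFn]
  rfl

instance : IsProbabilityMeasure M.ref := by
  rw [ref_eq]
  exact Measure.isProbabilityMeasure_map (M.measurable_conf.fun_comp M.meas_G0).aemeasurable

theorem meas_hat : Measurable M.hat := measurable_nrm.comp M.gff.meas

theorem suref_eq {ν : Measure Field} (hν : Su.IsGFF0 ν) : Su.ref ν =
    (M.P.prod (gaussianReal 0 1)).map fun x => addFn (M.hat x.1) (cst x.2) := by
  rw [M.eU ν hν.1 hν.2, Su.ref, ← Measure.map_id (μ := gaussianReal 0 1),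
    Measure.map_prod_map _ _ M.meas_hat measurable_id, Measure.map_map
      (measurable_addFn' measurable_fst (measurable_cst.fun_comp measurable_snd))
      (M.meas_hat.prodMap measurable_id), Measure.map_id]
  rfl

/-- the two reference laws have the same null sets -/
theorem suref_null_iff {ν : Measure Field} (hν : Su.IsGFF0 ν) {S : Set Cf} (hS : MeasurableSet S) :
    Su.ref ν {H | M.conf H ∈ S} = 0 ↔ M.ref S = 0 := by
  have hB : MeasurableSet {H | M.conf H ∈ S} := M.measurable_conf hS
  have h0 := (Mu.measurable_eval 0).fun_comp M.gff.meas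
  rw [M.suref_eq hν, ref_eq, Measure.map_apply (M.measurable_conf.fun_comp M.meas_G0) hS,
    Measure.map_apply (measurable_addFn' (M.meas_hat.fun_comp measurable_fst)
      (measurable_cst.fun_comp measurable_snd)) hB]
  constructor
  · intro h
    convert null_shift M.meas_hat h0 hB h using 2
    ext x
    simp only [hat, mem_preimage, mem_ofPred_eq, addFn_addFn (addFn _ _), cst_add,
      neg_add_cancel_left]
  · intro h
    convert null_shift M.gff.meas h0.neg hB h using 2
    ext x
    simp only [hat, mem_preimage, mem_ofPred_eq, addFn_addFn (addFn _ _), cst_add, Pi.neg_apply]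

variable {Ω : Type} [MeasurableSpace Ω] {P : Measure Ω}

/-- the law of the configuration `c`, read inside `V`, is absolutely continuous for the reference
law -/
def LDom (P : Measure Ω) (c : Ω → Cf) (V : Set ℂ) : Prop :=
  ∀ S, MeasurableSet[GG V] S → M.ref S = 0 → P {ω | c ω ∈ S} = 0

variable {M}

theorem LDom.mono {c : Ω → Cf} {V V' : Set ℂ} (h : M.LDom P c V) (hV : V' ⊆ V) : M.LDom P c V' :=
  fun S hS => h S (GG_mono hV S hS)

theorem LDom.congr {c c' : Ω → Cf} {V : Set ℂ} (h : M.LDom P c V)
    (e : ∀ᵐ ω ∂P, ∀ w : Sq, w.o ⊆ V → loc w (c' ω) = loc w (c ω)) : M.LDom P c' V := by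
  intro S hS h0
  have : P {ω | c' ω ∈ S} = P {ω | c ω ∈ S} :=
    measure_congr (eventuallyEq_set.2 (e.mono fun ω hω => mem_iff_of_loc hω hS))
  rw [this, h S hS h0]

/-- AS1: what is small for the reference law is small for the surface -/
theorem LDom.tendsto [IsFiniteMeasure P] {c : Ω → Cf} (hc : Measurable c) {V : Set ℂ}
    (h : M.LDom P c V) {ι : Type*} {l : Filter ι} {f : ι → Cf → ℝ≥0∞}
    (hf : ∀ i, Measurable[GG V] (f i)) (h1 : ∀ i x, f i x ≤ 1)
    (h0 : Tendsto (fun i => ∫⁻ x, f i x ∂M.ref) l (𝓝 0)) :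
    Tendsto (fun i => ∫⁻ ω, f i (c ω) ∂P) l (𝓝 0) := by
  refine (tendsto_of_null (μ := P.map c) (GG_le V) (fun S hS e => ?_) hf h1 h0).congr fun i =>
    lintegral_map ((hf i).mono (GG_le V) le_rfl) hc
  rw [Measure.map_apply hc (GG_le V S hS)]
  exact h S hS e

variable (M)

/-- what local absolute continuity of the field gives for the configuration -/
theorem locAC_spec {h : Ω → Field} (hm : Measurable h) {f : Ω → ℂ → ℝ} {V : Set ℂ}
    (hl : Su.LocAC P h f V) : ∃ (ft : Ω → Fn) (W : Set ℂ), Measurable ft ∧ IsOpen W ∧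
      closure V ⊆ W ∧ (∀ᵐ ω ∂P, EqOn (ft ω) (f ω) W ∧ IsGood (M.conf (h ω)) ∧
        IsVague M.γ (h ω) (M.μ (h ω)) ∧ IsGood (M.conf (addFn (h ω) (ft ω))) ∧
        IsWeyl (fun z => M.ξ * ft ω z) (Function.curry (M.D (h ω)))
          (Function.curry (M.D (addFn (h ω) (ft ω)))) ∧
        M.μ (addFn (h ω) (ft ω)) =
          (M.μ (h ω)).withDensity fun z => ENNReal.ofReal (exp (M.γ * ft ω z))) ∧
      M.LDom P (fun ω => M.conf (addFn (h ω) (ft ω))) V := by
  obtain ⟨ft, W, ρ, hft, hW, hVW, he, hρ, ac, hl⟩ := hl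
  have g1 : IsGFFplus (fun x : Field × Fn => x.1) ρ := (IsGFF.of_map measurable_fst hρ.1).plus
  have g2 := g1.add measurable_snd
  have hp := hm.prodMk hft
  refine ⟨ft, W, hft, hW, hVW, he.and ?_, fun S hS h0 => ?_⟩
  · exact ae_of_ae_map hp.aemeasurable (ac.ae_le ((M.ae_good g1).and ((M.ae_vague g1).and
      ((M.ae_good g2).and (M.ae_weyl g1 measurable_snd)))))
  · have h1 := M.null_transfer g2 (gff_suref hρ.1).plus hl hS
      ((M.suref_null_iff hρ (GG_le V S hS)).2 h0)
    exact le_antisymm ((Measure.le_map_apply hp.aemeasurable _).trans (ac h1).le) zero_le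

/-- AS1 for a surface -/
theorem surf_ldom {h : Ω → Field} (hm : Measurable h) {f : Ω → ℂ → ℝ} {V Z : Set ℂ}
    {d : Ω → Met} {m : Ω → Measure ℂ} (hs : IsSurf M.γ M.ξ M.D M.μ Z P h f d m)
    (hl : Su.LocAC P h f V) (hZ : IsClosed Z) (hV : Disjoint (closure V) Z) :
    M.LDom P (fun ω => (d ω, m ω)) V := by
  obtain ⟨ft, W, -, hW, hVW, he, hd⟩ := M.locAC_spec hm hl
  refine hd.congr ?_
  filter_upwards [he, hs.length, hs.weyl, hs.area] with ω ⟨e, _, _, g2, w2, m2⟩ g1 w1 m1 w hw
  have k1 : closure w.o ⊆ W ∩ Zᶜ := (closure_mono hw).trans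
    (subset_inter hVW hV.subset_compl_right)
  have w1' : IsWeylOn (fun z => M.ξ * f ω z) (Function.curry (M.D (h ω)))
      (Function.curry (d ω)) (W ∩ Zᶜ) := w1 _ (hW.inter hZ.isOpen_compl)
    (disjoint_compl_left.mono_left inter_subset_right)
  have e' : ∀ z ∈ w.o, ft ω z = f ω z := fun z hz => e (k1 (subset_closure hz)).1
  refine Prod.ext (ContinuousMap.ext fun p => le_antisymm ?_ ?_) ?_
  · simpa only [exp_zero, one_mul, loc] using T_le_of_weylOn (c₁ := (d ω, m ω)) g1 g2 w1'
      (w2.isWeylOn g2.2) k1 (subset_univ _) (t := 0) (fun z hz => by rw [e' z hz, add_zero]) p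
  · simpa only [exp_zero, one_mul, loc] using T_le_of_weylOn (c₂ := (d ω, m ω)) g2 g1
      (w2.isWeylOn g2.2) w1' (subset_univ _) k1 (t := 0) (fun z hz => by rw [e' z hz, add_zero]) p
  · change (m ω).restrict w.o = (M.μ (addFn (h ω) (ft ω))).restrict w.o
    rw [m1, m2, restrict_withDensity (measurableSet_o w), restrict_withDensity (measurableSet_o w)]
    exact withDensity_congr_ae ((ae_restrict_mem (measurableSet_o w)).mono fun z hz => by
      simp only [e' z hz])

end Model

end Pool.Agent.Lib.MP_0d9445_pr
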