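import Pool.Agent.Lib.MP_0d9445_pr.EN.Casc

/-!
The engine with points seen through similarities, and on the space of local data of a window.
-/

open MeasureTheory ProbabilityTheory Set Filter Topology Real LQ.Met
open scoped ENNReal NNReal

noncomputable section

namespace Pool.Agent.Lib.MP_0d9445_pr.EN

open PPP (pts ppp Meas filt cmap pppK)
open CR (osq csq reg ann ctr sc box Pat wt oo cc lip ex Casc)

variable {M : Model} {a b : ℂ}

theorem measurable_mv (W : Sq) (a b : ℂ) :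
    Measurable fun x : Tup => filt W.o (cmap (fun z => (z - b) / a) x) :=
  (PPP.measurable_filt (measurableSet_o W)).comp (PPP.measurable_cmap (measurable_unaff a b))

theorem measurable_pullX (W : Sq) (a b : ℂ) : Measurable (pullX W a b) :=
  ((measurable_pull a b).comp measurable_fst).prodMk
    (((measurable_mv W a b).comp measurable_snd.fst).prodMk
      ((measurable_mv W a b).comp measurable_snd.snd))

theorem pts_mv_congr (ha : a ≠ 0) (W : Sq) {A B : Set ℂ} (hAB : ∀ z ∈ A, a * z + b ∈ B)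
    {x y : Tup} (h : pts x ∩ B = pts y ∩ B) :
    pts (filt W.o (cmap (fun z => (z - b) / a) x)) ∩ A =
      pts (filt W.o (cmap (fun z => (z - b) / a) y)) ∩ A := by
  have key : ∀ x y : Tup, pts x ∩ B = pts y ∩ B →
      pts (filt W.o (cmap (fun z => (z - b) / a) x)) ∩ A ⊆
        pts (filt W.o (cmap (fun z => (z - b) / a) y)) ∩ A := by
    intro x y h
    simp only [PPP.pts_filt, PPP.pts_cmap]
    rintro _ ⟨⟨⟨z, hz, rfl⟩, h1⟩, h2⟩
    have := hAB _ h2
    rw [mul_div_add ha] at this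
    exact ⟨⟨⟨z, (h.subset ⟨hz, this⟩).1, rfl⟩, h1⟩, h2⟩
  exact (key x y h).antisymm (key y x h.symm)

theorem maps_interior (ha : a ≠ 0) {A B : Set ℂ} (hAB : ∀ z ∈ A, a * z + b ∈ B) :
    ∀ z ∈ interior A, a * z + b ∈ interior B := fun z hz => by
  have h : interior A ⊆ interior (aff ha b ⁻¹' B) := interior_mono hAB
  rw [← (aff ha b).preimage_interior] at h
  exact h hz

/-- the local data with points in `A` of the pulled configuration are local data in the image -/
theorem Sim.measurable_pullX_hat (h : Sim a) (W : Sq) {A B : Set ℂ}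
    (hAB : ∀ z ∈ A, a * z + b ∈ B) : Measurable[GGhat B, GGhat A] (pullX W a b) := by
  intro S hS
  refine ⟨?_, fun c x y x' y' h1 h2 => hS.2 _ _ _ _ _
    (pts_mv_congr h.ne W (maps_interior h.ne hAB) h1)
    (pts_mv_congr h.ne W (maps_interior h.ne hAB) h2)⟩
  have k : Measurable[(GG B).prod inferInstance, (GG A).prod inferInstance] (pullX W a b) :=
    Measurable.prodMk
      ((h.measurable_pull_GG hAB).comp (@measurable_fst _ _ (GG B) _))
      (((measurable_mv W a b).comp (@measurable_snd _ _ (GG B) _).fst).prodMk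
        ((measurable_mv W a b).comp (@measurable_snd _ _ (GG B) _).snd))
  exact k hS.1

theorem lintegral_mv (m : Measure ℂ) [IsFiniteMeasure m] (W : Sq) (a b : ℂ) {G : Tup → ℝ≥0∞}
    (hG : Measurable G) (hd : ∀ x y, pts x = pts y → G x = G y) :
    ∫⁻ x, G (filt W.o (cmap (fun z => (z - b) / a) x)) ∂ppp m =
      ∫⁻ x, G x ∂ppp ((m.map fun z => (z - b) / a).restrict W.o) := by
  have hW := measurableSet_o W
  have hG' : Measurable fun x : Tup => G (filt W.o x) := hG.comp (PPP.measurable_filt hW)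
  rw [← lintegral_map hG' (PPP.measurable_cmap (measurable_unaff a b)),
    PPP.ppp_map m (measurable_unaff a b), lintegral_dep_restrict _ hW hG'
      fun x y h => hd _ _ (by rw [PPP.pts_filt, PPP.pts_filt, h])]
  refine lintegral_congr_ae ((PPP.ae_pts_subset_restrict _ hW).mono fun x hx => hd _ _ ?_)
  rw [PPP.pts_filt, inter_eq_left.2 hx]

theorem Sim.inten_map (h : Sim a) (t : ℝ) {W W' : Sq} (hW : (img a b W).o ⊆ W'.o) {c : Cf}
    (hc : c.2 W'.o < ∞) :
    ((inten t W' c).map fun z => (z - b) / a).restrict W.o = inten t W (pull a b c) := by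
  rw [h.inten_pull, Measure.restrict_map (measurable_unaff a b) (measurableSet_o W),
    show (fun z => (z - b) / a) ⁻¹' W.o = (img a b W).o from Set.ext fun z => h.mem_img' W z,
    inten, inten, if_pos hc, if_pos ((measure_mono hW).trans_lt hc), Measure.restrict_smul,
    Measure.restrict_restrict (measurableSet_o _), inter_eq_left.2 hW]

theorem Sim.lintegral_pt2K (h : Sim a) (γ L : ℝ) {W W' : Sq} (hW : (img a b W).o ⊆ W'.o) {c : Cf}
    (hc : c.2 W'.o < ∞) {F : Xi → ℝ≥0∞} (hF : Measurable F)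
    (hd : ∀ c, Dep univ fun z => F (c, z)) :
    ∫⁻ z, F (pullX W a b (c, z)) ∂pt2K γ L W' c =
      ∫⁻ z, F (pull a b c, z) ∂pt2K γ L W (pull a b c) := by
  have h1 : Measurable fun z : Tup × Tup => F (pull a b c, z) := hF.comp measurable_prodMk_left
  have h2 : Measurable fun z : Tup × Tup => F (pullX W a b (c, z)) :=
    (hF.comp (measurable_pullX W a b)).comp measurable_prodMk_left
  rw [pt2K_apply, pt2K_apply, lintegral_pp2 _ _ h1, lintegral_pp2 _ _ h2,
    ← h.inten_map _ hW hc, ← h.inten_map _ hW hc,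
    ← lintegral_mv _ W a b h1.lintegral_prod_right'
      fun x y k => lintegral_congr fun w => hd _ _ _ (by rw [k]) rfl]
  exact lintegral_congr fun x => lintegral_mv _ W a b
    (G := fun y => F (pull a b c, filt W.o (cmap (fun z => (z - b) / a) x), y))
    (h1.comp measurable_prodMk_left) fun y w k => hd _ _ _ rfl (by rw [k])

/-- covariance of the engine with points, for functions of the point sets -/
theorem cov_hat (h0 : M.E0) (h6 : M.E6) (L : ℝ) (n k : ℤ) (j : ℕ) (b : ℂ) (g : Fn) {W W' : Sq}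
    (hW : (img (dy k j) b W).o ⊆ W'.o) {F : Xi → ℝ≥0∞} (hF : Measurable F)
    (hd : ∀ c, Dep univ fun z => F (c, z)) :
    ∫⁻ x, F (pullX W (dy k j) b x) ∂M.Phat L W' (n + k) g =
      ∫⁻ x, F x ∂M.Phat L W n (res M.Q (dy k j) b g) := by
  have h2 : Measurable fun x => F (pullX W (dy k j) b x) := hF.comp (measurable_pullX _ _ _)
  rw [lintegral_Phat _ _ _ _ _ hF, lintegral_Phat _ _ _ _ _ h2, ← h6,
    lintegral_map hF.lintegral_kernel_prod_right' (measurable_pull _ _)]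
  exact lintegral_congr_ae ((ae_fin h0 _ g W').mono fun c hc =>
    (sim_dy k j).lintegral_pt2K _ _ hW hc hF hd)

theorem measurable_of_GGhat {β : Type*} [MeasurableSpace β] {A : Set ℂ} {F : Xi → β}
    (hF : Measurable[GGhat A] F) : Measurable F := hF.mono (GGhat_le A) le_rfl

theorem dep_of_GGhat {A : Set ℂ} {F : Xi → ℝ≥0∞} (hF : Measurable[GGhat A] F) (c : Cf) :
    Dep univ fun z => F (c, z) := by
  rw [GGhat_eq] at hF
  exact (dep_of_hat hF c).mono (subset_univ _)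

/-- the Poisson average of a local function is a local function of the configuration -/
theorem exists_local_GG (γ L : ℝ) (W : Sq) {A : Set ℂ} {F : Xi → ℝ≥0∞}
    (hF : Measurable[GGhat A] F) : ∃ φ : Cf → ℝ≥0∞, Measurable[GG A] φ ∧
      ∀ c : Cf, c.2 W.o < ∞ → ∫⁻ z, F (c, z) ∂pt2K γ L W c = φ c := by
  rw [GGhat_eq] at hF
  rw [pt2K_eq]
  exact exists_local measurableSet_interior (measurableSet_o W) _ _ (measurable_restrict_GG A) hF

theorem lintegral_rpow_le {α : Type*} [MeasurableSpace α] (μ : Measure α) [IsProbabilityMeasure μ]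
    {f : α → ℝ≥0∞} (hf : Measurable f) {p : ℝ} (hp : 1 < p) :
    (∫⁻ x, f x ∂μ) ^ p ≤ ∫⁻ x, f x ^ p ∂μ := by
  have h := ENNReal.lintegral_mul_le_Lp_mul_Lq μ (Real.HolderConjugate.conjExponent hp)
    hf.aemeasurable (g := fun _ => 1) aemeasurable_const
  simp only [Pi.mul_apply, mul_one, ENNReal.one_rpow, lintegral_const, measure_univ] at h
  have h0 : 0 < p := one_pos.trans hp
  refine (ENNReal.rpow_le_rpow h h0.le).trans_eq ?_
  rw [← ENNReal.rpow_mul, one_div_mul_cancel h0.ne', ENNReal.rpow_one]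

/-- the error term of `E8` with points -/
def errX (M : Model) (L : ℝ) (W : Sq) (p s ε : ℝ) (m : ℕ) (y : ℂ) (g : Fn) (F : Xi → ℝ≥0∞) :
    ℝ≥0∞ :=
  ENNReal.ofReal (ε * 2 ^ (s ^ 2 * m * (1 - 1 / p) / 2)) *
    (∫⁻ η, ENNReal.ofReal (exp (-(s * (p - 1) * η y))) * ∫⁻ x, F x ^ p ∂M.Phat L W m (g + η)
      ∂M.lay 0 m) ^ (1 / p)

/-- `E8` with points -/
theorem E8_hat (h0 : M.E0) (h8 : M.E8) (p s R ε : ℝ) (hp : 1 < p) (hR : 0 ≤ R) (hε : 0 < ε) :
    ∃ m₀ : ℕ, ∀ m ≥ m₀, ∀ (L : ℝ) (W : Sq) (y : ℂ) (g u : Fn), |u y| ≤ R →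
      LipschitzOnWith R.toNNReal u (csq y 1) →
      ∀ F : Xi → ℝ≥0∞, Measurable[GGhat (osq y (3 * sc m))] F →
        ∫⁻ x, F x ∂M.Phat L W 0 (g + u) ≤ ENNReal.ofReal (exp (s * u y)) *
          ∫⁻ x, F x ∂M.Phat L W 0 g + errX M L W p s ε m y g F ∧
        ENNReal.ofReal (exp (s * u y)) * ∫⁻ x, F x ∂M.Phat L W 0 g ≤
          ∫⁻ x, F x ∂M.Phat L W 0 (g + u) + errX M L W p s ε m y g F := by
  obtain ⟨m₀, hm⟩ := h8 p s R ε hp hR hε
  refine ⟨m₀, fun m h L W y g u h1 h2 F hF => ?_⟩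
  obtain ⟨φ, hφ, e⟩ := exists_local_GG M.γ L W hF
  have hF' := measurable_of_GGhat hF
  have e1 : ∀ n g, ∫⁻ x, F x ∂M.Phat L W n g = ∫⁻ c, φ c ∂M.Pk n g := fun n g => by
    rw [lintegral_Phat _ _ _ _ _ hF']
    exact lintegral_congr_ae ((ae_fin h0 n g W).mono e)
  have e2 : M.err p s ε m y g φ ≤ errX M L W p s ε m y g F := by
    refine mul_le_mul_right (ENNReal.rpow_le_rpow (lintegral_mono fun η =>
      mul_le_mul_right ?_ _) (by positivity)) _
    rw [lintegral_Phat _ _ _ _ _ (hF'.pow_const p)]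
    refine lintegral_mono_ae ((ae_fin h0 m (g + η) W).mono fun c hc => ?_)
    rw [← e c hc]
    exact lintegral_rpow_le _ (hF'.comp measurable_prodMk_left) hp
  rw [e1, e1]
  exact (hm m h y g u h1 h2 φ hφ).imp (fun k => k.trans (add_le_add_right e2 _))
    fun k => k.trans (add_le_add_right e2 _)

/-! ### the space of local data -/

/-- configurations with points, seen only inside `A` -/
def XL (_ : Set ℂ) : Type := Xi

instance (A : Set ℂ) : MeasurableSpace (XL A) := GGhat A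

/-- forget what is outside `A` -/
def toXL (A : Set ℂ) (x : Xi) : XL A := x

theorem measurable_toXL (A : Set ℂ) : Measurable (toXL A) := fun _ h => GGhat_le A _ h

/-- the law of the local data in the window -/
def PL (M : Model) (L : ℝ) (W : Sq) (n : ℤ) : Kernel Fn (XL W.o) :=
  (M.Phat L W n).map (toXL W.o)

instance (M : Model) (L : ℝ) (W : Sq) (n : ℤ) : IsMarkovKernel (PL M L W n) :=
  Kernel.IsMarkovKernel.map _ (measurable_toXL _)

theorem PL_apply (L : ℝ) (W : Sq) (n : ℤ) (g : Fn) :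
    PL M L W n g = (M.Phat L W n g).map (toXL W.o) := Kernel.map_apply _ (measurable_toXL _) _

theorem PL_set (L : ℝ) (W : Sq) (n : ℤ) (g : Fn) {S : Set (XL W.o)} (hS : MeasurableSet S) :
    PL M L W n g S = M.Phat L W n g (toXL W.o ⁻¹' S) := by
  rw [PL_apply, Measure.map_apply (measurable_toXL _) hS]

theorem lintegral_PL (L : ℝ) (W : Sq) (n : ℤ) (g : Fn) {F : XL W.o → ℝ≥0∞} (hF : Measurable F) :
    ∫⁻ x, F x ∂PL M L W n g = ∫⁻ x, F (toXL W.o x) ∂M.Phat L W n g := by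
  rw [PL_apply, lintegral_map hF (measurable_toXL _)]

theorem lintegral_PL_le (L : ℝ) (W : Sq) (n : ℤ) (g : Fn) {F : XL W.o → ℝ≥0∞} (hF : Measurable F)
    {G : Xi → ℝ≥0∞} (h : ∀ᵐ x ∂M.Phat L W n g, F (toXL W.o x) ≤ G x) :
    ∫⁻ x, F x ∂PL M L W n g ≤ ∫⁻ x, G x ∂M.Phat L W n g :=
  (lintegral_PL L W n g hF).trans_le (lintegral_mono_ae h)

theorem ae_PL (L : ℝ) (W : Sq) (n : ℤ) (g : Fn) {q : XL W.o → Prop}
    (hq : MeasurableSet {x | q x}) (h : ∀ᵐ x ∂M.Phat L W n g, q (toXL W.o x)) :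
    ∀ᵐ x ∂PL M L W n g, q x := by
  rw [PL_apply]
  exact (ae_map_iff (measurable_toXL _).aemeasurable hq).2 h

/-- the similarity acting on local data -/
def chL (W : Sq) (a b : ℂ) (x : XL W.o) : XL W.o := pullX W a b x

theorem Sim.measurable_chL (h : Sim a) {W : Sq} (hW : (img a b W).o ⊆ W.o) :
    Measurable (chL W a b) :=
  h.measurable_pullX_hat W fun z hz => hW ((h.mem_img W z).2 hz)

theorem tower_PL (h : M.E1m) (L : ℝ) (W : Sq) (n : ℤ) (m : ℕ) (g : Fn) {F : XL W.o → ℝ≥0∞}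
    (hF : Measurable F) :
    ∫⁻ x, F x ∂PL M L W n g = ∫⁻ η, ∫⁻ x, F x ∂PL M L W (n + m) (g + η) ∂M.lay n m := by
  simp only [lintegral_PL _ _ _ _ hF]
  exact tower_hat_m h L W n m g (hF.comp (measurable_toXL _))

theorem lintegral_chL (h0 : M.E0) (h6 : M.E6) (L : ℝ) (n k : ℤ) (j : ℕ) (b : ℂ) (g : Fn) {W : Sq}
    (hW : (img (dy k j) b W).o ⊆ W.o) {F : XL W.o → ℝ≥0∞} (hF : Measurable F) :
    ∫⁻ x, F (chL W (dy k j) b x) ∂PL M L W (n + k) g =
      ∫⁻ x, F x ∂PL M L W n (res M.Q (dy k j) b g) := by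
  rw [lintegral_PL _ _ _ _ hF, lintegral_PL (F := fun x => F (chL W (dy k j) b x)) _ _ _ _
    (hF.comp ((sim_dy k j).measurable_chL hW))]
  exact cov_hat h0 h6 L n k j b g hW (F := fun x => F (toXL W.o x))
    (hF.comp (measurable_toXL _)) (dep_of_GGhat (A := W.o) hF)

theorem cov_PL (h0 : M.E0) (h6 : M.E6) (L : ℝ) (n k : ℤ) (j : ℕ) (b : ℂ) (g : Fn) {W : Sq}
    (hW : (img (dy k j) b W).o ⊆ W.o) :
    (PL M L W (n + k) g).map (chL W (dy k j) b) = PL M L W n (res M.Q (dy k j) b g) := by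
  ext S hS
  rw [← lintegral_indicator_one hS, ← lintegral_indicator_one hS,
    lintegral_map (measurable_one.indicator hS) ((sim_dy k j).measurable_chL hW)]
  exact lintegral_chL h0 h6 L n k j b g hW (measurable_one.indicator hS)

theorem ind_PL (h0 : M.E0) (h2 : M.E2) (L : ℝ) (n : ℤ) (g : Fn) {W : Sq} {a a' b b' : ℂ}
    (h : Sim a) (h' : Sim a') (hW : (img a b W).o ⊆ W.o) (hW' : (img a' b' W).o ⊆ W.o)
    (hd : ∀ x ∈ (img a b W).o, ∀ y ∈ (img a' b' W).o, (2 : ℝ) ^ (-n) / 2 ≤ ‖x - y‖) :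
    IndepFun (chL W a b) (chL W a' b') (PL M L W n g) := by
  rw [indepFun_iff_measure_inter_preimage_eq_mul]
  intro S S' hS hS'
  rw [PL_set _ _ _ _ (h.measurable_chL hW hS), PL_set _ _ _ _ (h'.measurable_chL hW' hS'),
    PL_set _ _ _ _ ((h.measurable_chL hW hS).inter (h'.measurable_chL hW' hS'))]
  exact (Indep_iff _ _ _).1 (indep_hat_Phat h0 h2 L W n g hd) _ _
    (h.measurable_pullX_hat W (fun z hz => (h.mem_img W z).2 hz) hS)
    (h'.measurable_pullX_hat W (fun z hz => (h'.mem_img W z).2 hz) hS')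

/-- `E8` for a function of the local data of a child -/
theorem cm_PL (h0 : M.E0) (h6 : M.E6) (h8 : M.E8) (p s R ε : ℝ) (hp : 1 < p) (hR : 0 ≤ R)
    (hε : 0 < ε) : ∃ m₀ : ℕ, ∀ m ≥ m₀, ∀ (L : ℝ) (W : Sq) (y : ℂ) (g u : Fn), W.o ⊆ osq 0 3 →
      (img (dy m 0) y W).o ⊆ W.o → |u y| ≤ R → LipschitzOnWith R.toNNReal u (csq y 1) →
      ∀ (F : XL W.o → ℝ≥0∞) (E : ℝ≥0∞), Measurable F →
        E = ENNReal.ofReal (ε * 2 ^ (s ^ 2 * m * (1 - 1 / p) / 2)) *
          (∫⁻ η, ENNReal.ofReal (exp (-(s * (p - 1) * η y))) *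
            ∫⁻ x, F x ^ p ∂PL M L W 0 (res M.Q (dy m 0) y (g + η)) ∂M.lay 0 m) ^ (1 / p) →
        ∫⁻ x, F (chL W (dy m 0) y x) ∂PL M L W 0 (g + u) ≤ ENNReal.ofReal (exp (s * u y)) *
          ∫⁻ x, F (chL W (dy m 0) y x) ∂PL M L W 0 g + E ∧
        ENNReal.ofReal (exp (s * u y)) * ∫⁻ x, F (chL W (dy m 0) y x) ∂PL M L W 0 g ≤
          ∫⁻ x, F (chL W (dy m 0) y x) ∂PL M L W 0 (g + u) + E := by
  obtain ⟨m₀, hm⟩ := E8_hat h0 h8 p s R ε hp hR hε
  refine ⟨m₀, fun m h L W y g u hW3 hW h1 h2 F E hF hE => ?_⟩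
  have hs := sim_dy m 0
  have hG : Measurable fun x => F (chL W (dy m 0) y x) := hF.comp (hs.measurable_chL hW)
  have hloc : Measurable[GGhat (osq y (3 * sc m))] fun x : Xi =>
      F (chL W (dy m 0) y (toXL W.o x)) := by
    refine hF.comp (hs.measurable_pullX_hat W (A := W.o) fun z hz => ?_)
    have := (hs.mem_img (b := y) (0, 3) z).2 (hW3 hz)
    rwa [img, mul_zero, zero_add, dy_zero, norm_sc, mul_comm (sc m), ← dy_zero] at this
  have e : errX M L W p s ε m y g (fun x => F (chL W (dy m 0) y (toXL W.o x))) = E := by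
    rw [hE, errX]
    congr 2
    refine lintegral_congr fun η => ?_
    rw [← lintegral_chL h0 h6 L 0 m 0 y (g + η) hW (hF.pow_const p), zero_add,
      lintegral_PL _ _ _ _ (hG.pow_const p)]
  rw [lintegral_PL _ _ _ _ hG, lintegral_PL _ _ _ _ hG, ← e]
  exact hm m h L W y g u h1 h2 _ hloc

end Pool.Agent.Lib.MP_0d9445_pr.EN
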