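import Pool.Agent.Lib.MP_0d9445_pr.EN.Pts

/-!
Similarities that preserve the axes: local data, points and blocking seen through them.
Closeness of two Weyl scalings of one configuration.
-/

open MeasureTheory ProbabilityTheory Set Filter Topology Real LQ.Met
open scoped ENNReal NNReal

noncomputable section

namespace Pool.Agent.Lib.MP_0d9445_pr.EN

open PPP (pts ppp Meas filt cmap)
open CR (osq csq reg ann ctr sc box Pat)

/-- multiplication by `a` maps squares to squares -/
structure Sim (a : ℂ) : Prop where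
  ne : a ≠ 0
  mem : ∀ (u z : ℂ) (s : ℝ), a * z ∈ osq (a * u) (‖a‖ * s) ↔ z ∈ osq u s
  prj : ∀ (u z : ℂ) (s : ℝ), 0 ≤ s → proj (a * u, ‖a‖ * s) (a * z) = a * proj (u, s) z

theorem Sim.mul {a a' : ℂ} (h : Sim a) (h' : Sim a') : Sim (a * a') where
  ne := mul_ne_zero h.ne h'.ne
  mem u z s := by rw [norm_mul, mul_assoc, mul_assoc, mul_assoc, h.mem, h'.mem]
  prj u z s hs := by
    rw [norm_mul, mul_assoc, mul_assoc, mul_assoc, h.prj _ _ _ (by positivity), h'.prj _ _ _ hs,
      mul_assoc]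

theorem sim_real {r : ℝ} (hr : 0 < r) : Sim r where
  ne := Complex.ofReal_ne_zero.2 hr.ne'
  mem u z s := by
    simp only [osq, mem_ofPred_eq, Complex.re_ofReal_mul, Complex.im_ofReal_mul, ← mul_sub,
      abs_mul, Complex.norm_real, norm_eq_abs, abs_of_pos hr, mul_lt_mul_iff_right₀ hr]
  prj u z s _ := by
    apply Complex.ext <;>
      simp only [proj, Complex.re_ofReal_mul, Complex.im_ofReal_mul, Complex.norm_real,
        norm_eq_abs, abs_of_pos hr, mul_max_of_nonneg _ _ hr.le, mul_min_of_nonneg _ _ hr.le,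
        mul_sub, mul_add]

theorem sim_I : Sim Complex.I where
  ne := Complex.I_ne_zero
  mem u z s := by
    simp only [osq, mem_ofPred_eq, Complex.I_mul_re, Complex.I_mul_im, Complex.norm_I, one_mul,
      neg_sub_neg, abs_sub_comm u.im]
    exact and_comm
  prj u z s hs := by
    apply Complex.ext
    · simp only [proj, Complex.I_mul_re, Complex.norm_I, one_mul]
      rcases le_total (u.im + s) z.im with h | h <;> rcases le_total (u.im - s) z.im with k | k <;>
        simp only [max_def, min_def] <;> split_ifs <;> linarith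
    · simp only [proj, Complex.I_mul_im, Complex.norm_I, one_mul]

theorem sim_one : Sim 1 := by simpa using sim_real one_pos

theorem Sim.pow {a : ℂ} (h : Sim a) : ∀ j : ℕ, Sim (a ^ j)
  | 0 => by simpa using sim_one
  | j + 1 => by rw [pow_succ]; exact (h.pow j).mul h

theorem sim_dy (k : ℤ) (j : ℕ) : Sim (dy k j) := by
  refine Sim.mul ?_ (sim_I.pow j)
  simpa using sim_real (r := (2 : ℝ) ^ (-k)) (by positivity)

theorem dy_zero (n : ℕ) : dy n 0 = (sc n : ℝ) := by
  simp [dy, sc]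

/-- the image of a square under `z ↦ a z + b` -/
def img (a b : ℂ) (w : Sq) : Sq := (a * w.1 + b, ‖a‖ * w.2)

/-- the similarity as a homeomorphism -/
def aff {a : ℂ} (ha : a ≠ 0) (b : ℂ) : ℂ ≃ₜ ℂ :=
  (Homeomorph.mulLeft₀ a ha).trans (Homeomorph.addRight b)

theorem aff_apply {a : ℂ} (ha : a ≠ 0) (b z : ℂ) : aff ha b z = a * z + b := rfl

variable {a b : ℂ}

theorem mul_div_add (ha : a ≠ 0) (b z : ℂ) : a * ((z - b) / a) + b = z := by
  field_simp
  ring

theorem add_sub_div (ha : a ≠ 0) (b z : ℂ) : (a * z + b - b) / a = z := by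
  field_simp
  ring

theorem Sim.mem_img (h : Sim a) (w : Sq) (z : ℂ) : a * z + b ∈ (img a b w).o ↔ z ∈ w.o := by
  rw [← h.mem w.1 z w.2]
  simp [img, osq]

theorem Sim.mem_img' (h : Sim a) (w : Sq) (z : ℂ) : (z - b) / a ∈ w.o ↔ z ∈ (img a b w).o := by
  rw [← h.mem_img (b := b), mul_div_add h.ne]

theorem Sim.proj_img (h : Sim a) {w : Sq} (hw : 0 ≤ w.2) (z : ℂ) :
    proj (img a b w) (a * z + b) = a * proj w z + b := by
  rw [← h.prj w.1 z w.2 hw]
  apply Complex.ext <;>
    simp only [proj, img, Complex.add_re, Complex.add_im, add_right_comm _ b.re,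
      add_right_comm _ b.im, add_sub_right_comm, max_add_add_right, min_add_add_right]

theorem measurable_unaff (a b : ℂ) : Measurable fun z : ℂ => (z - b) / a := by fun_prop

theorem measurable_pull (a b : ℂ) : Measurable (pull a b) :=
  ((ContinuousMap.continuous_precomp _).measurable.comp measurable_fst).prodMk
    ((Measure.measurable_map _ (measurable_unaff a b)).comp measurable_snd)

theorem Sim.T_pull (h : Sim a) {w : Sq} (hw : 0 ≤ w.2) (c : Cf) (p : ℂ × ℂ) :
    T w (pull a b c).1 p = T (img a b w) c.1 (a * p.1 + b, a * p.2 + b) := by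
  have e : w.o = aff h.ne b ⁻¹' (img a b w).o := Set.ext fun z => (h.mem_img w z).symm
  show min (c.1 (a * proj w p.1 + b, a * proj w p.2 + b))
      (sInf ((fun u => c.1 (a * proj w p.1 + b, aff h.ne b u)) '' frontier w.o)) =
    min (c.1 (proj (img a b w) (a * p.1 + b), proj (img a b w) (a * p.2 + b)))
      (sInf ((fun u => c.1 (proj (img a b w) (a * p.1 + b), u)) '' frontier (img a b w).o))
  rw [h.proj_img hw, h.proj_img hw, e, ← (aff h.ne b).preimage_frontier,
    image_pull (aff h.ne b) fun u => c.1 (a * proj w p.1 + b, u)]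

theorem Sim.pull_apply (h : Sim a) (w : Sq) (c : Cf) :
    (pull a b c).2 w.o = c.2 (img a b w).o := by
  show c.2.map _ _ = _
  rw [Measure.map_apply (measurable_unaff a b) (measurableSet_o w)]
  exact congrArg _ (Set.ext fun z => h.mem_img' w z)

theorem Sim.pull_restrict (h : Sim a) (w : Sq) (c : Cf) :
    (pull a b c).2.restrict w.o = (c.2.restrict (img a b w).o).map fun z => (z - b) / a := by
  show (c.2.map _).restrict _ = _
  rw [Measure.restrict_map (measurable_unaff a b) (measurableSet_o w)]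
  exact congrArg (fun S => (c.2.restrict S).map _) (Set.ext fun z => h.mem_img' w z)

theorem Sim.loc_pull (h : Sim a) {w : Sq} (hw : 0 ≤ w.2) (c : Cf) :
    loc w (pull a b c) = pull a b (loc (img a b w) c) :=
  Prod.ext (ContinuousMap.ext fun p => h.T_pull hw c p) (h.pull_restrict w c)

theorem proj_of_neg {w : Sq} (hw : w.2 < 0) (z : ℂ) :
    proj w z = w.1 - w.2 * (1 + Complex.I) := by
  have key : ∀ x t : ℝ, max (x - w.2) (min (x + w.2) t) = x - w.2 := fun x t =>
    max_eq_left ((min_le_left _ _).trans (by linarith))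
  apply Complex.ext <;> simp [proj, key]

theorem loc_pull_of_neg {w : Sq} (hw : w.2 < 0) (a b : ℂ) :
    ∃ w' : Sq, w'.2 < 0 ∧ ∀ c, loc w (pull a b c) = loc w' c := by
  refine ⟨(a * (w.1 - w.2 * (1 + Complex.I)) + b + w.2 * (1 + Complex.I), w.2), hw, fun c => ?_⟩
  refine Prod.ext (ContinuousMap.ext fun p => ?_) ?_
  · show min (c.1 (a * proj w p.1 + b, a * proj w p.2 + b)) (sInf (_ '' frontier w.o)) =
      min (c.1 (proj _ p.1, proj _ p.2)) (sInf (_ '' frontier (osq _ w.2)))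
    rw [Sq.o, osq_eq_empty _ hw.le, osq_eq_empty _ hw.le, frontier_empty, image_empty,
      image_empty, proj_of_neg hw, proj_of_neg hw, proj_of_neg (by exact hw),
      proj_of_neg (by exact hw), add_sub_cancel_right]
  · show Measure.restrict _ (osq _ w.2) = Measure.restrict _ (osq _ w.2)
    rw [osq_eq_empty _ hw.le, osq_eq_empty _ hw.le, Measure.restrict_empty,
      Measure.restrict_empty]

/-- the local data of the pulled configuration in `A` are local data in the image of `A` -/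
theorem Sim.measurable_pull_GG (h : Sim a) {A B : Set ℂ} (hAB : ∀ z ∈ A, a * z + b ∈ B) :
    Measurable[GG B, GG A] (pull a b) := by
  refine Measurable.of_comap_le ?_
  simp only [GG, MeasurableSpace.comap_iSup, MeasurableSpace.comap_comp]
  refine iSup₂_le fun w hw => Measurable.comap_le ?_
  rcases lt_or_ge w.2 0 with h0 | h0
  · obtain ⟨w', h1, e⟩ := loc_pull_of_neg h0 a b
    rw [show loc w ∘ pull a b = loc w' from funext e]
    refine measurable_loc_GG ?_
    rw [Sq.o, osq_eq_empty _ h1.le]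
    exact empty_subset _
  · rw [show loc w ∘ pull a b = pull a b ∘ loc (img a b w) from funext (h.loc_pull h0)]
    refine (measurable_pull a b).comp (measurable_loc_GG fun z hz => ?_)
    rw [← mul_div_add h.ne b z]
    exact hAB _ (hw ((h.mem_img' w z).2 hz))

theorem Sim.inten_pull (h : Sim a) (t : ℝ) (w : Sq) (c : Cf) :
    inten t w (pull a b c) = (inten t (img a b w) c).map fun z => (z - b) / a := by
  unfold inten
  rw [h.pull_apply, h.pull_restrict]
  split_ifs
  · rw [Measure.map_smul]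
  · rw [Measure.map_zero]

theorem IsGood.pull (ha : a ≠ 0) {c : Cf} (h : IsGood c) : IsGood (pull a b c) :=
  ⟨h.1.pull (aff ha b), h.2.pull (aff ha b)⟩

/-- blocking is covariant under dilations and translations -/
theorem blk_pull {s : ℝ} (hs : 0 < s) (lam : ℝ) (u : ℂ) {r : ℝ} (hr : 0 ≤ r) (c : Cf) (Y : Set ℂ) :
    blk lam u r (pull s b c).1 ((fun z => (z - b) / s) '' Y) ↔
      blk lam (s * u + b) (s * r) c.1 Y := by
  have h := sim_real hs
  have hn : ‖(s : ℂ)‖ = s := by rw [Complex.norm_real, norm_eq_abs, abs_of_pos hs]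
  have hi : img s b (u, r) = (s * u + b, s * r) := by rw [img, hn]
  have hc : ∀ z : ℂ, s * z + b ∈ csq (s * u + b) (s * r / 2) ↔ z ∈ csq u (r / 2) := fun z => by
    simp only [csq, mem_ofPred_eq, Complex.add_re, Complex.add_im, add_sub_add_right_eq_sub,
      Complex.re_ofReal_mul, Complex.im_ofReal_mul, ← mul_sub, abs_mul, abs_of_pos hs,
      mul_div_assoc, mul_le_mul_iff_right₀ hs]
  have ho : ∀ z : ℂ, (z - b) / s ∈ osq u r ↔ z ∈ osq (s * u + b) (s * r) := fun z => by
    have := h.mem_img' (b := b) (u, r) z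
    rwa [hi] at this
  have he : (s : ℂ) * (u + r) + b = s * u + b + ((s * r : ℝ) : ℂ) := by
    push_cast
    ring
  unfold blk
  simp only [h.T_pull (w := (u, r)) hr, hi, he]
  constructor
  · intro k w hw
    obtain ⟨_, ⟨⟨x, hx, rfl⟩, h1⟩, h2⟩ :=
      k ((w - b) / s) ((hc _).1 (by rwa [mul_div_add h.ne]))
    rw [mul_div_add h.ne, mul_div_add h.ne] at h2
    exact ⟨x, ⟨hx, (ho x).1 h1⟩, h2⟩
  · intro k w hw
    obtain ⟨x, hx, h2⟩ := k _ ((hc w).2 hw)
    exact ⟨_, ⟨⟨x, hx.1, rfl⟩, (ho x).2 hx.2⟩, by rwa [mul_div_add h.ne]⟩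

/-! ### closeness from Weyl scaling -/

theorem T_le_of_weylOn {D : ℂ → ℂ → ℝ} {c₁ c₂ : Cf} (h₁ : IsGood c₁) (h₂ : IsGood c₂)
    {f₁ f₂ : ℂ → ℝ} {U₁ U₂ : Set ℂ} (w₁ : IsWeylOn f₁ D (Function.curry c₁.1) U₁)
    (w₂ : IsWeylOn f₂ D (Function.curry c₂.1) U₂) {w : Sq} (k₁ : closure w.o ⊆ U₁)
    (k₂ : closure w.o ⊆ U₂) {t : ℝ} (hf : ∀ z ∈ w.o, f₁ z ≤ f₂ z + t) (p : ℂ × ℂ) :
    T w c₁.1 p ≤ exp t * T w c₂.1 p := by
  rcases le_or_gt w.2 0 with h0 | h0
  · rw [T_of_nonpos h₁.1 h0, T_of_nonpos h₂.1 h0, mul_zero]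
  · rw [T_eq h₁.1 h₁.2 h0, T_eq h₂.1 h₂.2 h0]
    exact TU_weylOn_le h₁.1 h₂.1 h₂.2 w₁ w₂ (isOpen_osq _ _) (compl_osq_nonempty _ _) k₁ k₂ hf _ _

theorem withDensity_restrict_le (m : Measure ℂ) {f₁ f₂ : ℂ → ℝ} {A : Set ℂ}
    (hA : MeasurableSet A) {t : ℝ} (hf : ∀ z ∈ A, f₁ z ≤ f₂ z + t) :
    (m.withDensity fun z => ENNReal.ofReal (exp (f₁ z))).restrict A ≤
      ENNReal.ofReal (exp t) • (m.withDensity fun z => ENNReal.ofReal (exp (f₂ z))).restrict A := by
  refine Measure.le_iff.2 fun s hs => ?_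
  rw [Measure.smul_apply, Measure.restrict_apply hs, Measure.restrict_apply hs,
    withDensity_apply _ (hs.inter hA), withDensity_apply _ (hs.inter hA), smul_eq_mul,
    ← lintegral_const_mul' _ _ ENNReal.ofReal_ne_top]
  refine setLIntegral_mono' (hs.inter hA) fun z hz => ?_
  rw [← ENNReal.ofReal_mul (exp_pos _).le, ← exp_add, add_comm]
  exact ENNReal.ofReal_le_ofReal (exp_le_exp.2 (hf z hz.2))

theorem smul_le_of_le_smul {t : ℝ} {m₁ m₂ : Measure ℂ}
    (h : m₂ ≤ ENNReal.ofReal (exp t) • m₁) : ENNReal.ofReal (exp (-t)) • m₂ ≤ m₁ := by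
  intro A
  have := mul_le_mul_right (h A) (ENNReal.ofReal (exp (-t)))
  simp only [Measure.smul_apply, smul_eq_mul] at this ⊢
  rwa [← mul_assoc, ← ENNReal.ofReal_mul (exp_pos _).le, ← exp_add, neg_add_cancel, exp_zero,
    ENNReal.ofReal_one, one_mul] at this

/-- Two Weyl scalings of one configuration `(D, m)` are close in `W`; the metric of the first may
be off by the constant factor `exp (ξ t)`. -/
theorem close_of_weylOn {ξ γ K t : ℝ} (hξ : 0 ≤ ξ) (hγ : 0 ≤ γ) {D : ℂ → ℂ → ℝ} {m : Measure ℂ}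
    {c₁ c₂ : Cf} (h₁ : IsGood c₁) (h₂ : IsGood c₂) {f₁ f₂ : ℂ → ℝ} {U₁ U₂ : Set ℂ}
    (w₁ : IsWeylOn (fun z => ξ * f₁ z) D (Function.curry c₁.1) U₁)
    (w₂ : IsWeylOn (fun z => ξ * f₂ z) D (Function.curry c₂.1) U₂) {W : Sq}
    (k₁ : closure W.o ⊆ U₁) (k₂ : closure W.o ⊆ U₂)
    (m₁ : c₁.2.restrict W.o =
      (m.withDensity fun z => ENNReal.ofReal (exp (γ * (f₁ z + t)))).restrict W.o)
    (m₂ : c₂.2.restrict W.o =
      (m.withDensity fun z => ENNReal.ofReal (exp (γ * f₂ z))).restrict W.o)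
    (hf : ∀ z ∈ W.o, |f₁ z + t - f₂ z| ≤ K) : Close ξ γ K W c₁ c₂ := by
  refine ⟨⟨exp (-(ξ * t)), exp_pos _, fun w hw p => ⟨?_, ?_⟩⟩, ?_, ?_⟩
  · have := T_le_of_weylOn h₂ h₁ w₂ w₁ ((closure_mono hw).trans k₂) ((closure_mono hw).trans k₁)
      (t := ξ * t + ξ * K) (fun z hz => by
        nlinarith [mul_le_mul_of_nonneg_left (abs_le.1 (hf z (hw hz))).1 hξ]) p
    have e := mul_le_mul_of_nonneg_left this (exp_pos (-(ξ * t + ξ * K))).le
    rwa [← mul_assoc, ← exp_add, neg_add_cancel, exp_zero, one_mul, neg_add, exp_add] at e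
  · rw [← exp_add]
    exact T_le_of_weylOn h₁ h₂ w₁ w₂ ((closure_mono hw).trans k₁) ((closure_mono hw).trans k₂)
      (fun z hz => by nlinarith [mul_le_mul_of_nonneg_left (abs_le.1 (hf z (hw hz))).2 hξ]) p
  · rw [m₁, m₂]
    exact smul_le_of_le_smul (withDensity_restrict_le m (measurableSet_o W) fun z hz => by
      nlinarith [mul_le_mul_of_nonneg_left (abs_le.1 (hf z hz)).1 hγ])
  · rw [m₁, m₂]
    exact withDensity_restrict_le m (measurableSet_o W) fun z hz => by
      nlinarith [mul_le_mul_of_nonneg_left (abs_le.1 (hf z hz)).2 hγ]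

end Pool.Agent.Lib.MP_0d9445_pr.EN
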