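import Pool.Agent.Lib.MP_0d9445_pr.EN.Field
import Pool.Agent.Lib.MP_0d9445_pr.CM.CM0

/-! The absorption of a Lipschitz shift by the coarse layers. -/

open MeasureTheory ProbabilityTheory Set Real
open scoped NNReal ENNReal

namespace Pool.Agent.Lib.MP_0d9445_pr

open CR

theorem Layers.cm0 (L : Layers) : L.CM0 := by
  intro p s R ε hp hR hε
  obtain ⟨m₀, hm⟩ := CM.cm0 L s R.toNNReal hp hε
  refine ⟨m₀, fun m hm' y u h1 h2 F hF => ?_⟩
  have hb : Metric.ball y 1 ⊆ csq y 1 := fun z hz => by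
    rw [mem_ball_iff_norm] at hz
    exact ⟨by simpa using (Complex.abs_re_le_norm (z - y)).trans hz.le,
      by simpa using (Complex.abs_im_le_norm (z - y)).trans hz.le⟩
  have hs : osq y (3 * sc m) ⊆ Metric.closedBall y (5 * (2 ^ m)⁻¹) := fun z hz => by
    rw [mem_closedBall_iff_norm]
    have e : sc m = (2 ^ m)⁻¹ := inv_pow 2 m
    have h0 : (0 : ℝ) < (2 ^ m)⁻¹ := by positivity
    have a1 : |(z - y).re| < 3 * (2 ^ m)⁻¹ := e ▸ hz.1
    have a2 : |(z - y).im| < 3 * (2 ^ m)⁻¹ := e ▸ hz.2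
    refine le_of_sq_le_sq ?_ (by positivity)
    rw [Complex.sq_norm, Complex.normSq_apply]
    nlinarith [abs_lt.1 a1, abs_lt.1 a2]
  have h := hm m y u hm' (by rwa [Real.coe_toNNReal R hR]) (h2.mono hb) F
    (hF.mono (Mu.sigmaOn_mono id hs) le_rfl)
  simpa only [neg_mul, ContinuousMap.coe_sum, Finset.sum_apply] using h

theorem Model.e8 (M : Model) : M.E8 := M.e8_of M.cm0

end Pool.Agent.Lib.MP_0d9445_pr
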