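import Pool.Agent.Lib.MP_0d9445_pr.EN.All
import Pool.Agent.Lib.MP_0d9445_pr.EN.E8
import Pool.Agent.Lib.MP_0d9445_pr.Mu.Main

/-! Every model has all the facts about the field part of the engine. -/

open MeasureTheory Real

namespace Pool.Agent.Lib.MP_0d9445_pr

namespace Model

variable (M : Model)

theorem e0 : M.E0 := M.e0_of (Mu.ae_openPos_noAtoms M.toLayers M.γ_pos M.γ_lt M.hμ)

theorem e4m : M.E4m := Mu.mean_eq M.toLayers M.γ_pos M.γ_lt M.hμ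

theorem e4 (q : ℝ) (h1 : 1 ≤ q) (h2 : q ≤ 2) (h4 : q * M.γ ^ 2 < 4) : M.E4 q := fun ρ => by
  have hb := (isBounded_csq 0 ρ).subset (osq_subset_csq 0 ρ)
  rcases h1.eq_or_lt with rfl | h1
  · obtain ⟨c, -, hc⟩ := M.e4m
    simp only [ENNReal.rpow_one]
    rw [hc _ (isOpen_osq 0 ρ).measurableSet]
    exact ENNReal.mul_lt_top ENNReal.coe_lt_top hb.measure_lt_top
  · exact Mu.moment_lt_top' M.toLayers M.γ_pos M.hμ h1 h2 h4 hb

theorem all : M.All :=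
  ⟨M.ep, M.e0, M.eW, M.e1, M.e1m, M.e2, M.e4, M.e4m, M.e6, M.e7, M.e8, M.e9, M.eU⟩

end Model

end Pool.Agent.Lib.MP_0d9445_pr
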