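import Pool.Agent.Lib.MP_0d9445_pr.Engine

/-! The facts about the field part of the engine that the point part and the homogenisation use. -/

open MeasureTheory ProbabilityTheory Set Filter Topology Real LQ.Met
open scoped NNReal ENNReal

noncomputable section

namespace Pool.Agent.Lib.MP_0d9445_pr

open CR

namespace Model

variable (M : Model)

/-- the configuration of `H n + g` -/
def cf (n : ℤ) (g : Fn) (ω : M.Ω) : Cf := M.conf (addFn (M.H n ω) g)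

theorem measurable_cf (n : ℤ) (g : Fn) : Measurable (M.cf n g) :=
  (M.measurable_conf_add n).comp measurable_prodMk_left

theorem Pk_eq (n : ℤ) (g : Fn) : M.Pk n g = M.P.map (M.cf n g) := rfl

/-- `H n + g` is a GFF plus a continuous function -/
def EP : Prop := ∀ (n : ℤ) (g : Fn), IsGFFplus (fun ω => addFn (M.H n ω) g) M.P

/-- length metric; locally finite measure, positive on open sets, without atoms -/
def E0 : Prop := ∀ (n : ℤ) (g : Fn), ∀ᵐ ω ∂M.P, IsGood (M.cf n g ω) ∧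
  IsLocallyFiniteMeasure (M.cf n g ω).2 ∧ (M.cf n g ω).2.IsOpenPosMeasure ∧
  ∀ z, (M.cf n g ω).2 {z} = 0

/-- Weyl scaling between two coarse fields, for the same fine field -/
def EW : Prop := ∀ (n : ℤ) (g g' : Fn), ∀ᵐ ω ∂M.P,
  IsWeyl (fun z => M.ξ * (g' z - g z)) (Function.curry (M.cf n g ω).1)
    (Function.curry (M.cf n g' ω).1) ∧
  (M.cf n g' ω).2 =
    (M.cf n g ω).2.withDensity fun z => ENNReal.ofReal (exp (M.γ * (g' z - g z)))

/-- tower -/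
def E1 : Prop := ∀ (n : ℤ) (g : Fn) (F : Cf → ℝ≥0∞), Measurable F →
  ∫⁻ c, F c ∂M.Pk n g = ∫⁻ η, ∫⁻ c, F c ∂M.Pk (n + 1) (g + η) ∂M.ν n

/-- tower over `m` layers -/
def E1m : Prop := ∀ (n : ℤ) (m : ℕ) (g : Fn) (F : Cf → ℝ≥0∞), Measurable F →
  ∫⁻ c, F c ∂M.Pk n g = ∫⁻ η, ∫⁻ c, F c ∂M.Pk (n + m) (g + η) ∂M.lay n m

/-- finite range of dependence -/
def E2 : Prop := ∀ (n : ℤ) (g : Fn) (ι : Type) (A : ι → Set ℂ),
  (∀ i j, i ≠ j → ∀ x ∈ A i, ∀ y ∈ A j, (2 : ℝ) ^ (-n) / 2 ≤ ‖x - y‖) →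
  iIndep (fun i => GG (A i)) (M.Pk n g)

/-- moments of the measure of the fine field of level zero (the form for every `n`, `y`, `g`
follows from `E6` and `EW`, file `EN/Casc`) -/
def E4 (q : ℝ) : Prop := ∀ ρ : ℝ, ∫⁻ ω, M.μ (M.H 0 ω) (osq 0 ρ) ^ q ∂M.P < ∞

/-- the mean measure of the fine field of level zero is a multiple of Lebesgue measure -/
def E4m : Prop := ∃ c₀ : ℝ≥0, 0 < c₀ ∧ ∀ A : Set ℂ, MeasurableSet A →
  ∫⁻ ω, M.μ (M.H 0 ω) A ∂M.P = c₀ * volume A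

/-- covariance under dyadic similarities -/
def E6 : Prop := ∀ (n k : ℤ) (j : ℕ) (b : ℂ) (g : Fn),
  (M.Pk (n + k) g).map (pull (dy k j) b) = M.Pk n (res M.Q (dy k j) b g)

/-- the shape of the coarse field seen at depth `n` has the law of the infrared part -/
def E7 : Prop := ∀ (n j : ℕ) (b : ℂ) (F : Fn → ℝ≥0∞), Measurable F →
  ∫⁻ g, ∫⁻ η, F (shape (dy n j) b (g + η)) ∂M.lay 0 n ∂M.Ginf = ∫⁻ g, F g ∂M.Ginf

/-- the error term of `E8` -/
def err (p s ε : ℝ) (m : ℕ) (y : ℂ) (g : Fn) (f : Cf → ℝ≥0∞) : ℝ≥0∞ :=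
  ENNReal.ofReal (ε * 2 ^ (s ^ 2 * m * (1 - 1 / p) / 2)) *
    (∫⁻ η, ENNReal.ofReal (exp (-(s * (p - 1) * η y))) * ∫⁻ c, f c ^ p ∂M.Pk m (g + η)
      ∂M.lay 0 m) ^ (1 / p)

/-- a Lipschitz shift of the field is absorbed by the coarse layers -/
def E8 : Prop := ∀ (p s R ε : ℝ), 1 < p → 0 ≤ R → 0 < ε → ∃ m₀ : ℕ, ∀ m ≥ m₀, ∀ (y : ℂ) (g u : Fn),
  |u y| ≤ R → LipschitzOnWith R.toNNReal u (csq y 1) →
  ∀ f : Cf → ℝ≥0∞, Measurable[GG (osq y (3 * sc m))] f →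
    ∫⁻ c, f c ∂M.Pk 0 (g + u) ≤
      ENNReal.ofReal (exp (s * u y)) * ∫⁻ c, f c ∂M.Pk 0 g + M.err p s ε m y g f ∧
    ENNReal.ofReal (exp (s * u y)) * ∫⁻ c, f c ∂M.Pk 0 g ≤
      ∫⁻ c, f c ∂M.Pk 0 (g + u) + M.err p s ε m y g f

/-- constants -/
def E9 : Prop := ∀ (n : ℤ) (g : Fn) (t : ℝ),
  (M.Pk n g).map (scale M.ξ M.γ t) = M.Pk n (g + cst t)

/-- the law of the GFF with average zero on the unit circle is the law of the model field -/
def EU : Prop := ∀ ν : Measure Field, IsGFF id ν → (∀ᵐ H ∂ν, H 0 = 0) → ν = M.P.map M.hat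

end Model

end Pool.Agent.Lib.MP_0d9445_pr
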