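import Pool.Agent.Lib.MP_0d9445_pr.EN.Local
import Pool.Agent.Lib.MP_0d9445_pr.EN.Facts

/-! Proofs of the facts about the field part of the engine. -/

open MeasureTheory ProbabilityTheory Set Filter Topology Real LQ.Met
open scoped NNReal ENNReal

noncomputable section

namespace Pool.Agent.Lib.MP_0d9445_pr

open CR EN
open Mu (addFn_apply addFn_addFn addFn_zero)

namespace Layers

variable (L : Layers)

/-- the sum of the layers `n, …, n + m - 1` -/
def S (n : ℤ) (m : ℕ) (ω : L.Ω) : Fn := ∑ i ∈ Finset.range m, L.eta (n + i) ω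

theorem meas_S (n : ℤ) (m : ℕ) : Measurable (L.S n m) :=
  Finset.measurable_sum _ fun _ _ => L.meas_eta _

theorem steps (n : ℤ) (m : ℕ) : ∀ᵐ ω ∂L.P, L.H n ω = addFn (L.H (n + m) ω) (L.S n m ω) := by
  induction m with
  | zero => exact Eventually.of_forall fun ω => by simp [S, addFn_zero]
  | succ m ih =>
    filter_upwards [ih, L.step (n + m)] with ω h1 h2
    rw [h1, h2, addFn_addFn, S, S, Finset.sum_range_succ, add_comm (L.eta (n + m) ω), add_assoc n]
    rfl

/-- every fine field is the fine field of level zero plus a random continuous function -/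
theorem exists_rel (n : ℤ) :
    ∃ f : L.Ω → Fn, Measurable f ∧ ∀ᵐ ω ∂L.P, L.H n ω = addFn (L.H 0 ω) (f ω) := by
  rcases le_total 0 n with h | h
  · refine ⟨fun ω => -L.S 0 n.toNat ω, (L.meas_S _ _).neg, (L.steps 0 n.toNat).mono fun ω e => ?_⟩
    rw [zero_add, Int.toNat_of_nonneg h] at e
    rw [e, addFn_addFn, add_neg_cancel, addFn_zero]
  · refine ⟨L.S n (-n).toNat, L.meas_S _ _, (L.steps n (-n).toNat).mono fun ω e => ?_⟩
    rwa [Int.toNat_of_nonneg (by omega), add_neg_cancel] at e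

theorem plus_H (n : ℤ) : IsGFFplus (L.H n) L.P := by
  have h0 : IsGFFplus (L.H 0) L.P :=
    ⟨L.meas_H 0, fun ω => -L.ginf ω, L.meas_ginf.neg, by simpa only [neg_neg] using L.gff⟩
  obtain ⟨f, hf, e⟩ := L.exists_rel n
  exact (h0.add hf).congr (L.meas_H n) (e.mono fun ω h => h.symm)

theorem plus_add (n : ℤ) (g : Fn) : IsGFFplus (fun ω => addFn (L.H n ω) g) L.P :=
  (L.plus_H n).add measurable_const

theorem indep_S (n : ℤ) (m : ℕ) : IndepFun (L.S n m) (L.H (n + m)) L.P := by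
  have h := (L.indep (n + m)).comp
    (φ := fun x : Iio (n + (m : ℤ)) → Fn => ∑ i : Fin m, x ⟨n + (i : ℕ), by
      have := i.2; simp only [mem_Iio]; omega⟩)
    (Finset.measurable_sum _ fun _ _ => measurable_pi_apply _) measurable_id
  have e : L.S n m = fun ω => ∑ i : Fin m, L.eta (n + (i : ℕ)) ω :=
    funext fun ω => Finset.sum_range fun i => L.eta (n + i) ω
  rw [e]
  exact h

theorem indep_ginf_S (m : ℕ) : IndepFun L.ginf (L.S 0 m) L.P := by
  have h := L.indep_ginf_eta.comp measurable_id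
    (ψ := fun x : ℕ → Fn => ∑ i ∈ Finset.range m, x i)
    (Finset.measurable_sum _ fun _ _ => measurable_pi_apply _)
  have e : L.S 0 m = fun ω => ∑ i ∈ Finset.range m, L.eta i ω :=
    funext fun ω => by simp only [S, zero_add]
  rw [e]
  exact h

theorem indep_ginf_H : IndepFun L.ginf (L.H 0) L.P :=
  (L.indep_ginf 0).comp measurable_fst measurable_id

theorem law_affine (n k : ℤ) (j : ℕ) (b : ℂ) :
    L.P.map (fun ω => affine 0 (dy k j) b (L.H (n + k) ω)) = L.P.map (L.H n) := by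
  have hp : Measurable fun x : (ℤ → Fn) × (ℤ → Field) => x.2 n :=
    (measurable_pi_apply n).comp measurable_snd
  have h := congrArg (Measure.map fun x : (ℤ → Fn) × (ℤ → Field) => x.2 n) (L.cov k j b)
  rwa [Measure.map_map hp ((measurable_pi_lambda _ fun _ =>
      (measurable_resc _ _).fun_comp (L.meas_eta _)).prodMk (measurable_pi_lambda _ fun _ =>
      (measurable_affine _ _ _).fun_comp (L.meas_H _))),
    Measure.map_map hp ((measurable_pi_lambda _ fun _ => L.meas_eta _).prodMk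
      (measurable_pi_lambda _ fun _ => L.meas_H _))] at h

/-- the field-level form of the absorption of a Lipschitz shift by the coarse layers -/
def CM0 : Prop := ∀ (p s R ε : ℝ), 1 < p → 0 ≤ R → 0 < ε → ∃ m₀ : ℕ, ∀ m ≥ m₀, ∀ (y : ℂ) (u : Fn),
  |u y| ≤ R → LipschitzOnWith R.toNNReal u (csq y 1) →
  ∀ F : Field → ℝ≥0∞, Measurable[sigmaOn id (osq y (3 * sc m))] F →
    ∫⁻ ω, F (addFn (L.H 0 ω) u) ∂L.P ≤ ENNReal.ofReal (exp (s * u y)) * ∫⁻ ω, F (L.H 0 ω) ∂L.P +
      ENNReal.ofReal (ε * 2 ^ (s ^ 2 * m * (1 - 1 / p) / 2)) *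
        (∫⁻ ω, ENNReal.ofReal (exp (-(s * (p - 1) * ∑ j ∈ Finset.range m, L.eta j ω y))) *
          F (L.H 0 ω) ^ p ∂L.P) ^ (1 / p) ∧
    ENNReal.ofReal (exp (s * u y)) * ∫⁻ ω, F (L.H 0 ω) ∂L.P ≤ ∫⁻ ω, F (addFn (L.H 0 ω) u) ∂L.P +
      ENNReal.ofReal (ε * 2 ^ (s ^ 2 * m * (1 - 1 / p) / 2)) *
        (∫⁻ ω, ENNReal.ofReal (exp (-(s * (p - 1) * ∑ j ∈ Finset.range m, L.eta j ω y))) *
          F (L.H 0 ω) ^ p ∂L.P) ^ (1 / p)

end Layers

namespace Model

variable (M : Model)

theorem ep : M.EP := fun n g => M.plus_add n g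

theorem lintegral_Pk (n : ℤ) (g : Fn) {F : Cf → ℝ≥0∞} (hF : Measurable F) :
    ∫⁻ c, F c ∂M.Pk n g = ∫⁻ ω, F (M.cf n g ω) ∂M.P :=
  lintegral_map hF (M.measurable_cf n g)

theorem eW : M.EW := by
  intro n g g'
  filter_upwards [M.ae_weyl (M.ep n g) (f := fun _ => g' - g) measurable_const] with ω h
  rw [addFn_addFn, add_sub_cancel] at h
  exact h

theorem e9 : M.E9 := by
  intro n g t
  rw [Pk_eq, Pk_eq, Measure.map_map (measurable_scale _ _ _) (M.measurable_cf n g)]
  refine Measure.map_congr ?_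
  filter_upwards [M.ae_scale (M.ep n g) (t := fun _ => t) measurable_const] with ω h
  rw [addFn_addFn] at h
  exact h.symm

/-- freezing an independent continuous function -/
theorem freeze {X : M.Ω → Fn} (hX : Measurable X) {n : ℤ} (hi : IndepFun X (M.H n) M.P) (g : Fn)
    {Φ : Fn × Cf → ℝ≥0∞} (hΦ : Measurable Φ) :
    ∫⁻ ω, Φ (X ω, M.conf (addFn (M.H n ω) (g + X ω))) ∂M.P =
      ∫⁻ η, ∫⁻ c, Φ (η, c) ∂M.Pk n (g + η) ∂M.P.map X := by
  have hF : Measurable fun q : Fn × Field => Φ (q.1, M.conf (addFn q.2 (g + q.1))) :=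
    hΦ.comp (measurable_fst.prodMk (M.measurable_conf.comp
      (measurable_addFn' measurable_snd (measurable_fst.const_add g))))
  have h1 := LQ.Gauss.lintegral_freeze hX.aemeasurable (M.meas_H n).aemeasurable hi hF
  have h2 : ∀ η, ∫⁻ c, Φ (η, c) ∂M.Pk n (g + η) =
      ∫⁻ ω, Φ (η, M.conf (addFn (M.H n ω) (g + η))) ∂M.P := fun η =>
    M.lintegral_Pk n (g + η) (hΦ.comp measurable_prodMk_left)
  simp only [h2]
  rw [h1, lintegral_map _ hX]
  exact (hF.comp (measurable_fst.prodMk ((M.meas_H n).comp measurable_snd))).lintegral_prod_right'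

/-- the tower property, with a weight that depends on the coarse layers -/
theorem tower (n : ℤ) (m : ℕ) (g : Fn) {Φ : Fn × Cf → ℝ≥0∞} (hΦ : Measurable Φ) :
    ∫⁻ ω, Φ (M.S n m ω, M.cf n g ω) ∂M.P =
      ∫⁻ η, ∫⁻ c, Φ (η, c) ∂M.Pk (n + m) (g + η) ∂M.lay n m := by
  refine (lintegral_congr_ae ?_).trans (M.freeze (M.meas_S n m) (M.indep_S n m) g hΦ)
  filter_upwards [M.steps n m] with ω h
  rw [cf, h, addFn_addFn, add_comm g]

theorem e1m : M.E1m := fun n m g F hF =>
  (M.lintegral_Pk n g hF).trans (M.tower n m g (Φ := fun q => F q.2) (hF.comp measurable_snd))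

theorem lay_one (n : ℤ) : M.lay n 1 = M.ν n := by simp [lay, ν]

theorem e1 : M.E1 := fun n g F hF => by
  rw [M.e1m n 1 g F hF, lay_one, Nat.cast_one]

theorem e2 : M.E2 := by
  intro n g ι A hA
  rw [iIndep_iff]
  intro s f hf
  have key : ∀ i, ∃ B : Set M.Ω, MeasurableSet[sigmaOn (M.H n) (A i)] B ∧
      (i ∈ s → ∀ᵐ ω ∂M.P, (M.cf n g ω ∈ f i ↔ ω ∈ B)) := fun i => by
    by_cases hi : i ∈ s
    · obtain ⟨S', h1, h2⟩ := M.exists_fieldSet (M.ep n g) (hf i hi)
      exact ⟨_, Mu.measurable_sigmaOn (M.H n) (A i) (measurable_addFn_on (A i) g h1), fun _ => h2⟩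
    · exact ⟨∅, @MeasurableSet.empty _ (sigmaOn (M.H n) (A i)), fun h => (hi h).elim⟩
  choose B hB he using key
  have hm : ∀ i ∈ s, MeasurableSet (f i) := fun i hi => GG_le _ _ (hf i hi)
  have h1 : M.Pk n g (⋂ i ∈ s, f i) = M.P (⋂ i ∈ s, B i) := by
    rw [Pk_eq, Measure.map_apply (M.measurable_cf n g) (s.measurableSet_biInter hm)]
    refine measure_congr (eventuallyEq_set.2 ?_)
    filter_upwards [(s.eventually_all).2 he] with ω hω
    simp only [mem_preimage, mem_iInter]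
    exact forall₂_congr hω
  rw [h1, (M.range n ι A hA).meas_biInter fun i _ => hB i]
  refine Finset.prod_congr rfl fun i hi => ?_
  rw [Pk_eq, Measure.map_apply (M.measurable_cf n g) (hm i hi)]
  exact (measure_congr (eventuallyEq_set.2 (he i hi))).symm

theorem gamma_Q : M.γ * M.Q - M.γ ^ 2 / 2 = 2 := by
  have := M.γ_pos.ne'
  unfold Q
  field_simp
  ring

theorem e6 : M.E6 := by
  intro n k j b g
  have ha := Mu.dy_ne_zero k j
  have hm : Measurable fun H : Field => addFn H (res M.Q (dy k j) b g) :=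
    measurable_addFn' measurable_id measurable_const
  have h2 : Measurable fun ω => affine 0 (dy k j) b (M.H (n + k) ω) :=
    (measurable_affine _ _ _).comp (M.meas_H _)
  have law : M.P.map (fun ω => affine M.Q (dy k j) b (addFn (M.H (n + k) ω) g)) =
      M.P.map fun ω => addFn (M.H n ω) (res M.Q (dy k j) b g) := by
    simp only [affine_addFn M.Q ha]
    exact (Measure.map_map hm h2).symm.trans
      ((congrArg _ (M.law_affine n k j b)).trans (Measure.map_map hm (M.meas_H n)))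
  have m1 : Measurable fun ω => affine M.Q (dy k j) b (addFn (M.H (n + k) ω) g) :=
    (measurable_affine _ _ _).comp (M.ep _ g).1
  have m2 := (M.ep n (res M.Q (dy k j) b g)).1
  have hv : ∀ᵐ ω ∂M.P, IsVague M.γ (affine M.Q (dy k j) b (addFn (M.H (n + k) ω) g))
      (M.μ (affine M.Q (dy k j) b (addFn (M.H (n + k) ω) g))) := by
    refine ae_of_ae_map (p := fun H => IsVague M.γ H (M.μ H)) m1.aemeasurable ?_
    rw [law, ae_map_iff m2.aemeasurable (Mu.measurableSet_vague M.γ M.hμ.meas)]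
    exact M.ae_vague (M.ep n _)
  rw [Pk_eq, Pk_eq, Measure.map_map (measurable_pull _ _) (M.measurable_cf _ g)]
  refine Eq.trans (Measure.map_congr ?_) ((Measure.map_map M.measurable_conf m1).symm.trans
    ((congrArg _ law).trans (Measure.map_map M.measurable_conf m2)))
  filter_upwards [hv, M.ae_vague (M.ep (n + k) g),
    M.hD.coord _ _ _ (M.ep (n + k) g) (dy k j) b ha] with ω h3 h4 h5
  refine Prod.ext (ContinuousMap.ext fun p => h5 p.1 p.2) ?_
  exact Mu.vague_unique (Mu.vague_affine h4 M.gamma_Q (Mu.norm_dy k j) b) h3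

theorem e7 : M.E7 := by
  intro n j b F hF
  have hs := hF.comp (measurable_shape (dy n j) b)
  have hΦ : Measurable fun q : Fn × Fn => F (shape (dy n j) b (q.1 + q.2)) :=
    hs.comp (measurable_fst.add measurable_snd)
  have h1 := LQ.Gauss.lintegral_freeze M.meas_ginf.aemeasurable (M.meas_S 0 n).aemeasurable
    (M.indep_ginf_S n) hΦ
  have h2 : ∀ g, ∫⁻ η, F (shape (dy n j) b (g + η)) ∂M.lay 0 n =
      ∫⁻ ω, F (shape (dy n j) b (g + M.S 0 n ω)) ∂M.P := fun g =>
    lintegral_map (hΦ.comp measurable_prodMk_left) (M.meas_S 0 n)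
  have h3 : Measurable fun g => ∫⁻ ω, F (shape (dy n j) b (g + M.S 0 n ω)) ∂M.P :=
    (hΦ.comp (measurable_fst.prodMk ((M.meas_S 0 n).comp measurable_snd))).lintegral_prod_right'
  have h4 : Measurable fun ω => shape (dy n j) b (M.ginf ω + ∑ i ∈ Finset.range n, M.eta i ω) :=
    (measurable_shape _ _).comp (M.meas_ginf.add (Finset.measurable_sum _ fun _ _ => M.meas_eta _))
  simp only [h2]
  rw [Ginf, lintegral_map h3 M.meas_ginf, ← M.shape_law n j b, lintegral_map hF h4]
  refine h1.symm.trans (lintegral_congr fun ω => ?_)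
  simp only [Layers.S, zero_add]

theorem eU : M.EU := by
  intro ν hν h0
  have h1 : ν.map (fun H => nrm (id H)) = ν.map id := Measure.map_congr (h0.mono fun H => nrm_of_zero)
  exact (Measure.map_id.symm.trans h1.symm).trans (gff_law hν M.gff)

/-- `E0` from its form at level zero -/
theorem e0_of (h : ∀ᵐ ω ∂M.P, (M.μ (M.H 0 ω)).IsOpenPosMeasure ∧ ∀ z, M.μ (M.H 0 ω) {z} = 0) :
    M.E0 := by
  intro n g
  obtain ⟨f, hf, e⟩ := M.exists_rel n
  filter_upwards [h, e, M.ae_good (M.ep n g), M.ae_vague (M.ep n g),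
    M.ae_weyl (M.plus_H 0) (hf.add_const g)] with ω h1 h2 h3 h4 h5
  have h6 : (M.cf n g ω).2 = (M.μ (M.H 0 ω)).withDensity
      fun z => ENNReal.ofReal (exp (M.γ * (f ω + g) z)) := by
    rw [← h5.2, ← addFn_addFn, ← h2]
    rfl
  refine ⟨h3, h4.1, ?_, fun z => ?_⟩
  · rw [h6]
    have := h1.1
    refine Measure.AbsolutelyContinuous.isOpenPosMeasure (μ := M.μ (M.H 0 ω))
      (withDensity_absolutelyContinuous' (Measurable.aemeasurable (by fun_prop))
        (ae_of_all _ fun z => (ENNReal.ofReal_pos.2 (exp_pos _)).ne'))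
  · rw [h6]
    exact withDensity_absolutelyContinuous _ _ (h1.2 z)

/-- `E8` from its form for fields -/
theorem e8_of (h : M.CM0) : M.E8 := by
  intro p s R ε hp hR hε
  obtain ⟨m₀, hm⟩ := h p s R ε hp hR hε
  refine ⟨m₀, fun m hm' y g u h1 h2 f hf => ?_⟩
  have hf' : Measurable f := hf.mono (GG_le _) le_rfl
  obtain ⟨f', h3, e1, e2⟩ := M.exists_fieldFun₂ (M.ep 0 (g + u)) (M.ep 0 g) hf
  have a1 : ∫⁻ c, f c ∂M.Pk 0 (g + u) = ∫⁻ ω, f' (addFn (addFn (M.H 0 ω) u) g) ∂M.P := by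
    rw [M.lintegral_Pk 0 _ hf']
    refine lintegral_congr_ae (e1.mono fun ω hω => ?_)
    simp only [addFn_addFn, add_comm u]
    exact hω
  have a2 : ∫⁻ c, f c ∂M.Pk 0 g = ∫⁻ ω, f' (addFn (M.H 0 ω) g) ∂M.P :=
    (M.lintegral_Pk 0 _ hf').trans (lintegral_congr_ae e2)
  have hw : Measurable fun η : Fn => ENNReal.ofReal (exp (-(s * (p - 1) * η y))) :=
    ((Mu.measurable_eval y).const_mul _).neg.exp.ennreal_ofReal
  have a3 : ∫⁻ η, ENNReal.ofReal (exp (-(s * (p - 1) * η y))) * ∫⁻ c, f c ^ p ∂M.Pk m (g + η)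
      ∂M.lay 0 m = ∫⁻ ω, ENNReal.ofReal (exp (-(s * (p - 1) *
        ∑ j ∈ Finset.range m, M.eta j ω y))) * f' (addFn (M.H 0 ω) g) ^ p ∂M.P := by
    have t := M.tower 0 m g
      (Φ := fun q => ENNReal.ofReal (exp (-(s * (p - 1) * q.1 y))) * f q.2 ^ p)
      ((hw.comp measurable_fst).mul ((hf'.comp measurable_snd).pow_const p))
    simp only [zero_add, lintegral_const_mul _ (hf'.pow_const p)] at t
    rw [← t]
    refine lintegral_congr_ae (e2.mono fun ω hω => ?_)
    simp only [Layers.S, zero_add, ContinuousMap.coe_sum, Finset.sum_apply, ← hω]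
    rfl
  rw [a1, a2, err, a3]
  exact hm m hm' y u h1 h2 (fun H => f' (addFn H g)) (h3.comp (measurable_addFn_on _ g))

end Model

end Pool.Agent.Lib.MP_0d9445_pr
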