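import Pool.Agent.Lib.MP_0d9445_pr.EN.Pull
import Pool.Agent.Lib.MP_0d9445_pr.EN.Facts
import Pool.Agent.Lib.MP_0d9445_pr.CR.Wt
import Pool.Agent.Lib.MP_0d9445_pr.Mu.Path

/-!
The engine with points is a cascade in the sense of the crude estimates.
-/

open MeasureTheory ProbabilityTheory Set Filter Topology Real LQ.Met
open scoped ENNReal NNReal

noncomputable section

namespace Pool.Agent.Lib.MP_0d9445_pr

open PPP (pts ppp Meas filt cmap pppK)
open CR (osq csq reg ann ctr sc box Pat wt oo cc lip ex Casc)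

/-- the facts about the field that the cascade needs -/
structure Model.Base (M : Model) (p : ℝ) : Prop where
  one_lt : 1 < p
  le_two : p ≤ 2
  lt : p * M.γ ^ 2 < 4
  e0 : M.E0
  ew : M.EW
  e1 : M.E1
  e2 : M.E2
  e4 : M.E4 p
  e6 : M.E6

namespace EN

variable {M : Model} {p : ℝ}

theorem lt_top_of_locFin {m : Measure ℂ} (h : IsLocallyFiniteMeasure m) (W : Sq) : m W.o < ∞ :=
  (measure_mono (osq_subset_csq _ _)).trans_lt (isCompact_csq _ _).measure_lt_top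

theorem ae_fin (h : M.E0) (n : ℤ) (g : Fn) (W : Sq) : ∀ᵐ c ∂M.Pk n g, c.2 W.o < ∞ := by
  exact (ae_map_iff (M.measurable_cf n g).aemeasurable (measurableSet_lt
    ((Measure.measurable_coe (measurableSet_o W)).comp measurable_snd) measurable_const)).2
    ((h n g).mono fun ω hω => lt_top_of_locFin hω.2.1 W)

theorem tower_hat (h : M.E1) (L : ℝ) (W : Sq) (n : ℤ) (g : Fn) {F : Xi → ℝ≥0∞}
    (hF : Measurable F) :
    ∫⁻ x, F x ∂M.Phat L W n g = ∫⁻ η, ∫⁻ x, F x ∂M.Phat L W (n + 1) (g + η) ∂M.ν n := by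
  simp only [lintegral_Phat _ _ _ _ _ hF]
  exact h n g _ hF.lintegral_kernel_prod_right'

theorem tower_hat_m (h : M.E1m) (L : ℝ) (W : Sq) (n : ℤ) (m : ℕ) (g : Fn) {F : Xi → ℝ≥0∞}
    (hF : Measurable F) :
    ∫⁻ x, F x ∂M.Phat L W n g = ∫⁻ η, ∫⁻ x, F x ∂M.Phat L W (n + m) (g + η) ∂M.lay n m := by
  simp only [lintegral_Phat _ _ _ _ _ hF]
  exact h n m g _ hF.lintegral_kernel_prod_right'

theorem indep_GG (h : M.E2) (n : ℤ) (g : Fn) {A B : Set ℂ}
    (hAB : ∀ x ∈ A, ∀ y ∈ B, (2 : ℝ) ^ (-n) / 2 ≤ ‖x - y‖) : Indep (GG A) (GG B) (M.Pk n g) := by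
  refine (h n g Bool (fun i => cond i A B) fun i j hij x hx y hy => ?_).indep
    (i := true) (j := false) (by simp)
  cases i <;> cases j
  · exact absurd rfl hij
  · rw [norm_sub_rev]
    exact hAB y hy x hx
  · exact hAB x hx y hy
  · exact absurd rfl hij

/-- E2hat -/
theorem indep_hat_Phat (h0 : M.E0) (h : M.E2) (L : ℝ) (W : Sq) (n : ℤ) (g : Fn) {A B : Set ℂ}
    (hAB : ∀ x ∈ A, ∀ y ∈ B, (2 : ℝ) ^ (-n) / 2 ≤ ‖x - y‖) :
    Indep (GGhat A) (GGhat B) (M.Phat L W n g) := by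
  rw [Phat_apply]
  refine indep_GGhat _ (indep_GG h n g hAB) (disjoint_left.2 fun x hx hy => ?_) _ _ _
    (ae_fin h0 n g W)
  have := hAB x hx x hy
  rw [sub_self, norm_zero] at this
  exact this.not_gt (by positivity)

theorem sc_eq (n : ℕ) : sc n = (2 : ℝ) ^ (-(n : ℤ)) := by simp [sc]

theorem norm_sc (n : ℕ) : ‖((sc n : ℝ) : ℂ)‖ = sc n := by
  rw [Complex.norm_real, norm_eq_abs, abs_of_pos (sc_pos n)]

theorem res_sc (Q : ℝ) (n : ℕ) (y : ℂ) (g : Fn) (z : ℂ) :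
    res Q (sc n : ℝ) y g z = g (sc n * z + y) - n * Q * log 2 := by
  show g (sc n * z + y) + Q * log ‖((sc n : ℝ) : ℂ)‖ = _
  rw [norm_sc, sc, log_pow, log_inv]
  ring

theorem lintegral_Pk_pull (h : M.E6) (n : ℕ) (y : ℂ) (g : Fn) {F : Cf → ℝ≥0∞}
    (hF : Measurable F) : ∫⁻ c, F (pull (sc n : ℝ) y c) ∂M.Pk n g =
      ∫⁻ ω, F (M.cf 0 (res M.Q (sc n : ℝ) y g) ω) ∂M.P := by
  have := h 0 n 0 y g
  rw [zero_add, dy_zero] at this
  rw [← lintegral_map hF (measurable_pull _ _), this, M.Pk_eq,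
    lintegral_map hF (M.measurable_cf _ _)]

/-! ### slopes -/

theorem oo_le_lip (n : ℕ) (y : ℂ) (g : Fn) :
    oo n y g ≤ lip (resc (sc n : ℝ) y g) (Metric.ball 0 48) := by
  have hs := sc_pos n
  have h0 : ((sc n : ℝ) : ℂ) ≠ 0 := Complex.ofReal_ne_zero.2 hs.ne'
  have hb : ∀ x ∈ Metric.ball y (48 * sc n), (x - y) / (sc n : ℝ) ∈ Metric.ball (0 : ℂ) 48 :=
    fun x hx => by
      rw [mem_ball_zero_iff, norm_div, norm_sc, div_lt_iff₀ hs]
      exact mem_ball_iff_norm.1 hx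
  simp only [oo, lip, ENNReal.mul_iSup]
  refine iSup₂_le fun x hx => iSup₂_le fun x' hx' => le_iSup₂_of_le _ (hb x hx)
    (le_iSup₂_of_le _ (hb x' hx') (le_of_eq ?_))
  have e : edist x x' =
      ENNReal.ofReal (sc n) * edist ((x - y) / (sc n : ℝ)) ((x' - y) / (sc n : ℝ)) := by
    rw [edist_dist, edist_dist, ← ENNReal.ofReal_mul hs.le, dist_eq_norm, dist_eq_norm,
      ← sub_div, norm_div, norm_sc, sub_sub_sub_cancel_right, mul_div_cancel₀ _ hs.ne']
  show _ = edist (g (_ * ((x - y) / _) + y)) (g (_ * ((x' - y) / _) + y)) / _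
  rw [mul_div_add h0, mul_div_add h0, e, ← mul_div_assoc,
    ENNReal.mul_div_mul_left _ _ (ENNReal.ofReal_pos.2 hs).ne' ENNReal.ofReal_ne_top]

theorem measurable_fn (y : ℂ) : Measurable fun g : Fn => g y :=
  Continuous.measurable (by fun_prop)

theorem measurable_oo (n : ℕ) (y : ℂ) : Measurable (oo n y) :=
  (CR.measurable_lip measurable_fn Metric.isOpen_ball).const_mul _

theorem lintegral_resc_eta (M : Model) (k : ℤ) (j : ℕ) (b : ℂ) (n : ℤ) {F : Fn → ℝ≥0∞}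
    (hF : Measurable F) :
    ∫⁻ ω, F (resc (dy k j) b (M.eta (n + k) ω)) ∂M.P = ∫⁻ ω, F (M.eta n ω) ∂M.P := by
  have hm : Measurable fun ω => (fun n => M.eta n ω, fun n => M.H n ω) :=
    (measurable_pi_lambda _ M.meas_eta).prodMk (measurable_pi_lambda _ M.meas_H)
  have hG : Measurable fun q : (ℤ → Fn) × (ℤ → Field) => F (q.1 n) :=
    hF.comp ((measurable_pi_apply n).comp measurable_fst)
  have hc := M.cov k j b
  have hp := Measure.isProbabilityMeasure_map (μ := M.P) hm.aemeasurable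
  have hae := AEMeasurable.of_map_ne_zero (hc.trans_ne (IsProbabilityMeasure.ne_zero _))
  exact (lintegral_map' hG.aemeasurable hae).symm.trans
    ((congrArg (fun m => ∫⁻ q, F (q.1 n) ∂m) hc).trans (lintegral_map hG hm))

theorem lipexp_nu (M : Model) (θ : ℝ) :
    ∃ C : ℝ≥0, ∀ (n : ℕ) (y : ℂ), ∫⁻ η, ex (ENNReal.ofReal θ * oo n y η) ∂M.ν n ≤ C := by
  refine ⟨_, fun n y => le_of_le_of_eq ?_ (ENNReal.coe_toNNReal (M.lipexp θ 48).ne).symm⟩
  have hF : Measurable fun g : Fn => ex (ENNReal.ofReal θ * lip g (Metric.ball 0 48)) :=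
    CR.measurable_ex.comp ((CR.measurable_lip measurable_fn Metric.isOpen_ball).const_mul _)
  have hG : Measurable fun η : Fn => ex (ENNReal.ofReal θ * oo n y η) :=
    CR.measurable_ex.comp ((measurable_oo n y).const_mul _)
  rw [Model.ν, lintegral_map hG (M.meas_eta n), ← lintegral_resc_eta M n 0 y 0 hF, zero_add,
    dy_zero]
  exact lintegral_mono fun ω => CR.ex_mono (mul_le_mul_right (oo_le_lip n y _) _)

theorem abs_sub_le_of_oo {n : ℕ} {y y' : ℂ} (h : y' ∈ Metric.ball y (48 * sc n)) {g : Fn}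
    {L : ℝ≥0} (hL : oo n y g ≤ L) : |g y' - g y| ≤ 48 * L := by
  have h1 := (CR.exp_abs_shift_le h zero_le_one g).trans
    (CR.ex_mono (mul_le_mul_right hL (ENNReal.ofReal (48 * 1))))
  rw [← ENNReal.ofReal_coe_nnreal, ← ENNReal.ofReal_mul (by norm_num),
    CR.ex_ofReal (by positivity), ENNReal.ofReal_le_ofReal_iff (exp_pos _).le, exp_le_exp] at h1
  linarith

theorem exp_res_le (Q : ℝ) {γ : ℝ} (hγ : 0 ≤ γ) {n : ℕ} {y y' : ℂ}
    (h : y' ∈ Metric.ball y (48 * sc n)) (g : Fn) :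
    ENNReal.ofReal (exp (γ * (g y' - n * Q * log 2))) ≤ wt Q γ (48 * γ) n y g := by
  refine le_trans ?_ (mul_le_mul_right (CR.exp_abs_shift_le h hγ g) _)
  rw [← ENNReal.ofReal_mul (exp_pos _).le, ← exp_add, cc]
  refine ENNReal.ofReal_le_ofReal (exp_le_exp.2 ?_)
  nlinarith [mul_le_mul_of_nonneg_left (le_abs_self (g y' - g y)) hγ]

/-! ### moments of the measure -/

theorem cf_zero (M : Model) (ω : M.Ω) : M.cf 0 0 ω = M.conf (M.H 0 ω) := by
  rw [Model.cf, Mu.addFn_zero]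

theorem E4_one (hp : 1 ≤ p) (h : M.E4 p) : M.E4 1 := fun ρ => by
  refine lt_of_le_of_lt (lintegral_mono (g := fun ω => 1 + M.μ (M.H 0 ω) (osq 0 ρ) ^ p)
    fun ω => ?_) ?_
  · rcases le_total (M.μ (M.H 0 ω) (osq 0 ρ)) 1 with k | k
    · rw [ENNReal.rpow_one]
      exact k.trans le_self_add
    · exact (ENNReal.rpow_le_rpow_of_exponent_le k hp).trans le_add_self
  · rw [lintegral_add_left measurable_const]
    exact ENNReal.add_lt_top.2 ⟨by simp, h ρ⟩

/-- E4 for every level, centre and coarse field -/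
theorem moment_Pk (hw : M.EW) (h6 : M.E6) {q : ℝ} (hq : 0 < q) (h4 : M.E4 q) {ρ : ℝ}
    (hρ : ρ < 24) : ∃ C : ℝ≥0, ∀ (n : ℕ) (y : ℂ) (g : Fn),
      ∫⁻ c, c.2 (osq y (ρ * sc n)) ^ q ∂M.Pk n g ≤
        C * wt M.Q (q * M.γ) (q * (48 * M.γ)) n y g := by
  refine ⟨_, fun n y g => le_of_le_of_eq ?_
    (congrArg (· * _) (ENNReal.coe_toNNReal (h4 ρ).ne).symm)⟩
  have hA : MeasurableSet (osq 0 ρ) := (isOpen_osq _ _).measurableSet
  have hF : Measurable fun c : Cf => c.2 (osq 0 ρ) ^ q :=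
    ((Measure.measurable_coe hA).comp measurable_snd).pow_const _
  have e : ∀ c : Cf, c.2 (osq y (ρ * sc n)) ^ q = (pull (sc n : ℝ) y c).2 (osq 0 ρ) ^ q :=
    fun c => by
      rw [(sim_real (sc_pos n)).pull_apply (0, ρ) c, img, norm_sc, mul_zero, zero_add, mul_comm]
  simp only [e]
  have hG : Measurable fun ω => M.μ (M.H 0 ω) (osq 0 ρ) ^ q :=
    ((Measure.measurable_coe hA).comp (M.hμ.meas.comp (M.meas_H 0))).pow_const _
  rw [lintegral_Pk_pull h6 n y g hF, ← lintegral_mul_const _ hG,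
    ← CR.wt_rpow _ _ (by linarith [M.γ_pos]) hq]
  refine lintegral_mono_ae ((hw 0 0 (res M.Q (sc n : ℝ) y g)).mono fun ω hω => ?_)
  rw [← ENNReal.mul_rpow_of_nonneg _ _ hq.le, hω.2, cf_zero, withDensity_apply _ hA, mul_comm]
  refine ENNReal.rpow_le_rpow (le_of_le_of_eq (setLIntegral_mono' hA fun z hz => ?_)
    (setLIntegral_const _ _)) hq.le
  rw [ContinuousMap.zero_apply, sub_zero, res_sc]
  refine exp_res_le _ M.γ_pos.le (mem_ball_iff_norm.2 ?_) g
  have := norm_le_of_csq (osq_subset_csq _ _ hz)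
  rw [sub_zero] at this
  rw [add_sub_cancel_right, norm_mul, norm_sc]
  nlinarith [sc_pos n]

theorem inten_apply_le {a : ℝ} (W : Sq) (c : Cf) (A : Set ℂ) :
    inten a W c A ≤ ENNReal.ofReal a * c.2 A := cut_le _ _ _ _

theorem count_le {γ L : ℝ} (hL : 0 ≤ γ * L) (W : Sq) (c : Cf) {A : Set ℂ} (hA : MeasurableSet A) :
    ∫⁻ z, (((pts z.1 ∪ pts z.2) ∩ A).ncard : ℝ≥0∞) ∂pt2K γ L W c ≤
      ENNReal.ofReal (exp (γ * L)) * c.2 A := by
  rw [pt2K_apply, lintegral_pp2_union _ _ (F := fun s => ((s ∩ A).ncard : ℝ≥0∞))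
    (measurable_from_top.comp (PPP.meas_ncard hA)), inten_add hL]
  exact (PPP.lintegral_ncard_le _ hA).trans (inten_apply_le W c A)

theorem two_le {γ L q : ℝ} (hL : 0 ≤ γ * L) (h0 : 0 ≤ q) (h2 : q ≤ 2) (W : Sq) (c : Cf)
    {A : Set ℂ} (hA : MeasurableSet A) :
    pt2K γ L W c {z | 2 ≤ ((pts z.1 ∪ pts z.2) ∩ A).ncard} ≤
      ENNReal.ofReal (exp (γ * L)) ^ q * c.2 A ^ q := by
  have hm : MeasurableSet {x : Tup | 2 ≤ (pts x ∩ A).ncard} :=
    PPP.meas_ncard hA (t := {k | 2 ≤ k}) trivial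
  have e : pt2K γ L W c {z | 2 ≤ ((pts z.1 ∪ pts z.2) ∩ A).ncard} =
      ppp (inten (exp (γ * L)) W c) {x | 2 ≤ (pts x ∩ A).ncard} := by
    have hm' : MeasurableSet {z : Tup × Tup | 2 ≤ ((pts z.1 ∪ pts z.2) ∩ A).ncard} :=
      (PPP.meas_ncard hA).union_joint (t := {k | 2 ≤ k}) trivial
    rw [← lintegral_indicator_one hm, ← inten_add hL, pt2K_apply, ← lintegral_indicator_one hm']
    exact lintegral_pp2_union _ _ (F := {s : Set ℂ | 2 ≤ (s ∩ A).ncard}.indicator 1)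
      (measurable_one.indicator hm)
  rw [e, ← ENNReal.mul_rpow_of_nonneg _ _ h0]
  refine le_trans ?_ (ENNReal.rpow_le_rpow (inten_apply_le W c A) h0)
  rcases le_total (inten (exp (γ * L)) W c A) 1 with k | k
  · refine (PPP.ppp_le_ncard_le _ hA 2).trans ?_
    rw [← ENNReal.rpow_natCast]
    exact ENNReal.rpow_le_rpow_of_exponent_ge k (by exact_mod_cast h2)
  · exact prob_le_one.trans (le_of_eq_of_le (ENNReal.one_rpow q).symm (ENNReal.rpow_le_rpow k h0))

theorem measurable_cnt {A : Set ℂ} (hA : MeasurableSet A) :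
    Measurable fun x : Xi => ((pts x.2.1 ∪ pts x.2.2) ∩ A).ncard :=
  (PPP.meas_ncard hA).union_joint.comp measurable_snd

theorem one_hat (h : M.Base p) {L : ℝ} (hL : 0 ≤ L) (W : Sq) : ∃ C : ℝ≥0, ∀ (n : ℕ) y g,
    ∫⁻ x, (((pts x.2.1 ∪ pts x.2.2) ∩ osq y (6 * sc n)).ncard : ℝ≥0∞) ∂M.Phat L W n g ≤
      C * wt M.Q M.γ (48 * (p * M.γ)) n y g := by
  obtain ⟨C, hC⟩ := moment_Pk h.ew h.e6 one_pos (E4_one h.one_lt.le h.e4) (ρ := 6) (by norm_num)
  refine ⟨(exp (M.γ * L)).toNNReal * C, fun n y g => ?_⟩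
  have hA : MeasurableSet (osq y (6 * sc n)) := (isOpen_osq _ _).measurableSet
  have h1 := hC n y g
  simp only [ENNReal.rpow_one, one_mul] at h1
  have hF : Measurable fun x : Xi =>
      (((pts x.2.1 ∪ pts x.2.2) ∩ osq y (6 * sc n)).ncard : ℝ≥0∞) :=
    measurable_from_top.comp (measurable_cnt hA)
  rw [lintegral_Phat _ _ _ _ _ hF]
  refine (lintegral_mono fun c => count_le (mul_nonneg M.γ_pos.le hL) W c hA).trans ?_
  rw [lintegral_const_mul' _ _ ENNReal.ofReal_ne_top, ENNReal.coe_mul, mul_assoc]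
  refine mul_le_mul_right (h1.trans (mul_le_mul_right (CR.wt_mono _ _ ?_ _ _ _) _)) _
  nlinarith [M.γ_pos, h.one_lt]

theorem two_hat (h : M.Base p) {L : ℝ} (hL : 0 ≤ L) (W : Sq) : ∃ C : ℝ≥0, ∀ (n : ℕ) y g,
    M.Phat L W n g {x | 2 ≤ ((pts x.2.1 ∪ pts x.2.2) ∩ osq y (6 * sc n)).ncard} ≤
      C * wt M.Q (p * M.γ) (48 * (p * M.γ)) n y g := by
  have hp : 0 < p := one_pos.trans h.one_lt
  obtain ⟨C, hC⟩ := moment_Pk h.ew h.e6 hp h.e4 (ρ := 6) (by norm_num)
  refine ⟨(exp (M.γ * L)).toNNReal ^ p * C, fun n y g => ?_⟩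
  have hA : MeasurableSet (osq y (6 * sc n)) := (isOpen_osq _ _).measurableSet
  have hm : MeasurableSet {x : Xi | 2 ≤ ((pts x.2.1 ∪ pts x.2.2) ∩ osq y (6 * sc n)).ncard} :=
    measurable_cnt hA (t := {k | 2 ≤ k}) trivial
  rw [Phat_apply, Measure.compProd_apply hm]
  refine (lintegral_mono fun c =>
    two_le (mul_nonneg M.γ_pos.le hL) hp.le h.le_two W c hA).trans ?_
  rw [lintegral_const_mul' _ _ (ENNReal.rpow_ne_top_of_nonneg hp.le ENNReal.ofReal_ne_top),
    ENNReal.coe_mul, mul_assoc, ENNReal.coe_rpow_of_nonneg _ hp.le, mul_left_comm (48 : ℝ)]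
  exact mul_le_mul_right (hC n y g) _

/-! ### soft blocking -/

/-- probability that the square `(u, r)` is not blocked, for the intensity `t μ` -/
def nb (lam t : ℝ) (u : ℂ) (r : ℝ) (c : Cf) : ℝ≥0∞ :=
  ptK t (u, r) c {x | ¬ blk lam u r c.1 (pts x)}

theorem nb_eq (lam t : ℝ) (u : ℂ) (r : ℝ) (c : Cf) :
    nb lam t u r c = ppp (inten t (u, r) c) {x | ¬ blk lam u r c.1 (pts x)} := rfl

theorem measurableSet_blk (lam : ℝ) (u : ℂ) (r : ℝ) :
    MeasurableSet {q : Cf × Tup | blk lam u r q.1.1 (pts q.2)} :=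
  (((measurable_T (u, r)).comp measurable_fst.fst).prodMk measurable_snd)
    (measurableSet_blkT lam u r)

theorem measurableSet_blk' (lam : ℝ) (u : ℂ) (r : ℝ) (c : Cf) :
    MeasurableSet {x : Tup | blk lam u r c.1 (pts x)} :=
  measurable_prodMk_left (measurableSet_blk lam u r)

theorem measurable_nb (lam t : ℝ) (u : ℂ) (r : ℝ) : Measurable (nb lam t u r) :=
  Kernel.measurable_kernel_prodMk_left (measurableSet_blk lam u r).compl

theorem nb_pull {s : ℝ} (hs : 0 < s) (b : ℂ) (lam t : ℝ) (u : ℂ) {r : ℝ} (hr : 0 ≤ r) (c : Cf) :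
    nb lam t u r (pull s b c) = nb lam t (s * u + b) (s * r) c := by
  have hi : img s b (u, r) = (s * u + b, s * r) := by
    rw [img, Complex.norm_real, norm_eq_abs, abs_of_pos hs]
  have hm : MeasurableSet {x : Tup | ¬ blk lam u r (pull s b c).1 (pts x)} :=
    (measurableSet_blk' lam u r _).compl
  rw [nb_eq, nb_eq, (sim_real hs).inten_pull, hi, ← PPP.ppp_map _ (measurable_unaff _ _),
    Measure.map_apply (PPP.measurable_cmap (measurable_unaff _ _)) hm]
  congr 1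
  ext x
  simp only [mem_preimage, mem_ofPred_eq, PPP.pts_cmap, blk_pull hs lam u hr]

theorem pt2K_not_blk (γ L lam : ℝ) {W : Sq} {u : ℂ} {r : ℝ} (hW : osq u r ⊆ W.o) {c : Cf}
    (hc : c.2 W.o < ∞) :
    pt2K γ L W c {z | ¬ blk lam u r c.1 (pts z.1)} ≤ nb lam (exp (-(γ * L))) u r c := by
  have hm : MeasurableSet {x : Tup | ¬ blk lam u r c.1 (pts x)} :=
    (measurableSet_blk' lam u r c).compl
  have hm' : MeasurableSet {z : Tup × Tup | ¬ blk lam u r c.1 (pts z.1)} := measurable_fst hm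
  have e : pt2K γ L W c {z | ¬ blk lam u r c.1 (pts z.1)} =
      ppp (inten (exp (-(γ * L))) W c) {x | ¬ blk lam u r c.1 (pts x)} := by
    rw [pt2K_apply, ← lintegral_indicator_one hm', ← lintegral_indicator_one hm]
    exact lintegral_pp2_fst _ _ (measurable_one.indicator hm)
  rw [e, nb_eq]
  refine ppp_not_anti ?_ (measurableSet_blk' lam u r c) (measurableSet_blk' lam u r c)
    fun s₁ s₂ h k => blkT.mono k (inter_subset_left.trans h)
  rw [inten_eq, inten_eq, cut_of_lt _ hc, cut_of_lt _ ((measure_mono hW).trans_lt hc)]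
  intro A
  exact mul_le_mul_right (Measure.restrict_mono hW le_rfl A) _

/-- comparison with the fine field alone -/
theorem nb_le (h0 : M.E0) (hw : M.EW) {lam t K τ : ℝ} (hlam : 0 ≤ lam) (hτ : 0 ≤ τ) {u : ℂ}
    {r : ℝ} {g : Fn} (hg : ∀ z ∈ osq u r, |g z - t| ≤ K) : ∀ᵐ ω ∂M.P,
    nb lam τ u r (M.cf 0 g ω) ≤
      nb (lam * exp (2 * M.ξ * K)) (τ * exp (M.γ * (t - K))) u r (M.cf 0 0 ω) := by
  filter_upwards [h0 0 g, h0 0 0, hw 0 0 g] with ω k1 k0 kw
  have w0 := isWeylOn_zero k0.1.1 univ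
  have w1 := kw.1.isWeylOn k1.1.2
  have hξ := M.ξ_pos.le
  have hγ := M.γ_pos.le
  rw [nb_eq, nb_eq]
  refine ppp_not_anti ?_ (measurableSet_blk' _ u r _) (measurableSet_blk' _ u r _)
    fun s₁ s₂ h k => ?_
  · refine inten_le (s := exp (-(M.γ * (t - K)))) (by positivity) (le_of_eq ?_)
      (iff_of_true (lt_top_of_locFin k0.2.1 _) (lt_top_of_locFin k1.2.1 _)) ?_
    · rw [mul_assoc, ← exp_add, add_neg_cancel, exp_zero, mul_one]
    · have := withDensity_restrict_le (M.cf 0 0 ω).2 (measurableSet_o (u, r)) (f₁ := fun _ => 0)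
        (f₂ := fun z => M.γ * (g z - (0 : Fn) z)) (t := -(M.γ * (t - K))) fun z hz => by
          rw [ContinuousMap.zero_apply]
          nlinarith [mul_le_mul_of_nonneg_left (abs_le.1 (hg z hz)).1 hγ]
      rw [← kw.2] at this
      simpa using this
  · refine blkT.of_le (blkT.mono k (inter_subset_left.trans h)) hlam (exp_pos (M.ξ * (t - K)))
      (a := exp (M.ξ * (t + K))) ?_ (fun q => ?_) fun q => ?_
    · rw [mul_assoc, ← exp_add]
      congr 2
      ring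
    · exact T_le_of_weylOn k1.1 k0.1 w1 w0 (subset_univ _) (subset_univ _) (fun z hz => by
        rw [ContinuousMap.zero_apply]
        nlinarith [mul_le_mul_of_nonneg_left (abs_le.1 (hg z hz)).2 hξ]) q
    · have := T_le_of_weylOn k0.1 k1.1 w0 w1 (w := (u, r)) (subset_univ _) (subset_univ _)
        (t := -(M.ξ * (t - K))) (fun z hz => by
          rw [ContinuousMap.zero_apply]
          nlinarith [mul_le_mul_of_nonneg_left (abs_le.1 (hg z hz)).1 hξ]) q
      have e := mul_le_mul_of_nonneg_left this (exp_pos (M.ξ * (t - K))).le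
      rwa [← mul_assoc, ← exp_add, add_neg_cancel, exp_zero, one_mul] at e

theorem tendsto_nb (h0 : M.E0) {lam : ℝ} (hlam : 0 ≤ lam) (u : ℂ) {r : ℝ} (hr : 0 < r) :
    Tendsto (fun τ : ℝ => ∫⁻ ω, nb lam τ u r (M.cf 0 0 ω) ∂M.P) atTop (𝓝 0) := by
  have := tendsto_lintegral_filter_of_dominated_convergence (μ := M.P) (l := atTop)
    (F := fun (τ : ℝ) ω => nb lam τ u r (M.cf 0 0 ω)) (f := fun _ => 0) (fun _ => 1)
    (Eventually.of_forall fun τ => (measurable_nb lam τ u r).comp (M.measurable_cf 0 0))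
    (Eventually.of_forall fun τ => ae_of_all _ fun ω => prob_le_one) (by simp)
    ((h0 0 0).mono fun ω k => by
      have := k.2.2.1
      exact (tendsto_not_blkT k.1.1 hr hlam
        (fun w hw x hx => T_eq_of_mem k.1.1 k.1.2 (w := (u, r)) hr hw hx) subset_rfl
        (lt_top_of_locFin k.2.1 (u, r))).comp tendsto_real_toNNReal_atTop)
  simpa using this

/-- E3 for one square -/
theorem soft_one (h0 : M.E0) (hw : M.EW) (h6 : M.E6) {lam : ℝ} (hlam : 0 ≤ lam) (L K : ℝ)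
    {ε : ℝ≥0∞} (hε : 0 < ε) : ∃ T₀ : ℝ, ∀ (W : Sq) (n : ℕ) (u : ℂ) (g : Fn) (t : ℝ),
      osq u (sc n / 2) ⊆ W.o → (∀ z ∈ osq u (sc n / 2), |g z - n * M.Q * log 2 - t| ≤ K) →
      T₀ ≤ t → M.Phat L W n g {x | ¬ blk lam u (sc n / 2) x.1.1 (pts x.2.1)} ≤ ε := by
  have ht : Tendsto (fun t : ℝ => exp (-(M.γ * L)) * exp (M.γ * (t - K))) atTop atTop :=
    (tendsto_exp_atTop.comp ((tendsto_atTop_add_const_right _ (-K) tendsto_id).const_mul_atTop
      M.γ_pos)).const_mul_atTop (exp_pos _)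
  obtain ⟨T₀, hT⟩ := eventually_atTop.1 (ENNReal.tendsto_nhds_zero.1
    ((tendsto_nb h0 (lam := lam * exp (2 * M.ξ * K)) (by positivity) 0
      (r := 1 / 2) one_half_pos).comp ht) ε hε)
  refine ⟨T₀, fun W n u g t hW hg hT' => le_trans ?_ (hT t hT')⟩
  have hm : MeasurableSet {x : Xi | ¬ blk lam u (sc n / 2) x.1.1 (pts x.2.1)} :=
    ((measurable_fst.prodMk measurable_snd.fst) (measurableSet_blk lam u (sc n / 2))).compl
  rw [Phat_apply, Measure.compProd_apply hm]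
  refine (lintegral_mono_ae ((ae_fin h0 n g W).mono fun c hc =>
    pt2K_not_blk M.γ L lam hW hc)).trans ?_
  have e : ∀ c, nb lam (exp (-(M.γ * L))) u (sc n / 2) c =
      nb lam (exp (-(M.γ * L))) 0 (1 / 2) (pull (sc n : ℝ) u c) := fun c => by
    rw [nb_pull (sc_pos n) u _ _ _ one_half_pos.le, mul_zero, zero_add, mul_one_div]
  simp only [e]
  rw [lintegral_Pk_pull h6 n u g (measurable_nb _ _ _ _)]
  refine lintegral_mono_ae (nb_le h0 hw hlam (exp_pos _).le fun z hz => ?_)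
  rw [res_sc]
  refine hg _ ?_
  have := ((sim_real (sc_pos n)).mem_img (b := u) (0, 1 / 2) z).2 hz
  rwa [img, norm_sc, mul_zero, zero_add, mul_one_div] at this

/-- E3: soft blocking -/
theorem soft_hat (h0 : M.E0) (hw : M.EW) (h6 : M.E6) (L : ℝ) (ε : ℝ≥0∞) (K : ℝ≥0) (hε : 0 < ε) :
    ∃ T₀ : ℝ, ∀ (W : Sq) (n : ℕ) (v : ℤ × ℤ) (g : Fn), reg n v 5 ⊆ W.o →
      oo n (ctr n v) g ≤ K → T₀ ≤ cc M.Q n (ctr n v) g →
      M.Phat L W n g {x | ¬ (pat M.ξ L W x).B n v} ≤ ε := by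
  classical
  let J : Finset (ℤ × ℤ) :=
    (Finset.Icc (-8) 8 ×ˢ Finset.Icc (-8) 8).filter fun j => max |j.1| |j.2| = 8
  obtain ⟨T₀, hT⟩ := soft_one h0 hw h6 (exp_pos (2 * M.ξ * L)).le L (48 * K)
    (ε := ε / J.card) (ENNReal.div_pos hε.ne' (ENNReal.natCast_ne_top _))
  refine ⟨T₀, fun W n v g hW ho hc => ?_⟩
  have hsub : {x : Xi | ¬ (pat M.ξ L W x).B n v} ⊆ ⋃ j ∈ J, {x | ¬ blk (exp (2 * M.ξ * L))
      (ctr n v + (sc n / 2 : ℝ) * (j.1 + j.2 * Complex.I)) (sc n / 2) x.1.1 (pts x.2.1)} := by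
    intro x hx
    by_contra k
    simp only [mem_iUnion, mem_ofPred_eq, not_exists, not_not] at k
    refine hx ⟨hW, fun j hj => k j (Finset.mem_filter.2 ⟨Finset.mem_product.2
      ⟨Finset.mem_Icc.2 (abs_le.1 ?_), Finset.mem_Icc.2 (abs_le.1 ?_)⟩, hj⟩)⟩
    · exact hj ▸ le_max_left _ _
    · exact hj ▸ le_max_right _ _
  refine (measure_mono hsub).trans ((measure_biUnion_finset_le _ _).trans
    ((Finset.sum_le_card_nsmul _ _ (ε / J.card) fun j hj => ?_).trans ?_))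
  · have hj' := (osq_subset_ann n v (Finset.mem_filter.1 hj).2).trans (ann_subset_reg n v)
    refine hT W n _ g _ (hj'.trans hW) (fun z hz => ?_) hc
    have := abs_sub_le_of_oo (CR.reg_subset_ball n v (r := 5) (by norm_num) (hj' hz)) ho
    rwa [cc, sub_sub_sub_cancel_right]
  · rw [nsmul_eq_mul]
    exact ENNReal.mul_div_le

end EN

open EN

/-- The engine with points at distortion `L` in the window `W` as a cascade. -/
def Model.casc (M : Model) {p : ℝ} (h : M.Base p) (L : ℝ) (hL : 0 ≤ L) (W : Sq) : Casc Xi where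
  γ := M.γ
  σ := p * M.γ
  Q := M.Q
  θ0 := 48 * (p * M.γ)
  γ_pos := M.γ_pos
  γ_lt := by nlinarith [M.γ_pos, h.one_lt]
  σ_le := by nlinarith [M.γ_pos, h.le_two]
  zγ := by
    have := M.γ_pos.ne'
    unfold Model.Q
    field_simp
    ring
  zσ := by
    have := M.γ_pos.ne'
    have e : p * M.γ * M.Q = 2 * p + p * M.γ ^ 2 / 2 := by
      unfold Model.Q
      field_simp
    rw [e]
    nlinarith [mul_pos (sub_pos.2 h.one_lt) (sub_pos.2 h.lt)]
  θ0_nonneg := by nlinarith [M.γ_pos, h.one_lt]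
  meas_eval := measurable_fn
  meas_add := Continuous.measurable (by fun_prop)
  ν n := M.ν n
  P n := M.Phat L W n
  ν_prob n := Measure.isProbabilityMeasure_map (M.meas_eta n).aemeasurable
  P_markov _ := inferInstance
  tower n g F hF := by
    rw [Nat.cast_succ]
    exact tower_hat h.e1 L W n g hF
  gauss n y := by
    rw [Model.ν, Measure.map_map (measurable_fn y) (M.meas_eta n)]
    exact M.gauss n y
  lipexp := lipexp_nu M
  G := GGhat
  G_mono _ _ := GGhat_mono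
  G_le := GGhat_le
  indep n g A B hAB := indep_hat_Phat h.e0 h.e2 L W n g (by rwa [← sc_eq])
  pat := pat M.ξ L W
  pts_fin x := (PPP.pts_finite _).union (PPP.pts_finite _)
  hit_meas n v := measurableSet_hit_hat (CR.measurableSet_box n v)
    (((CR.box_subset_csq n v).trans (csq_subset_osq _ (by linarith [sc_pos n]))).trans
      (interior_maximal (subset_refl (reg n v 1)) (isOpen_osq _ _)))
  cnt_meas y r := measurable_cnt (isOpen_osq _ _).measurableSet
  blk_meas := measurableSet_pat_B M.ξ L W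
  one := one_hat h hL W
  two := two_hat h hL W
  W := W.o
  soft ε K hε := (soft_hat h.e0 h.ew h.e6 L ε K hε).imp fun _ k => k W

end Pool.Agent.Lib.MP_0d9445_pr
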