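import Pool.Agent.Lib.MP_0d9445_pr.PPP.Count
import Pool.Agent.Lib.MP_0d9445_pr.PPP.Transfer

/-!
Two independent Poisson processes over a random environment: monotone coupling, local
sigma-algebras and their independence.
-/

open MeasureTheory ProbabilityTheory Set
open scoped ENNReal NNReal

noncomputable section

namespace Pool.Agent.Lib.MP_0d9445_pr.EN

open PPP (pts ppp Meas filt pppK)

variable {α : Type*} [MeasurableSpace α]

/-- pairs of finite labelled configurations -/
abbrev Two (α : Type*) := PPP.Conf α × PPP.Conf α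

/-- the law of two independent Poisson processes -/
def pp2 (a b : Measure α) : Measure (Two α) := (ppp a).prod (ppp b)

instance (a b : Measure α) [IsFiniteMeasure a] [IsFiniteMeasure b] :
    IsProbabilityMeasure (pp2 a b) := by
  unfold pp2
  infer_instance

theorem lintegral_pp2 (a b : Measure α) [IsFiniteMeasure a] [IsFiniteMeasure b]
    {f : Two α → ℝ≥0∞} (hf : Measurable f) :
    ∫⁻ z, f z ∂pp2 a b = ∫⁻ x, ∫⁻ y, f (x, y) ∂ppp b ∂ppp a :=
  lintegral_prod _ hf.aemeasurable

/-- Monotone coupling: the first process loses points, the union gains points. -/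
theorem lintegral_pp2_mono {a₁ b₁ a₂ b₂ : Measure α} [IsFiniteMeasure a₁] [IsFiniteMeasure b₁]
    [IsFiniteMeasure a₂] [IsFiniteMeasure b₂] (ha : a₂ ≤ a₁) (hab : a₁ + b₁ ≤ a₂ + b₂)
    {F₁ F₂ : Set α → Set α → ℝ≥0∞} (h₁ : Measurable fun z : Two α => F₁ (pts z.1) (pts z.2))
    (h₂ : Measurable fun z : Two α => F₂ (pts z.1) (pts z.2))
    (hle : ∀ s₁ t₁ s₂ t₂ : Set α, s₂ ⊆ s₁ → s₁ ∪ t₁ ⊆ s₂ ∪ t₂ → F₁ s₁ t₁ ≤ F₂ s₂ t₂) :
    ∫⁻ z, F₁ (pts z.1) (pts z.2) ∂pp2 a₁ b₁ ≤ ∫⁻ z, F₂ (pts z.1) (pts z.2) ∂pp2 a₂ b₂ := by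
  obtain ⟨r₁, i₁, e₁⟩ : ∃ r : Measure α, IsFiniteMeasure r ∧ a₁ = a₂ + r :=
    ⟨a₁ - a₂, inferInstance, by rw [add_comm, Measure.sub_add_cancel_of_le ha]⟩
  obtain ⟨r₂, i₂, e₂⟩ : ∃ r : Measure α, IsFiniteMeasure r ∧ b₂ = (r₁ + b₁) + r := by
    refine ⟨(a₂ + b₂) - (a₁ + b₁), inferInstance, ?_⟩
    have e := Measure.sub_add_cancel_of_le hab
    ext s hs
    have e' := congrArg (fun m : Measure α => m s) e
    simp only [e₁, Measure.add_apply] at e' ⊢
    rw [← ENNReal.add_right_inj (measure_ne_top a₂ s), ← e']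
    ring
  rw [lintegral_pp2 _ _ h₁, lintegral_pp2 _ _ h₂, e₁, e₂]
  have m₁ : Meas fun s => ∫⁻ y, F₁ s (pts y) ∂ppp b₁ := h₁.lintegral_prod_right'
  rw [PPP.lintegral_ppp_add a₂ r₁ m₁]
  refine lintegral_mono fun x => ?_
  have m₂ : Meas fun s => F₂ (pts x) s := h₂.comp (measurable_const.prodMk measurable_id)
  have m₃ : Meas fun s => ∫⁻ w, F₂ (pts x) (s ∪ pts w) ∂ppp r₂ :=
    m₂.union_joint.lintegral_prod_right'
  rw [PPP.lintegral_ppp_add (r₁ + b₁) r₂ m₂, PPP.lintegral_ppp_add r₁ b₁ m₃]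
  refine lintegral_mono fun z => lintegral_mono fun y => ?_
  calc F₁ (pts x ∪ pts z) (pts y) = ∫⁻ _, F₁ (pts x ∪ pts z) (pts y) ∂ppp r₂ := by simp
    _ ≤ _ := lintegral_mono fun w => hle _ _ _ _ subset_union_left (by
      rw [union_assoc]
      exact union_subset_union_right _ subset_union_left)

/-- monotone coupling of one process -/
theorem lintegral_ppp_anti {a₁ a₂ : Measure α} [IsFiniteMeasure a₁] [IsFiniteMeasure a₂]
    (ha : a₂ ≤ a₁) {F₁ F₂ : Set α → ℝ≥0∞} (h₁ : Meas F₁)
    (hle : ∀ s₁ s₂ : Set α, s₂ ⊆ s₁ → F₁ s₁ ≤ F₂ s₂) :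
    ∫⁻ x, F₁ (pts x) ∂ppp a₁ ≤ ∫⁻ x, F₂ (pts x) ∂ppp a₂ := by
  obtain ⟨r, i, e⟩ : ∃ r : Measure α, IsFiniteMeasure r ∧ a₁ = a₂ + r :=
    ⟨a₁ - a₂, inferInstance, by rw [add_comm, Measure.sub_add_cancel_of_le ha]⟩
  rw [e, PPP.lintegral_ppp_add a₂ r h₁]
  refine lintegral_mono fun x => ?_
  calc ∫⁻ y, F₁ (pts x ∪ pts y) ∂ppp r ≤ ∫⁻ _, F₂ (pts x) ∂ppp r :=
      lintegral_mono fun y => hle _ _ subset_union_left
    _ = _ := by simp

theorem ppp_not_anti {a₁ a₂ : Measure α} [IsFiniteMeasure a₁] [IsFiniteMeasure a₂]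
    (ha : a₂ ≤ a₁) {Q₁ Q₂ : Set α → Prop} (h₁ : MeasurableSet {x | Q₁ (pts x)})
    (h₂ : MeasurableSet {x | Q₂ (pts x)}) (hle : ∀ s₁ s₂ : Set α, s₂ ⊆ s₁ → Q₂ s₂ → Q₁ s₁) :
    ppp a₁ {x | ¬ Q₁ (pts x)} ≤ ppp a₂ {x | ¬ Q₂ (pts x)} := by
  rw [← lintegral_indicator_one (s := {x | ¬ Q₁ (pts x)}) h₁.compl,
    ← lintegral_indicator_one (s := {x | ¬ Q₂ (pts x)}) h₂.compl]
  refine lintegral_ppp_anti ha (F₁ := {s | ¬ Q₁ s}.indicator 1) (F₂ := {s | ¬ Q₂ s}.indicator 1)
    (measurable_one.indicator h₁.compl) fun s₁ s₂ h => ?_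
  by_cases k : Q₁ s₁
  · rw [indicator_of_notMem (by simpa using k)]
    exact zero_le
  · rw [indicator_of_mem (by exact k), indicator_of_mem (by exact fun k' => k (hle _ _ h k'))]
    rfl

/-- the union of the two processes is a Poisson process -/
theorem lintegral_pp2_union (a b : Measure α) [IsFiniteMeasure a] [IsFiniteMeasure b]
    {F : Set α → ℝ≥0∞} (hF : Meas F) :
    ∫⁻ z, F (pts z.1 ∪ pts z.2) ∂pp2 a b = ∫⁻ x, F (pts x) ∂ppp (a + b) := by
  rw [lintegral_pp2 _ _ hF.union_joint, PPP.lintegral_ppp_add a b hF]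

theorem lintegral_pp2_fst (a b : Measure α) [IsFiniteMeasure a] [IsFiniteMeasure b]
    {f : PPP.Conf α → ℝ≥0∞} (hf : Measurable f) :
    ∫⁻ z, f z.1 ∂pp2 a b = ∫⁻ x, f x ∂ppp a := by
  rw [lintegral_pp2 _ _ (f := fun z => f z.1) (hf.comp measurable_fst)]
  simp

/-! ### functions of the points in a set -/

/-- a function of labelled configurations read as a function of sets -/
def lift (f : PPP.Conf α → ℝ≥0∞) (s : Set α) : ℝ≥0∞ := ⨆ (x : PPP.Conf α) (_ : pts x = s), f x

omit [MeasurableSpace α] in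
theorem lift_pts {A : Set α} {f : PPP.Conf α → ℝ≥0∞}
    (hd : ∀ x y, pts x ∩ A = pts y ∩ A → f x = f y) (x : PPP.Conf α) : lift f (pts x) = f x :=
  le_antisymm (iSup₂_le fun y hy => (hd y x (by rw [hy])).le) (le_iSup₂_of_le x rfl le_rfl)

omit [MeasurableSpace α] in
theorem lift_inter {A : Set α} {f : PPP.Conf α → ℝ≥0∞}
    (hd : ∀ x y, pts x ∩ A = pts y ∩ A → f x = f y) (x : PPP.Conf α) :
    lift f (pts x ∩ A) = f x := by
  rw [← PPP.pts_filt, lift_pts hd]
  exact hd _ _ (by rw [PPP.pts_filt, inter_assoc, inter_self])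

theorem meas_lift {A : Set α} {f : PPP.Conf α → ℝ≥0∞} (hf : Measurable f)
    (hd : ∀ x y, pts x ∩ A = pts y ∩ A → f x = f y) : Meas (lift f) := by
  unfold Meas
  simpa only [lift_pts hd] using hf

theorem lintegral_dep_restrict (m : Measure α) [IsFiniteMeasure m] {A : Set α}
    (hA : MeasurableSet A) {f : PPP.Conf α → ℝ≥0∞} (hf : Measurable f)
    (hd : ∀ x y, pts x ∩ A = pts y ∩ A → f x = f y) :
    ∫⁻ x, f x ∂ppp m = ∫⁻ x, f x ∂ppp (m.restrict A) := by
  have := PPP.lintegral_ppp_restrict m hA (meas_lift hf hd)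
  simpa only [lift_pts hd, lift_inter hd] using this

theorem lintegral_dep_mul (m : Measure α) [IsFiniteMeasure m] {A B : Set α}
    (hA : MeasurableSet A) (hB : MeasurableSet B) (hAB : Disjoint A B)
    {f g : PPP.Conf α → ℝ≥0∞} (hf : Measurable f) (hg : Measurable g)
    (hd : ∀ x y, pts x ∩ A = pts y ∩ A → f x = f y)
    (he : ∀ x y, pts x ∩ B = pts y ∩ B → g x = g y) :
    ∫⁻ x, f x * g x ∂ppp m = (∫⁻ x, f x ∂ppp m) * ∫⁻ x, g x ∂ppp m := by
  have := PPP.lintegral_ppp_mul m hA hB hAB (meas_lift hf hd) (meas_lift hg he)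
  simpa only [lift_inter hd, lift_inter he] using this

/-- `f` depends on the two configurations only through their points in `A` -/
def Dep {β : Sort*} (A : Set α) (f : Two α → β) : Prop :=
  ∀ z w : Two α, pts z.1 ∩ A = pts w.1 ∩ A → pts z.2 ∩ A = pts w.2 ∩ A → f z = f w

omit [MeasurableSpace α] in
theorem Dep.mono {β : Sort*} {A B : Set α} {f : Two α → β} (h : Dep A f) (hAB : A ⊆ B) :
    Dep B f := fun z w h1 h2 => h z w
  (by rw [← inter_eq_right.2 hAB, ← inter_assoc, h1, inter_assoc])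
  (by rw [← inter_eq_right.2 hAB, ← inter_assoc, h2, inter_assoc])

theorem lintegral_pp2_restrict (a b : Measure α) [IsFiniteMeasure a] [IsFiniteMeasure b]
    {A : Set α} (hA : MeasurableSet A) {f : Two α → ℝ≥0∞} (hf : Measurable f) (hd : Dep A f) :
    ∫⁻ z, f z ∂pp2 a b = ∫⁻ z, f z ∂pp2 (a.restrict A) (b.restrict A) := by
  rw [lintegral_pp2 _ _ hf, lintegral_pp2 _ _ hf,
    lintegral_dep_restrict a hA hf.lintegral_prod_right'
      fun x y h => lintegral_congr fun w => hd _ _ h rfl]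
  exact lintegral_congr fun x => lintegral_dep_restrict b hA
    (hf.comp (measurable_const.prodMk measurable_id)) fun y w h => hd _ _ rfl h

theorem lintegral_pp2_mul (a b : Measure α) [IsFiniteMeasure a] [IsFiniteMeasure b]
    {A B : Set α} (hA : MeasurableSet A) (hB : MeasurableSet B) (hAB : Disjoint A B)
    {f g : Two α → ℝ≥0∞} (hf : Measurable f) (hg : Measurable g) (hd : Dep A f) (he : Dep B g) :
    ∫⁻ z, f z * g z ∂pp2 a b = (∫⁻ z, f z ∂pp2 a b) * ∫⁻ z, g z ∂pp2 a b := by
  rw [lintegral_pp2 _ _ hf, lintegral_pp2 _ _ hg, lintegral_pp2 _ _ (f := fun z => f z * g z) (hf.mul hg),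
    ← lintegral_dep_mul a hA hB hAB hf.lintegral_prod_right' hg.lintegral_prod_right'
      (fun x y h => lintegral_congr fun w => hd _ _ h rfl)
      (fun x y h => lintegral_congr fun w => he _ _ h rfl)]
  exact lintegral_congr fun x => lintegral_dep_mul b hA hB hAB
    (hf.comp (measurable_const.prodMk measurable_id))
    (hg.comp (measurable_const.prodMk measurable_id))
    (fun y w h => hd _ _ rfl h) fun y w h => he _ _ rfl h

/-! ### intensities read off a measure -/

open Classical in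
/-- `t • m` restricted to `W` (zero when `m W` is infinite) -/
def cut (W : Set α) (t : ℝ≥0) (m : Measure α) : Measure α :=
  if m W < ∞ then t • m.restrict W else 0

theorem cut_of_lt {W : Set α} (t : ℝ≥0) {m : Measure α} (h : m W < ∞) :
    cut W t m = t • m.restrict W := if_pos h

theorem cut_le (W : Set α) (t : ℝ≥0) (m : Measure α) (A : Set α) :
    cut W t m A ≤ t * m A := by
  unfold cut
  split_ifs
  · rw [Measure.smul_apply, ENNReal.smul_def, smul_eq_mul]
    exact mul_le_mul_right (Measure.restrict_le_self A) _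
  · simp

instance (W : Set α) (t : ℝ≥0) (m : Measure α) : IsFiniteMeasure (cut W t m) := by
  unfold cut
  split_ifs with h
  · have : IsFiniteMeasure (m.restrict W) := ⟨by rwa [Measure.restrict_apply_univ]⟩
    infer_instance
  · infer_instance

theorem measurable_restrict {W : Set α} (hW : MeasurableSet W) :
    Measurable fun m : Measure α => m.restrict W := by
  refine Measure.measurable_of_measurable_coe _ fun s hs => ?_
  simp only [Measure.restrict_apply hs]
  exact Measure.measurable_coe (hs.inter hW)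

theorem measurable_cut {W : Set α} (hW : MeasurableSet W) (t : ℝ≥0) : Measurable (cut W t) := by
  refine Measurable.ite (measurableSet_lt (Measure.measurable_coe hW) measurable_const) ?_
    measurable_const
  refine Measure.measurable_of_measurable_coe _ fun s hs => ?_
  simp only [Measure.smul_apply, Measure.restrict_apply hs]
  exact (Measure.measurable_coe (hs.inter hW)).const_smul _

theorem cut_add (W : Set α) (t t' : ℝ≥0) (m : Measure α) :
    cut W t m + cut W t' m = cut W (t + t') m := by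
  unfold cut
  split_ifs
  · rw [add_smul]
  · simp

theorem cut_zero (W : Set α) (m : Measure α) : cut W 0 m = 0 := by
  unfold cut
  split_ifs
  · rw [zero_smul]
  · rfl

theorem cut_restrict {W A : Set α} (hW : MeasurableSet W) (hA : MeasurableSet A) (t : ℝ≥0)
    {m : Measure α} (h : m W < ∞) : (cut W t m).restrict A = cut W t (m.restrict A) := by
  rw [cut_of_lt t h, cut_of_lt t ((Measure.restrict_le_self W).trans_lt h), Measure.restrict_smul,
    Measure.restrict_restrict hA, Measure.restrict_restrict hW, inter_comm]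

/-- two independent Poisson processes with intensities `t • m` and `t' • m` on `W` -/
def pk (W : Set α) (hW : MeasurableSet W) (t t' : ℝ≥0) : Kernel (Measure α) (Two α) :=
  pppK (cut W t) (measurable_cut hW t) (fun _ => inferInstance) ×ₖ
    pppK (cut W t') (measurable_cut hW t') (fun _ => inferInstance)

instance (W : Set α) (hW : MeasurableSet W) (t t' : ℝ≥0) : IsMarkovKernel (pk W hW t t') := by
  unfold pk
  infer_instance

theorem pk_apply (W : Set α) (hW : MeasurableSet W) (t t' : ℝ≥0) (m : Measure α) :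
    pk W hW t t' m = pp2 (cut W t m) (cut W t' m) := by
  rw [pk, Kernel.prod_apply]
  rfl

/-! ### local sigma-algebras -/

variable {Γ : Type*}

/-- the events that are measurable for `G` and the points, and see only the points in `A` -/
@[reducible] def hat (G : MeasurableSpace Γ) (A : Set α) : MeasurableSpace (Γ × Two α) where
  MeasurableSet' E := MeasurableSet[G.prod inferInstance] E ∧ ∀ c, Dep A fun z => (c, z) ∈ E
  measurableSet_empty := ⟨@MeasurableSet.empty _ (G.prod inferInstance), fun _ _ _ _ _ => rfl⟩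
  measurableSet_compl E h := ⟨h.1.compl, fun c z w h1 h2 => congrArg Not (h.2 c z w h1 h2)⟩
  measurableSet_iUnion E h := ⟨MeasurableSet.iUnion fun i => (h i).1, fun c z w h1 h2 => by
    simp only [mem_iUnion]
    exact congrArg Exists (funext fun i => (h i).2 c z w h1 h2)⟩

theorem hat_mono {G G' : MeasurableSpace Γ} (hG : G ≤ G') {A B : Set α} (hAB : A ⊆ B) :
    hat G A ≤ hat G' B := fun _ h =>
  ⟨(sup_le_sup_right (MeasurableSpace.comap_mono hG) _ :
      G.prod inferInstance ≤ G'.prod inferInstance) _ h.1, fun c => (h.2 c).mono hAB⟩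

theorem hat_le {G : MeasurableSpace Γ} [mΓ : MeasurableSpace Γ] (hG : G ≤ mΓ) (A : Set α) :
    hat G A ≤ (Prod.instMeasurableSpace : MeasurableSpace (Γ × Two α)) := fun _ h =>
  (sup_le_sup_right (MeasurableSpace.comap_mono hG) _ :
      G.prod inferInstance ≤ mΓ.prod inferInstance) _ h.1

/-- a criterion for measurability of a function for the local sigma-algebra -/
theorem measurable_hat {β : Type*} [MeasurableSpace β] {G : MeasurableSpace Γ} {A : Set α}
    {f : Γ × Two α → β} (hf : Measurable[G.prod inferInstance] f)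
    (hd : ∀ c, Dep A fun z => f (c, z)) : Measurable[hat G A] f := fun s hs =>
  ⟨hf hs, fun c z w h1 h2 => congrArg (· ∈ s) (hd c z w h1 h2)⟩

theorem measurable_of_hat {β : Type*} [MeasurableSpace β] {G : MeasurableSpace Γ} {A : Set α}
    {f : Γ × Two α → β} (hf : Measurable[hat G A] f) : Measurable[G.prod inferInstance] f :=
  fun _ hs => (hf hs).1

theorem dep_of_hat {G : MeasurableSpace Γ} {A : Set α} {f : Γ × Two α → ℝ≥0∞}
    (hf : Measurable[hat G A] f) (c : Γ) : Dep A fun z => f (c, z) := fun z w h1 h2 => by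
  have := (hf (measurableSet_singleton (f (c, w)))).2 c z w h1 h2
  exact this.mpr rfl

/-- The Poisson average of a local function is a local function of the environment. -/
theorem exists_local {G : MeasurableSpace Γ} {A W : Set α} (hA : MeasurableSet A)
    (hW : MeasurableSet W) (t t' : ℝ≥0) {mu : Γ → Measure α}
    (hmu : Measurable[G] fun c => (mu c).restrict A) {f : Γ × Two α → ℝ≥0∞}
    (hf : Measurable[hat G A] f) : ∃ φ : Γ → ℝ≥0∞, Measurable[G] φ ∧
      ∀ c, mu c W < ∞ → ∫⁻ z, f (c, z) ∂pk W hW t t' (mu c) = φ c := by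
  refine ⟨fun c => ∫⁻ z, f (c, z) ∂pk W hW t t' ((mu c).restrict A), ?_, fun c hc => ?_⟩
  · exact Measurable.lintegral_kernel_prod_right' (κ := (pk W hW t t').comap _ hmu)
      (measurable_of_hat hf)
  · beta_reduce
    rw [pk_apply, pk_apply, ← cut_restrict hW hA t hc, ← cut_restrict hW hA t' hc]
    exact lintegral_pp2_restrict _ _ hA
      ((measurable_of_hat hf).comp (measurable_const.prodMk measurable_id)) (dep_of_hat hf c)

/-- Independence of the environments in two disjoint sets passes to the points. -/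
theorem indep_hat {G₁ G₂ : MeasurableSpace Γ} [mΓ : MeasurableSpace Γ] (Pr : Measure Γ)
    [IsProbabilityMeasure Pr] (h₁ : G₁ ≤ mΓ) (h₂ : G₂ ≤ mΓ) (hind : Indep G₁ G₂ Pr)
    {A B W : Set α} (hA : MeasurableSet A) (hB : MeasurableSet B) (hAB : Disjoint A B)
    (hW : MeasurableSet W) (t t' : ℝ≥0) {mu : Γ → Measure α} (hm : Measurable mu)
    (hmA : Measurable[G₁] fun c => (mu c).restrict A)
    (hmB : Measurable[G₂] fun c => (mu c).restrict B) (hfin : ∀ᵐ c ∂Pr, mu c W < ∞) :
    Indep (hat G₁ A) (hat G₂ B) (Pr ⊗ₘ (pk W hW t t').comap mu hm) := by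
  rw [Indep_iff]
  intro E F hE hF
  have hE' : MeasurableSet E := hat_le h₁ A _ hE
  have hF' : MeasurableSet F := hat_le h₂ B _ hF
  have mE : Measurable[hat G₁ A] (E.indicator (1 : Γ × Two α → ℝ≥0∞)) :=
    (@measurable_const _ _ _ (hat G₁ A) (1 : ℝ≥0∞)).indicator hE
  have mF : Measurable[hat G₂ B] (F.indicator (1 : Γ × Two α → ℝ≥0∞)) :=
    (@measurable_const _ _ _ (hat G₂ B) (1 : ℝ≥0∞)).indicator hF
  obtain ⟨φ, hφ, eφ⟩ := exists_local hA hW t t' hmA mE
  obtain ⟨ψ, hψ, eψ⟩ := exists_local hB hW t t' hmB mF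
  have iE : Measurable (E.indicator (1 : Γ × Two α → ℝ≥0∞)) := measurable_one.indicator hE'
  have iF : Measurable (F.indicator (1 : Γ × Two α → ℝ≥0∞)) := measurable_one.indicator hF'
  rw [← lintegral_indicator_one hE', ← lintegral_indicator_one hF',
    ← lintegral_indicator_one (hE'.inter hF'), inter_indicator_one]
  rw [Measure.lintegral_compProd iE, Measure.lintegral_compProd iF,
    Measure.lintegral_compProd (iE.mul iF)]
  simp only [Kernel.comap_apply]
  rw [lintegral_congr_ae (hfin.mono fun c hc => eφ c hc),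
    lintegral_congr_ae (hfin.mono fun c hc => eψ c hc),
    ← lintegral_mul_eq_lintegral_mul_lintegral_of_independent_measurableSpace h₁ h₂ hind hφ hψ]
  refine lintegral_congr_ae (hfin.mono fun c hc => ?_)
  simp only [Pi.mul_apply]
  rw [← eφ c hc, ← eψ c hc, pk_apply]
  exact lintegral_pp2_mul _ _ hA hB hAB (iE.comp (measurable_const.prodMk measurable_id))
    (iF.comp (measurable_const.prodMk measurable_id)) (dep_of_hat mE c) (dep_of_hat mF c)

end Pool.Agent.Lib.MP_0d9445_pr.EN
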