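import Pool.Agent.Lib.MP_0d9445_pr.Engine
import Pool.Agent.Lib.MP_0d9445_pr.Met.Weyl
import Pool.Agent.Lib.MP_0d9445_pr.EN.Pois

/-!
The blocking event of one square, read off the local metric of the square.
-/

open MeasureTheory ProbabilityTheory Set Filter Topology LQ.Met
open scoped ENNReal NNReal

noncomputable section

namespace Pool.Agent.Lib.MP_0d9445_pr.EN

open PPP (pts ppp Meas)
open CR (osq csq)

theorem norm_le_of_csq {y z : ℂ} {r : ℝ} (h : z ∈ csq y r) : ‖z - y‖ ≤ 2 * r := by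
  have := Complex.norm_le_abs_re_add_abs_im (z - y)
  rw [Complex.sub_re, Complex.sub_im] at this
  linarith [h.1, h.2]

theorem csq_subset_osq (y : ℂ) {r r' : ℝ} (h : r < r') : csq y r ⊆ osq y r' :=
  fun _ hz => ⟨hz.1.trans_lt h, hz.2.trans_lt h⟩

theorem csq_mono (y : ℂ) {r r' : ℝ} (h : r ≤ r') : csq y r ⊆ csq y r' :=
  fun _ hz => ⟨hz.1.trans h, hz.2.trans h⟩

theorem closure_osq_subset (y : ℂ) (r : ℝ) : closure (osq y r) ⊆ csq y r :=
  closure_minimal (osq_subset_csq y r) (isClosed_csq y r)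

theorem edge_mem_csq (u : ℂ) {r : ℝ} (hr : 0 ≤ r) : u + (r : ℂ) ∈ csq u r := by
  constructor <;> simp [abs_of_nonneg hr, hr]

theorem edge_notMem_osq (u : ℂ) (r : ℝ) : u + (r : ℂ) ∉ osq u r := fun h => by
  have := h.1
  simp only [Complex.add_re, Complex.ofReal_re, add_sub_cancel_left] at this
  exact (le_abs_self r).not_gt this

theorem compl_osq_nonempty (u : ℂ) (r : ℝ) : (osq u r)ᶜ.Nonempty := ⟨_, edge_notMem_osq u r⟩

theorem osq_mono (y : ℂ) {r r' : ℝ} (h : r ≤ r') : osq y r ⊆ osq y r' :=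
  fun _ hz => ⟨hz.1.trans_le h, hz.2.trans_le h⟩

theorem csq_subset_closure (u : ℂ) {r : ℝ} (hr : 0 < r) : csq u r ⊆ closure (osq u r) := by
  intro x hx
  have ht : Tendsto (fun t : ℝ => u + t * (x - u)) (𝓝[<] 1) (𝓝 x) := by
    have : Continuous fun t : ℝ => u + t * (x - u) := by fun_prop
    simpa using (this.tendsto 1).mono_left nhdsWithin_le_nhds
  refine mem_closure_of_tendsto ht ?_
  filter_upwards [Ioo_mem_nhdsLT (zero_lt_one' ℝ)] with t ht
  have key : ∀ a : ℝ, |a| ≤ r → |t * a| < r := fun a ha => by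
    rw [abs_mul, abs_of_pos ht.1]
    nlinarith [ht.1, ht.2, abs_nonneg a]
  constructor
  · simpa using key _ hx.1
  · simpa using key _ hx.2

/-- Blocking: `τ` is the local metric of the square `osq u r`, so that `τ (w, u + r)` is the
distance from `w` to its boundary. -/
def blkT (κ : ℝ) (u : ℂ) (r : ℝ) (τ : ℂ × ℂ → ℝ) (P : Set ℂ) : Prop :=
  ∀ w ∈ csq u (r / 2), ∃ x ∈ P ∩ osq u r, κ * τ (w, x) ≤ τ (w, u + r) / 2

theorem blk_iff (κ : ℝ) (u : ℂ) (r : ℝ) (d : Met) (P : Set ℂ) :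
    blk κ u r d P ↔ blkT κ u r (T (u, r) d) P := Iff.rfl

variable {κ r : ℝ} {u : ℂ} {τ : ℂ × ℂ → ℝ} {P P' : Set ℂ}

theorem blkT.mono (h : blkT κ u r τ P) (hP : P ∩ osq u r ⊆ P') : blkT κ u r τ P' :=
  fun w hw => let ⟨x, hx, h2⟩ := h w hw; ⟨x, ⟨hP hx, hx.2⟩, h2⟩

theorem blkT_congr {A : Set ℂ} (hA : osq u r ⊆ A) (h : P ∩ A = P' ∩ A) :
    blkT κ u r τ P ↔ blkT κ u r τ P' :=
  ⟨fun k => k.mono fun _ hx => (h.subset ⟨hx.1, hA hx.2⟩).1,
    fun k => k.mono fun _ hx => (h.symm.subset ⟨hx.1, hA hx.2⟩).1⟩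

/-- comparison of two local metrics -/
theorem blkT.of_le {κ' a b : ℝ} {τ' : ℂ × ℂ → ℝ} (h : blkT κ' u r τ' P) (hκ : 0 ≤ κ) (hb : 0 < b)
    (hab : κ * a = κ' * b) (h1 : ∀ p, τ p ≤ a * τ' p) (h2 : ∀ p, b * τ' p ≤ τ p) :
    blkT κ u r τ P := by
  intro w hw
  obtain ⟨x, hx, k⟩ := h w hw
  refine ⟨x, hx, ?_⟩
  have e1 := mul_le_mul_of_nonneg_left (h1 (w, x)) hκ
  have e2 := mul_le_mul_of_nonneg_left k hb.le
  have e3 := h2 (w, u + r)
  rw [← mul_assoc, hab] at e1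
  linarith

theorem measurable_eval_left (w : ℂ) : Measurable fun p : Met × ℂ => p.1 (w, p.2) :=
  Continuous.measurable (by fun_prop)

theorem measurable_met (q : ℂ × ℂ) : Measurable fun D : Met => D q :=
  Continuous.measurable (by fun_prop)

theorem measurableSet_blkT (κ : ℝ) (u : ℂ) (r : ℝ) :
    MeasurableSet {p : Met × Tup | blkT κ u r p.1 (pts p.2)} := by
  obtain ⟨Q, hQ, hc, hd⟩ :=
    (TopologicalSpace.IsSeparable.of_separableSpace (csq u (r / 2))).exists_countable_dense_subset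
  have e : {p : Met × Tup | blkT κ u r p.1 (pts p.2)} = ⋂ w ∈ Q,
      {p : Met × Tup | ∃ i, p.2.2 i ∈ osq u r ∧ κ * p.1 (w, p.2.2 i) ≤ p.1 (w, u + r) / 2} := by
    ext p
    simp only [mem_ofPred_eq, mem_iInter]
    constructor
    · intro h w hw
      obtain ⟨_, ⟨⟨i, rfl⟩, k⟩, k'⟩ := h w (hQ hw)
      exact ⟨i, k, k'⟩
    · intro h w hw
      have hcl : IsClosed (⋃ i, {w : ℂ | p.2.2 i ∈ osq u r ∧
          κ * p.1 (w, p.2.2 i) ≤ p.1 (w, u + r) / 2}) :=
        isClosed_iUnion_of_finite fun i =>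
          isClosed_const.inter (isClosed_le (f := fun w : ℂ => κ * p.1 (w, p.2.2 i))
            (g := fun w : ℂ => p.1 (w, u + r) / 2) (by fun_prop) (by fun_prop))
      obtain ⟨i, k⟩ := mem_iUnion.1
        (closure_minimal (fun w hw => mem_iUnion.2 (h w hw)) hcl (hd hw))
      exact ⟨_, ⟨⟨i, rfl⟩, k.1⟩, k.2⟩
  rw [e]
  refine MeasurableSet.biInter hc fun w _ => measurableSet_setOfPred.2 ?_
  refine PPP.measurable_prod_conf fun n => ?_
  show Measurable fun p : Met × (Fin n → ℂ) => ∃ i : Fin n, p.2 i ∈ osq u r ∧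
    κ * p.1 (w, p.2 i) ≤ p.1 (w, u + r) / 2
  refine Measurable.exists fun i => ?_
  have hi : Measurable fun p : Met × (Fin n → ℂ) => p.2 i :=
    (measurable_pi_apply i).comp measurable_snd
  refine Measurable.and (measurableSet_setOfPred.1 (hi (isOpen_osq _ _).measurableSet))
    (measurableSet_setOfPred.1
      (measurableSet_le (Measurable.const_mul ?_ _) (Measurable.div_const ?_ _)))
  · exact (measurable_eval_left w).comp (measurable_fst.prodMk hi)
  · exact (measurable_met _).comp measurable_fst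

/-- finitely many open sets inside the square, a point in each of which forces blocking -/
theorem exists_cover {D : ℂ → ℂ → ℝ} (hD : IsMet D) (hr : 0 < r) (hκ : 0 ≤ κ)
    (hτ : ∀ w ∈ csq u r, ∀ x ∈ csq u r, τ (w, x) = TU D (osq u r) w x) :
    ∃ (I : Finset ℂ) (N : ℂ → Set ℂ), (∀ i ∈ I, IsOpen (N i) ∧ (N i).Nonempty ∧
      N i ⊆ osq u r) ∧ ∀ P : Set ℂ, (∀ i ∈ I, (P ∩ N i).Nonempty) → blkT κ u r τ P := by
  have key : ∀ w₀ : ℂ, ∃ N : Set ℂ, w₀ ∈ csq u (r / 2) → IsOpen N ∧ w₀ ∈ N ∧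
      N ⊆ osq u r ∧ ∀ w ∈ N, ∀ x ∈ N, κ * D w x < dOut D (osq u r) w / 2 := by
    intro w₀
    by_cases hw : w₀ ∈ csq u (r / 2)
    swap
    · exact ⟨∅, fun h => absurd h hw⟩
    have ho : IsOpen {p : ℂ × ℂ | κ * D p.1 p.2 < dOut D (osq u r) p.1 / 2} :=
      isOpen_lt (continuous_const.mul hD.cont)
        (((continuous_dOut hD _).comp continuous_fst).div_const _)
    have hm : (w₀, w₀) ∈ {p : ℂ × ℂ | κ * D p.1 p.2 < dOut D (osq u r) p.1 / 2} := by
      show κ * D w₀ w₀ < _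
      rw [hD.self, mul_zero]
      exact half_pos (dOut_pos hD (isOpen_osq _ _) (compl_osq_nonempty _ _)
        (csq_subset_osq u (by linarith) hw))
    obtain ⟨A, B, hA, hB, h1, h2, h3⟩ := isOpen_prod_iff.1 ho w₀ w₀ hm
    exact ⟨A ∩ B ∩ osq u r, fun _ => ⟨(hA.inter hB).inter (isOpen_osq _ _),
      ⟨⟨h1, h2⟩, csq_subset_osq u (by linarith) hw⟩, inter_subset_right,
      fun w hw x hx => h3 (mk_mem_prod hw.1.1 hx.1.2)⟩⟩
  choose N hN using key
  obtain ⟨I, hI, hc⟩ := (isCompact_csq u (r / 2)).elim_nhds_subcover N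
    fun w hw => (hN w hw).1.mem_nhds (hN w hw).2.1
  refine ⟨I, N, fun i hi => ⟨(hN i (hI i hi)).1, ⟨i, (hN i (hI i hi)).2.1⟩,
    (hN i (hI i hi)).2.2.1⟩, fun P hP w hw => ?_⟩
  obtain ⟨i, hi, hwi⟩ := mem_iUnion₂.1 (hc hw)
  obtain ⟨x, hx, hxi⟩ := hP i hi
  have hx' := (hN i (hI i hi)).2.2.1 hxi
  have hw' := csq_mono u (by linarith : r / 2 ≤ r) hw
  refine ⟨x, ⟨hx, hx'⟩, ?_⟩
  rw [hτ w hw' x (osq_subset_csq _ _ hx'), hτ w hw' _ (edge_mem_csq u hr.le),
    TU_of_notMem_right hD w (edge_notMem_osq u _)]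
  exact (mul_le_mul_of_nonneg_left (TU_le D _ w x) hκ).trans
    ((hN i (hI i hi)).2.2.2 w hwi x hxi).le

/-- Soft blocking for a fixed metric and measure: the failure probability tends to zero with the
intensity. -/
theorem tendsto_not_blkT {D : ℂ → ℂ → ℝ} (hD : IsMet D) (hr : 0 < r) (hκ : 0 ≤ κ)
    (hτ : ∀ w ∈ csq u r, ∀ x ∈ csq u r, τ (w, x) = TU D (osq u r) w x)
    {m : Measure ℂ} [m.IsOpenPosMeasure] {W : Set ℂ} (hW : osq u r ⊆ W) (hm : m W < ∞) :
    Tendsto (fun t : ℝ≥0 => ppp (cut W t m) {x | ¬ blkT κ u r τ (pts x)}) atTop (𝓝 0) := by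
  obtain ⟨I, N, hN, hP⟩ := exists_cover hD hr hκ hτ
  have hle : ∀ t : ℝ≥0, ppp (cut W t m) {x | ¬ blkT κ u r τ (pts x)} ≤
      ∑ i ∈ I, ENNReal.ofReal (Real.exp (-(t * (m (N i)).toReal))) := by
    intro t
    have hsub : {x : Tup | ¬ blkT κ u r τ (pts x)} ⊆ ⋃ i ∈ I, {x | pts x ∩ N i = ∅} := by
      intro x hx
      by_contra h
      simp only [mem_iUnion, mem_ofPred_eq, not_exists] at h
      exact hx (hP _ fun i hi => nonempty_iff_ne_empty.2 (h i hi))
    refine (measure_mono hsub).trans ((measure_biUnion_finset_le _ _).trans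
      (Finset.sum_le_sum fun i hi => le_of_eq ?_))
    rw [PPP.ppp_void _ (hN i hi).1.measurableSet, cut_of_lt t hm, Measure.smul_apply,
      Measure.restrict_apply (hN i hi).1.measurableSet, inter_eq_left.2 ((hN i hi).2.2.trans hW),
      ENNReal.smul_def, smul_eq_mul, ENNReal.toReal_mul, ENNReal.coe_toReal]
  refine tendsto_of_tendsto_of_tendsto_of_le_of_le tendsto_const_nhds ?_ (fun _ => zero_le) hle
  rw [← Finset.sum_const_zero (s := I)]
  refine tendsto_finsetSum _ fun i hi => ?_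
  rw [← ENNReal.ofReal_zero]
  refine ENNReal.tendsto_ofReal (Real.tendsto_exp_atBot.comp (tendsto_neg_atTop_atBot.comp ?_))
  refine (NNReal.tendsto_coe_atTop.2 tendsto_id).atTop_mul_const (ENNReal.toReal_pos ?_ ?_)
  · exact (hN i hi).1.measure_ne_zero m (hN i hi).2.1
  · exact ((measure_mono ((hN i hi).2.2.trans hW)).trans_lt hm).ne

end Pool.Agent.Lib.MP_0d9445_pr.EN
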