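import Pool.Agent.Lib.MP_0d9445_pr.Mu.Path
import Pool.Agent.Lib.MP_0d9445_pr.Met.CMap
import Pool.Agent.Lib.MP_0d9445_pr.Gauss.Riesz

/-! General facts on Gaussian free fields: versions, uniqueness in law, mixtures. -/

open MeasureTheory ProbabilityTheory Set Filter Topology Real
open scoped NNReal ENNReal

noncomputable section

namespace Pool.Agent.Lib.MP_0d9445_pr.EN

open Mu (addFn_apply addFn_addFn addFn_zero)

theorem avg_cst (c : ℝ) (p : ℝ × ℂ) : avg (cst c) p = c := circleAverage_const c _ _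

theorem addFn_cst_apply (H : Field) (c : ℝ) (p : ℝ × ℂ) : addFn H (cst c) p = H p + c := by
  rw [addFn_apply, avg_cst]

theorem continuous_cst : Continuous cst := ContinuousMap.continuous_const'

theorem measurable_cst : Measurable cst := continuous_cst.measurable

theorem continuous_addFn' : Continuous fun p : Field × Fn => addFn p.1 p.2 := by
  refine continuous_fst.add (ContinuousMap.continuous_of_continuous_uncurry _ ?_)
  have : Continuous fun q : (Field × Fn) × (ℝ × ℂ) =>
      ∫ θ in (0 : ℝ)..2 * π, q.1.2 (circleMap q.2.2 (exp (-q.2.1)) θ) := by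
    unfold circleMap
    exact intervalIntegral.continuous_parametric_intervalIntegral_of_continuous' (by fun_prop) _ _
  exact this.const_smul (2 * π)⁻¹

theorem measurable_addFn' {α : Type*} [MeasurableSpace α] {h : α → Field} {f : α → Fn}
    (hh : Measurable h) (hf : Measurable f) : Measurable fun a => addFn (h a) (f a) :=
  continuous_addFn'.measurable.comp (hh.prodMk hf)

/-- the field minus its average over the unit circle -/
def nrm (H : Field) : Field := addFn H (cst (-H 0))

theorem nrm_apply (H : Field) (p : ℝ × ℂ) : nrm H p = H p - H 0 := by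
  rw [nrm, addFn_cst_apply, sub_eq_add_neg]

theorem measurable_nrm : Measurable nrm :=
  measurable_addFn' measurable_id (measurable_cst.comp (Mu.measurable_eval 0).neg)

theorem nrm_of_zero {H : Field} (h : H 0 = 0) : nrm H = H := by
  ext p
  rw [nrm_apply, h, sub_zero]

theorem avg_aff (g : ℂ → ℝ) {a : ℂ} (ha : a ≠ 0) (b : ℂ) (p : ℝ × ℂ) :
    avg (fun z => g (a * z + b)) p = avg g (p.1 - log ‖a‖, a * p.2 + b) := by
  unfold avg
  rw [circleAverage_eq_integral_add (f := g) (Complex.arg a), circleAverage]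
  congr 2
  funext θ
  congr 1
  have h1 : exp (-(p.1 - log ‖a‖)) = ‖a‖ * exp (-p.1) := by
    rw [neg_sub, sub_eq_add_neg, exp_add, exp_log (norm_pos_iff.2 ha)]
  simp only [circleMap, h1]
  have h2 := Complex.norm_mul_exp_arg_mul_I a
  push_cast
  rw [add_mul, Complex.exp_add]
  linear_combination (-(Complex.exp (-(p.1 : ℂ)) * Complex.exp (θ * Complex.I))) * h2

theorem affine_addFn (Q : ℝ) {a : ℂ} (ha : a ≠ 0) (b : ℂ) (H : Field) (g : Fn) :
    affine Q a b (addFn H g) = addFn (affine 0 a b H) (res Q a b g) := by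
  ext p
  have h1 := Mu.avg_add (resc a b g).continuous (cst (Q * log ‖a‖)).continuous p
  have h2 : avg (res Q a b g) p = avg (resc a b g) p + Q * log ‖a‖ := by
    rw [← avg_cst (Q * log ‖a‖) p, ← h1]
    rfl
  have h3 : avg (resc a b g) p = avg g (p.1 - log ‖a‖, a * p.2 + b) := avg_aff g ha b p
  rw [addFn_apply, h2, h3]
  simp only [affine, ContinuousMap.coe_mk, addFn_apply]
  ring

theorem measurable_affine (Q : ℝ) (a b : ℂ) : Measurable (affine Q a b) :=
  LQ.Met.measurable_iff_eval.2 fun _ => (Mu.measurable_eval _).add_const _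

theorem measurable_resc (a b : ℂ) : Measurable (resc a b) :=
  LQ.Met.measurable_iff_eval.2 fun _ => Mu.measurable_eval _

theorem measurable_res (Q : ℝ) (a b : ℂ) : Measurable (res Q a b) :=
  (measurable_resc a b).add_const _

theorem measurable_shape (a b : ℂ) : Measurable (shape a b) :=
  (measurable_resc a b).sub (measurable_cst.comp (Mu.measurable_eval b))

/-- adding a fixed function keeps the local sigma-algebras -/
theorem measurable_addFn_on (U : Set ℂ) (g : Fn) :
    @Measurable Field Field (sigmaOn id U) (sigmaOn id U) fun H => addFn H g := by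
  refine measurable_iff_comap_le.2 ?_
  simp only [sigmaOn, MeasurableSpace.comap_iSup, MeasurableSpace.comap_comp]
  refine iSup₂_le fun p hp => le_iSup₂_of_le (f := fun (p : ℝ × ℂ)
    (_ : Metric.closedBall p.2 (exp (-p.1)) ⊆ U) =>
      MeasurableSpace.comap (fun H : Field => (id H : Field) p) inferInstance) p hp ?_
  exact measurable_iff_comap_le.1 ((comap_measurable fun H : Field => H p).add_const (avg g p))

/-- fields that agree on the discs inside `U` are not separated by `sigmaOn id U` -/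
theorem mem_iff_of_agree {U : Set ℂ} {H H' : Field}
    (h : ∀ p : ℝ × ℂ, Metric.closedBall p.2 (exp (-p.1)) ⊆ U → H p = H' p) {S : Set Field}
    (hS : MeasurableSet[sigmaOn id U] S) : H ∈ S ↔ H' ∈ S := by
  let m : MeasurableSpace Field :=
    { MeasurableSet' := fun S => H ∈ S ↔ H' ∈ S
      measurableSet_empty := Iff.rfl
      measurableSet_compl := fun S hS => not_congr hS
      measurableSet_iUnion := fun f hf => by
        simp only [mem_iUnion]
        exact exists_congr hf }
  refine (show sigmaOn id U ≤ m from iSup₂_le fun p hp => ?_) S hS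
  rintro _ ⟨B, -, rfl⟩
  change H p ∈ B ↔ H' p ∈ B
  rw [h p hp]

variable {Ω Ω' : Type} [MeasurableSpace Ω] [MeasurableSpace Ω'] {P : Measure Ω} {P' : Measure Ω'}
  {h h₁ : Ω → Field} {h' : Ω' → Field}

theorem _root_.Pool.Agent.Lib.MP_0d9445_pr.IsGFF.prob (H : IsGFF h P) : IsProbabilityMeasure P :=
  H.gauss.isProbabilityMeasure

theorem _root_.Pool.Agent.Lib.MP_0d9445_pr.IsGFFplus.prob (H : IsGFFplus h P) :
    IsProbabilityMeasure P :=
  H.2.choose_spec.2.prob

theorem _root_.Pool.Agent.Lib.MP_0d9445_pr.IsGFF.congr (H : IsGFF h P) (hm : Measurable h₁)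
    (e : ∀ᵐ ω ∂P, h ω = h₁ ω) : IsGFF h₁ P where
  meas := hm
  gauss := H.gauss.congr fun p => e.mono fun ω hω => by simp only [hω]
  mean p := by
    rw [← H.mean p]
    exact integral_congr_ae (e.mono fun ω hω => by simp only [hω])
  cov p q := by
    rw [← H.cov p q]
    exact integral_congr_ae (e.mono fun ω hω => by simp only [hω])

theorem _root_.Pool.Agent.Lib.MP_0d9445_pr.IsGFF.plus (H : IsGFF h P) : IsGFFplus h P :=
  ⟨H.meas, fun _ => 0, measurable_const, by simpa only [neg_zero, addFn_zero] using H⟩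

theorem _root_.Pool.Agent.Lib.MP_0d9445_pr.IsGFFplus.congr (H : IsGFFplus h P)
    (hm : Measurable h₁) (e : ∀ᵐ ω ∂P, h ω = h₁ ω) : IsGFFplus h₁ P := by
  obtain ⟨-, f, hf, H⟩ := H
  exact ⟨hm, f, hf, H.congr (measurable_addFn' hm hf.neg) (e.mono fun ω hω => by rw [hω])⟩

theorem _root_.Pool.Agent.Lib.MP_0d9445_pr.IsGFFplus.add (H : IsGFFplus h P) {g : Ω → Fn}
    (hg : Measurable g) : IsGFFplus (fun ω => addFn (h ω) (g ω)) P := by
  obtain ⟨hm, f, hf, H⟩ := H
  refine ⟨measurable_addFn' hm hg, fun ω => f ω + g ω, hf.add hg, ?_⟩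
  have : (fun ω => addFn (addFn (h ω) (g ω)) (-(f ω + g ω))) = fun ω => addFn (h ω) (-f ω) :=
    funext fun ω => by rw [addFn_addFn]; congr 1; abel
  rw [this]
  exact H

/-- two measures on fields with the same law of the averages over a dense set of circles -/
theorem field_ext {ν ν' : Measure Field}
    (H : ν.map (fun (F : Field) (p : ℝ × ℂ) => F p) = ν'.map fun (F : Field) (p : ℝ × ℂ) => F p) :
    ν = ν' := by
  obtain ⟨Q, hc, hQ⟩ := TopologicalSpace.exists_countable_dense (ℝ × ℂ)
  have he := LQ.Met.measurableEmbedding_evalOn (W := ℝ) hc hQ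
  have hm : Measurable fun (F : Field) (p : ℝ × ℂ) => F p :=
    measurable_pi_lambda _ Mu.measurable_eval
  have hr : Measurable fun (x : ℝ × ℂ → ℝ) (q : Q) => x q :=
    measurable_pi_lambda _ fun q => measurable_pi_apply _
  have h1 := congrArg (Measure.map fun (x : ℝ × ℂ → ℝ) (q : Q) => x q) H
  rw [Measure.map_map hr hm, Measure.map_map hr hm] at h1
  rw [← he.comap_map ν, ← he.comap_map ν']
  exact congrArg _ h1

/-- Uniqueness in law of the GFF with average zero on the unit circle. -/
theorem gff_law (H : IsGFF h P) (H' : IsGFF h' P') :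
    P.map (fun ω => nrm (h ω)) = P'.map fun ω => nrm (h' ω) := by
  have hm : Measurable fun (F : Field) (p : ℝ × ℂ) => F p :=
    measurable_pi_lambda _ Mu.measurable_eval
  refine field_ext ?_
  rw [Measure.map_map hm (measurable_nrm.fun_comp H.meas),
    Measure.map_map hm (measurable_nrm.fun_comp H'.meas)]
  simp only [Function.comp_def, nrm_apply]
  obtain ⟨K, k, -, hW, hk⟩ := LQ.Gauss.exists_isIso_of_isGaussianProcess H.gauss H.mean
  obtain ⟨K', k', -, hW', hk'⟩ := LQ.Gauss.exists_isIso_of_isGaussianProcess H'.gauss H'.mean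
  refine hW.version_map_eq hW'
    (fun p => ((Mu.measurable_eval p).comp H.meas).sub ((Mu.measurable_eval 0).comp H.meas)) hk
    (fun p => ((Mu.measurable_eval p).comp H'.meas).sub ((Mu.measurable_eval 0).comp H'.meas)) hk'
    fun p q => ?_
  rw [← hW.version_cov (hk p) (hk q), ← hW'.version_cov (hk' p) (hk' q), covariance, covariance,
    H.mean p, H.mean q, H'.mean p, H'.mean q]
  simp only [sub_zero]
  rw [H.cov, H'.cov]

/-- Being a GFF depends on the law of the normalised field only. -/
theorem gff_of_law (hm : Measurable h) (H' : IsGFF h' P')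
    (e : P.map (fun ω => nrm (h ω)) = P'.map fun ω => nrm (h' ω)) : IsGFF h P := by
  have m1 := measurable_nrm.comp hm
  have m2 := measurable_nrm.comp H'.meas
  have key : ∀ {β : Type} [MeasurableSpace β] {φ : Field → β}, Measurable φ →
      P.map (fun ω => φ (nrm (h ω))) = P'.map fun ω => φ (nrm (h' ω)) := fun hφ =>
    (Measure.map_map hφ m1).symm.trans ((congrArg _ e).trans (Measure.map_map hφ m2))
  have int : ∀ φ : Field → ℝ, Measurable φ →
      ∫ ω, φ (nrm (h ω)) ∂P = ∫ ω, φ (nrm (h' ω)) ∂P' := fun φ hφ =>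
    (integral_map m1.aemeasurable hφ.aestronglyMeasurable).symm.trans
      ((congrArg (fun ν => ∫ F, φ F ∂ν) e).trans
        (integral_map m2.aemeasurable hφ.aestronglyMeasurable))
  refine ⟨hm, ⟨fun I => ⟨?_⟩⟩, fun p => ?_, fun p q => ?_⟩
  · have h1 := key (φ := fun F => I.restrict fun p => F p)
      (measurable_pi_lambda _ fun p => Mu.measurable_eval _)
    simp only [nrm_apply] at h1
    rw [h1]
    exact (H'.gauss.hasGaussianLaw I).isGaussian_map
  · have h1 := int (fun F => F p) (Mu.measurable_eval p)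
    simp only [nrm_apply] at h1
    rw [h1, H'.mean]
  · have h1 := int (fun F => F p * F q) ((Mu.measurable_eval p).mul (Mu.measurable_eval q))
    simp only [nrm_apply] at h1
    rw [h1, H'.cov]

theorem _root_.Pool.Agent.Lib.MP_0d9445_pr.IsGFF.of_map {φ : Ω' → Ω} (hφ : Measurable φ)
    (H : IsGFF h (P'.map φ)) : IsGFF (fun ω => h (φ ω)) P' :=
  gff_of_law (H.meas.comp hφ) H (Measure.map_map (measurable_nrm.comp H.meas) hφ).symm

theorem _root_.Pool.Agent.Lib.MP_0d9445_pr.IsGFF.map (hm : Measurable h) {φ : Ω' → Ω}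
    (hφ : Measurable φ) (H : IsGFF (fun ω => h (φ ω)) P') : IsGFF h (P'.map φ) :=
  gff_of_law hm H (Measure.map_map (measurable_nrm.comp hm) hφ)

theorem _root_.Pool.Agent.Lib.MP_0d9445_pr.IsGFFplus.of_map {φ : Ω' → Ω} (hφ : Measurable φ)
    (H : IsGFFplus h (P'.map φ)) : IsGFFplus (fun ω => h (φ ω)) P' := by
  obtain ⟨hm, f, hf, H⟩ := H
  exact ⟨hm.comp hφ, fun ω => f (φ ω), hf.comp hφ, H.of_map hφ⟩

/-- a random constant does not matter -/
theorem _root_.Pool.Agent.Lib.MP_0d9445_pr.IsGFF.add_cst (H : IsGFF h P) {c : Ω → ℝ}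
    (hc : Measurable c) : IsGFF (fun ω => addFn (h ω) (cst (c ω))) P := by
  refine gff_of_law (measurable_addFn' H.meas (measurable_cst.comp hc)) H ?_
  congr 1
  funext ω
  ext p
  simp only [nrm_apply, addFn_cst_apply]
  ring

/-- the fair mixture of two measures -/
def mix (P : Measure Ω) (P' : Measure Ω') : Measure (Ω ⊕ Ω') :=
  (2⁻¹ : ℝ≥0∞) • (P.map Sum.inl + P'.map Sum.inr)

theorem map_mix {β : Type} [MeasurableSpace β] {f : Ω → β} {f' : Ω' → β} (hf : Measurable f)
    (hf' : Measurable f') : (mix P P').map (Sum.elim f f') = (2⁻¹ : ℝ≥0∞) • (P.map f + P'.map f') := by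
  rw [mix, Measure.map_smul, Measure.map_add _ _ (hf.sumElim hf'),
    Measure.map_map (hf.sumElim hf') measurable_inl, Measure.map_map (hf.sumElim hf') measurable_inr]
  rfl

theorem ae_of_mix {p : Ω ⊕ Ω' → Prop} (H : ∀ᵐ x ∂mix P P', p x) :
    (∀ᵐ ω ∂P, p (Sum.inl ω)) ∧ ∀ᵐ ω ∂P', p (Sum.inr ω) := by
  rw [mix, Measure.ae_ennreal_smul_measure_eq (by simp), ae_add_measure_iff] at H
  exact ⟨ae_of_ae_map measurable_inl.aemeasurable H.1, ae_of_ae_map measurable_inr.aemeasurable H.2⟩

/-- The mixture of two GFF plus continuous fields is such a field. -/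
theorem gffplus_mix (H : IsGFFplus h P) (H' : IsGFFplus h' P') :
    IsGFFplus (Sum.elim h h') (mix P P') := by
  obtain ⟨hm, f, hf, H⟩ := H
  obtain ⟨hm', f', hf', H'⟩ := H'
  refine ⟨hm.sumElim hm', Sum.elim f f', hf.sumElim hf',
    gff_of_law (measurable_addFn' (hm.sumElim hm') (hf.sumElim hf').neg) H ?_⟩
  have : (fun x => nrm (addFn (Sum.elim h h' x) (-Sum.elim f f' x))) =
      Sum.elim (fun ω => nrm (addFn (h ω) (-f ω))) fun ω => nrm (addFn (h' ω) (-f' ω)) :=
    funext fun x => by cases x <;> rfl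
  rw [this, map_mix (measurable_nrm.fun_comp H.meas) (measurable_nrm.fun_comp H'.meas),
    ← gff_law H H',
    ← two_smul ℝ≥0∞, smul_smul, ENNReal.inv_mul_cancel (by simp) (by simp), one_smul]

end Pool.Agent.Lib.MP_0d9445_pr.EN
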