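import Pool.Agent.Lib.MP_0d9445_pr.EN.Gff
import Pool.Agent.Lib.MP_0d9445_pr.EN.Pull
import Pool.Agent.Lib.MP_0d9445_pr.Met.Local

/-! Locality of the configuration of a field, for one field and for two fields at once. -/

open MeasureTheory ProbabilityTheory Set Filter Topology Real LQ.Met
open scoped NNReal ENNReal

noncomputable section

namespace Pool.Agent.Lib.MP_0d9445_pr

open CR EN

namespace Model

variable (M : Model) {Ω Ω' : Type} [MeasurableSpace Ω] [MeasurableSpace Ω'] {P : Measure Ω}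
  {P' : Measure Ω'} {h h₁ : Ω → Field} {h' : Ω' → Field}

theorem ae_good (H : IsGFFplus h P) : ∀ᵐ ω ∂P, IsGood (M.conf (h ω)) := M.hD.length Ω P h H

theorem ae_vague (H : IsGFFplus h P) : ∀ᵐ ω ∂P, IsVague M.γ (h ω) (M.μ (h ω)) :=
  M.hμ.vague Ω P h H

/-- the local data in a square are a function of the field inside the square -/
theorem exists_loc_version (H : IsGFFplus h P) (w : Sq) :
    ∃ G : Field → Cf, Measurable[sigmaOn id w.o] G ∧ ∀ᵐ ω ∂P, loc w (M.conf (h ω)) = G (h ω) := by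
  obtain ⟨F, hF, hF'⟩ := Mu.exists_local M.γ (isOpen_osq w.1 w.2)
  have hT : ∃ G : Field → Met, Measurable[sigmaOn id w.o] G ∧
      ∀ᵐ ω ∂P, T w (M.D (h ω)) = G (h ω) := by
    rcases le_or_gt w.2 0 with hw | hw
    · refine ⟨fun _ => 0, measurable_const, (M.ae_good H).mono fun ω hω => ?_⟩
      ext p
      exact T_of_nonpos hω.1 hw p
    refine exists_version h _ fun p => ?_
    have hb : Bornology.IsBounded w.o := (isBounded_csq w.1 w.2).subset (osq_subset_csq _ _)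
    obtain ⟨g, hg, he⟩ := TU_version (m := sigmaOn id w.o) (h := h) (M.ae_good H)
      (isOpen_osq w.1 w.2) hb
      (nonempty_compl.2 fun e => NormedSpace.unbounded_univ ℝ ℂ (e ▸ hb))
      (fun x hx y hy => by
        obtain ⟨G, hG, hG'⟩ := M.hD.locality Ω P h H _ (isOpen_osq w.1 w.2) x hx y hy
        rw [Mu.sigmaOn_eq_comap] at hG
        obtain ⟨g, hg, rfl⟩ :=
          @Measurable.exists_eq_measurable_comp _ _ _ (sigmaOn id w.o) h G _ _ _ hG
        exact ⟨g, hg, hG'⟩) (proj w p.1) (proj w p.2)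
    refine ⟨g, hg, ?_⟩
    filter_upwards [M.ae_good H, he] with ω h1 h2
    exact (T_eq h1.1 h1.2 hw p).trans h2
  obtain ⟨G, hG, hG'⟩ := hT
  refine ⟨fun x => (G x, F x), hG.prodMk hF, ?_⟩
  filter_upwards [hG', M.ae_vague H] with ω h1 h2
  exact Prod.ext h1 (hF' _ _ h2).symm

/-- a local event of the configuration is a local event of the field -/
theorem exists_fieldSet (H : IsGFFplus h P) {A : Set ℂ} {S : Set Cf}
    (hS : MeasurableSet[GG A] S) : ∃ S' : Set Field, MeasurableSet[sigmaOn id A] S' ∧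
      ∀ᵐ ω ∂P, (M.conf (h ω) ∈ S ↔ h ω ∈ S') := by
  let m : MeasurableSpace Cf :=
    { MeasurableSet' := fun S => ∃ S' : Set Field, MeasurableSet[sigmaOn id A] S' ∧
        ∀ᵐ ω ∂P, (M.conf (h ω) ∈ S ↔ h ω ∈ S')
      measurableSet_empty := ⟨∅, @MeasurableSet.empty _ (sigmaOn id A), by simp⟩
      measurableSet_compl := fun S ⟨S', h1, h2⟩ =>
        ⟨S'ᶜ, h1.compl, h2.mono fun ω hω => not_congr hω⟩
      measurableSet_iUnion := fun f hf => by
        choose g h1 h2 using hf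
        refine ⟨⋃ i, g i, MeasurableSet.iUnion h1, ?_⟩
        filter_upwards [ae_all_iff.2 h2] with ω hω
        simp only [mem_iUnion]
        exact exists_congr hω }
  refine (show GG A ≤ m from iSup₂_le fun w hw => ?_) S hS
  rintro _ ⟨B, hB, rfl⟩
  obtain ⟨G, hG, he⟩ := M.exists_loc_version H w
  refine ⟨G ⁻¹' B, Mu.sigmaOn_mono id hw _ (hG hB), he.mono fun ω hω => ?_⟩
  rw [mem_preimage, mem_preimage, hω]

/-- a local function of the configuration is a local function of the field -/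
theorem exists_fieldFun (H : IsGFFplus h P) {A : Set ℂ} {f : Cf → ℝ≥0∞}
    (hf : Measurable[GG A] f) : ∃ f' : Field → ℝ≥0∞, Measurable[sigmaOn id A] f' ∧
      ∀ᵐ ω ∂P, f (M.conf (h ω)) = f' (h ω) := by
  refine @Measurable.ennreal_induction Cf (GG A) (fun f => ∃ f' : Field → ℝ≥0∞,
    Measurable[sigmaOn id A] f' ∧ ∀ᵐ ω ∂P, f (M.conf (h ω)) = f' (h ω)) ?_ ?_ ?_ f hf
  · intro c S hS
    obtain ⟨S', h1, h2⟩ := M.exists_fieldSet H hS
    refine ⟨S'.indicator fun _ => c, measurable_const.indicator h1, h2.mono fun ω hω => ?_⟩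
    by_cases hm : h ω ∈ S'
    · rw [indicator_of_mem hm, indicator_of_mem (hω.2 hm)]
    · rw [indicator_of_notMem hm, indicator_of_notMem fun e => hm (hω.1 e)]
  · rintro f g - - - ⟨f', h1, h2⟩ ⟨g', h3, h4⟩
    refine ⟨f' + g', h1.add h3, ?_⟩
    filter_upwards [h2, h4] with ω e1 e2
    rw [Pi.add_apply, Pi.add_apply, e1, e2]
  · intro f _ _ hf
    choose g h1 h2 using hf
    refine ⟨fun x => ⨆ n, g n x, Measurable.iSup h1, ?_⟩
    filter_upwards [ae_all_iff.2 h2] with ω hω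
    exact iSup_congr hω

/-- universality: one local function serves two fields -/
theorem exists_loc_version₂ (H : IsGFFplus h P) (H' : IsGFFplus h' P') (w : Sq) :
    ∃ G : Field → Cf, Measurable[sigmaOn id w.o] G ∧
      (∀ᵐ ω ∂P, loc w (M.conf (h ω)) = G (h ω)) ∧ ∀ᵐ ω ∂P', loc w (M.conf (h' ω)) = G (h' ω) :=
  (M.exists_loc_version (gffplus_mix H H') w).imp fun _ e => ⟨e.1, ae_of_mix e.2⟩

theorem exists_fieldSet₂ (H : IsGFFplus h P) (H' : IsGFFplus h' P') {A : Set ℂ} {S : Set Cf}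
    (hS : MeasurableSet[GG A] S) : ∃ S' : Set Field, MeasurableSet[sigmaOn id A] S' ∧
      (∀ᵐ ω ∂P, (M.conf (h ω) ∈ S ↔ h ω ∈ S')) ∧ ∀ᵐ ω ∂P', (M.conf (h' ω) ∈ S ↔ h' ω ∈ S') :=
  (M.exists_fieldSet (gffplus_mix H H') hS).imp fun _ e => ⟨e.1, ae_of_mix e.2⟩

theorem exists_fieldFun₂ (H : IsGFFplus h P) (H' : IsGFFplus h' P') {A : Set ℂ} {f : Cf → ℝ≥0∞}
    (hf : Measurable[GG A] f) : ∃ f' : Field → ℝ≥0∞, Measurable[sigmaOn id A] f' ∧
      (∀ᵐ ω ∂P, f (M.conf (h ω)) = f' (h ω)) ∧ ∀ᵐ ω ∂P', f (M.conf (h' ω)) = f' (h' ω) :=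
  (M.exists_fieldFun (gffplus_mix H H') hf).imp fun _ e => ⟨e.1, ae_of_mix e.2⟩

/-- two fields that agree on the discs inside a square have the same local data -/
theorem loc_congr (H : IsGFFplus h P) (H₁ : IsGFFplus h₁ P) (w : Sq)
    (e : ∀ᵐ ω ∂P, ∀ p : ℝ × ℂ, Metric.closedBall p.2 (exp (-p.1)) ⊆ w.o → h ω p = h₁ ω p) :
    ∀ᵐ ω ∂P, loc w (M.conf (h ω)) = loc w (M.conf (h₁ ω)) := by
  obtain ⟨G, hG, e1, e2⟩ := M.exists_loc_version₂ H H₁ w
  filter_upwards [e, e1, e2] with ω h1 h2 h3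
  rw [h2, h3]
  have key : ∀ B : Set Cf, MeasurableSet B → (G (h ω) ∈ B ↔ G (h₁ ω) ∈ B) := fun B hB =>
    mem_iff_of_agree h1 (hG hB)
  refine Prod.ext (ContinuousMap.ext fun p => ?_) (Measure.ext fun A hA => ?_)
  · exact (key {c | c.1 p = (G (h₁ ω)).1 p} (measurableSet_eq_fun
      ((Mu.measurable_eval p).comp measurable_fst) measurable_const)).2 rfl
  · exact (key {c | c.2 A = (G (h₁ ω)).2 A} (measurableSet_eq_fun
      ((Measure.measurable_coe hA).comp measurable_snd) measurable_const)).2 rfl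

/-- two fields that agree on the discs inside `A` have the same local events -/
theorem mem_congr (H : IsGFFplus h P) (H₁ : IsGFFplus h₁ P) {A : Set ℂ}
    (e : ∀ᵐ ω ∂P, ∀ p : ℝ × ℂ, Metric.closedBall p.2 (exp (-p.1)) ⊆ A → h ω p = h₁ ω p)
    {S : Set Cf} (hS : MeasurableSet[GG A] S) :
    ∀ᵐ ω ∂P, (M.conf (h ω) ∈ S ↔ M.conf (h₁ ω) ∈ S) := by
  obtain ⟨S', h1, e1, e2⟩ := M.exists_fieldSet₂ H H₁ hS
  filter_upwards [e, e1, e2] with ω h2 h3 h4
  rw [h3, h4, mem_iff_of_agree h2 h1]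

/-- local absolute continuity of the fields passes to the configurations -/
theorem null_transfer (H : IsGFFplus h P) (H' : IsGFFplus h' P') {A : Set ℂ}
    (ac : ∀ B, MeasurableSet[sigmaOn id A] B → P' {ω | h' ω ∈ B} = 0 → P {ω | h ω ∈ B} = 0)
    {S : Set Cf} (hS : MeasurableSet[GG A] S) (h0 : P' {ω | M.conf (h' ω) ∈ S} = 0) :
    P {ω | M.conf (h ω) ∈ S} = 0 := by
  obtain ⟨S', h1, e1, e2⟩ := M.exists_fieldSet₂ H H' hS
  have a1 : P {ω | M.conf (h ω) ∈ S} = P {ω | h ω ∈ S'} := measure_congr (eventuallyEq_set.2 e1)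
  have a2 : P' {ω | M.conf (h' ω) ∈ S} = P' {ω | h' ω ∈ S'} :=
    measure_congr (eventuallyEq_set.2 e2)
  rw [a1]
  exact ac S' h1 (a2.symm.trans h0)

/-- equal local laws of the fields give equal local laws of the configurations -/
theorem lintegral_congr_law (H : IsGFFplus h P) (H' : IsGFFplus h' P') {A : Set ℂ}
    (e : ∀ F : Field → ℝ≥0∞, Measurable[sigmaOn id A] F → ∫⁻ ω, F (h ω) ∂P = ∫⁻ ω, F (h' ω) ∂P')
    {f : Cf → ℝ≥0∞} (hf : Measurable[GG A] f) :
    ∫⁻ ω, f (M.conf (h ω)) ∂P = ∫⁻ ω, f (M.conf (h' ω)) ∂P' := by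
  obtain ⟨f', h1, e1, e2⟩ := M.exists_fieldFun₂ H H' hf
  rw [lintegral_congr_ae e1, lintegral_congr_ae e2, e f' h1]

/-- Weyl scaling of the configuration, for all continuous functions at once -/
theorem ae_weyl (H : IsGFFplus h P) {f : Ω → Fn} (hf : Measurable f) : ∀ᵐ ω ∂P,
    IsWeyl (fun z => M.ξ * f ω z) (Function.curry (M.D (h ω)))
      (Function.curry (M.D (addFn (h ω) (f ω)))) ∧
    M.μ (addFn (h ω) (f ω)) =
      (M.μ (h ω)).withDensity fun z => ENNReal.ofReal (exp (M.γ * f ω z)) := by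
  filter_upwards [M.hD.weyl Ω P h H, M.ae_vague H, M.ae_vague (H.add hf)] with ω h1 h2 h3
  exact ⟨fun x y => (h1 (f ω) x y).trans (wmet_eq _ _ x y).symm,
    Mu.vague_unique h3 (Mu.vague_addFn h2 (f ω))⟩

/-- adding a random constant scales the configuration -/
theorem ae_scale (H : IsGFFplus h P) {t : Ω → ℝ} (ht : Measurable t) :
    ∀ᵐ ω ∂P, M.conf (addFn (h ω) (cst (t ω))) = scale M.ξ M.γ (t ω) (M.conf (h ω)) := by
  have hc := measurable_cst.fun_comp ht
  filter_upwards [M.ae_weyl H hc, M.ae_good H, M.ae_good (H.add hc)] with ω h1 h2 h3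
  refine Prod.ext (ContinuousMap.ext fun p => ?_) ?_
  · have h4 : IsWeyl (fun _ => M.ξ * t ω) (Function.curry (M.D (h ω)))
        (Function.curry (M.D (addFn (h ω) (cst (t ω))))) := h1.1
    exact weyl_const h2.1 h2.2 h3.1 h4 p.1 p.2
  · exact h1.2.trans (withDensity_const (ENNReal.ofReal (exp (M.γ * t ω))))

end Model

namespace EN

theorem measurable_scale₂ (ξ γ : ℝ) : Measurable fun p : ℝ × Cf => scale ξ γ p.1 p.2 := by
  refine Measurable.prodMk (LQ.Met.measurable_iff_eval.2 fun q => ?_)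
    (Measure.measurable_of_measurable_coe _ fun S hS => ?_)
  · exact (measurable_fst.const_mul ξ).exp.mul
      ((Mu.measurable_eval q).comp (measurable_fst.comp measurable_snd))
  · exact (measurable_fst.const_mul γ).exp.ennreal_ofReal.mul
      ((Measure.measurable_coe hS).comp (measurable_snd.comp measurable_snd))

theorem measurable_scale (ξ γ t : ℝ) : Measurable (scale ξ γ t) :=
  (measurable_scale₂ ξ γ).comp measurable_prodMk_left

end EN

end Pool.Agent.Lib.MP_0d9445_pr
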