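import Pool.Agent.Lib.MP_0d9445_pr.EN.Blk

/-!
The point part of the engine: local data, measurability of the pattern, independence of the local
sigma-algebras with points, monotone comparison of close configurations.
-/

open MeasureTheory ProbabilityTheory Set Filter Topology Real LQ.Met
open scoped ENNReal NNReal

noncomputable section

namespace Pool.Agent.Lib.MP_0d9445_pr.EN

open PPP (pts ppp Meas)
open CR (osq csq reg ann ctr sc box Pat)

/-! ### the local metric -/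

theorem continuous_T (w : Sq) : Continuous (T w) := by
  refine ContinuousMap.continuous_of_continuous_uncurry _ ?_
  have hp := continuous_proj w
  show Continuous fun q : Met × (ℂ × ℂ) => min (q.1 (proj w q.2.1, proj w q.2.2))
    (sInf ((fun u => q.1 (proj w q.2.1, u)) '' frontier w.o))
  refine Continuous.min (by fun_prop) ?_
  exact (isCompact_frontier_osq w.1 w.2).continuous_sInf
    (f := fun (q : Met × (ℂ × ℂ)) (u : ℂ) => q.1 (proj w q.2.1, u)) (by fun_prop)

theorem measurable_T (w : Sq) : Measurable (T w) := (continuous_T w).measurable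

theorem measurable_loc (w : Sq) : Measurable (loc w) :=
  ((measurable_T w).comp measurable_fst).prodMk
    ((measurable_restrict (isOpen_osq _ _).measurableSet).comp measurable_snd)

theorem proj_mem {w : Sq} (hw : 0 ≤ w.2) (z : ℂ) : proj w z ∈ w.c := by
  have key : ∀ a t : ℝ, |max (a - w.2) (min (a + w.2) t) - a| ≤ w.2 := fun a t => by
    rw [abs_le]
    constructor
    · linarith [le_max_left (a - w.2) (min (a + w.2) t)]
    · have : max (a - w.2) (min (a + w.2) t) ≤ a + w.2 :=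
        max_le (by linarith) (min_le_left _ _)
      linarith
  exact ⟨key _ _, key _ _⟩

theorem proj_eq {w : Sq} {z : ℂ} (hz : z ∈ w.c) : proj w z = z := by
  have key : ∀ a t : ℝ, |t - a| ≤ w.2 → max (a - w.2) (min (a + w.2) t) = t := fun a t h => by
    rw [abs_le] at h
    rw [min_eq_right (by linarith [h.2]), max_eq_right (by linarith [h.1])]
  exact Complex.ext (key _ _ hz.1) (key _ _ hz.2)

theorem T_eq {d : Met} (h : IsMet (Function.curry d)) (hl : IsLen (Function.curry d)) {w : Sq}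
    (hw : 0 < w.2) (p : ℂ × ℂ) :
    T w d p = TU (Function.curry d) w.o (proj w p.1) (proj w p.2) := by
  rw [TU, ← dFr_eq_dOut h hl (isOpen_osq _ _) (csq_subset_closure _ hw (proj_mem hw.le _))]
  rfl

theorem T_eq_of_mem {d : Met} (h : IsMet (Function.curry d)) (hl : IsLen (Function.curry d))
    {w : Sq} (hw : 0 < w.2) {x y : ℂ} (hx : x ∈ w.c) (hy : y ∈ w.c) :
    T w d (x, y) = TU (Function.curry d) w.o x y := by
  rw [T_eq h hl hw, proj_eq hx, proj_eq hy]

theorem osq_eq_empty (u : ℂ) {r : ℝ} (hr : r ≤ 0) : osq u r = ∅ :=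
  eq_empty_of_forall_notMem fun _ h => ((abs_nonneg _).trans_lt (h.1.trans_le hr)).false

theorem T_of_nonpos {d : Met} (h : IsMet (Function.curry d)) {w : Sq} (hw : w.2 ≤ 0)
    (p : ℂ × ℂ) : T w d p = 0 := by
  show min (d (proj w p.1, proj w p.2)) (sInf ((fun u => d (proj w p.1, u)) '' frontier w.o)) = 0
  rw [Sq.o, osq_eq_empty _ hw, frontier_empty, image_empty, Real.sInf_empty]
  exact min_eq_right (h.nonneg _ _)

/-! ### the local sigma-algebras -/

theorem GG_mono {A B : Set ℂ} (h : A ⊆ B) : GG A ≤ GG B :=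
  iSup₂_le fun w hw => le_iSup₂_of_le w (hw.trans h) le_rfl

theorem GG_le (A : Set ℂ) : GG A ≤ (Prod.instMeasurableSpace : MeasurableSpace Cf) :=
  iSup₂_le fun w _ => (measurable_loc w).comap_le

theorem measurable_loc_GG {w : Sq} {A : Set ℂ} (h : w.o ⊆ A) : Measurable[GG A] (loc w) :=
  Measurable.of_comap_le (le_iSup₂_of_le (f := fun (w : Sq) (_ : w.o ⊆ A) =>
    MeasurableSpace.comap (loc w) inferInstance) w h le_rfl)

/-- an open set is a countable union of open squares -/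
theorem exists_sq_cover {A : Set ℂ} (hA : IsOpen A) :
    ∃ f : ℕ → Sq, (∀ n, (f n).o ⊆ A) ∧ ⋃ n, (f n).o = A := by
  obtain ⟨S, hc, hS⟩ := TopologicalSpace.isOpen_iUnion_countable
    (fun w : {w : Sq // w.o ⊆ A} => w.1.o) fun w => isOpen_osq _ _
  have h0 : Sq.o (0, 0) ⊆ A := by
    rw [Sq.o, osq_eq_empty _ le_rfl]
    exact empty_subset _
  obtain ⟨f, hf⟩ := (hc.insert ⟨(0, 0), h0⟩).exists_eq_range (insert_nonempty _ _)
  refine ⟨fun n => (f n).1, fun n => (f n).2, (iUnion_subset fun n => (f n).2).antisymm ?_⟩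
  intro z hz
  obtain ⟨ε, hε, hb⟩ := Metric.isOpen_iff.1 hA z hz
  have h1 : Sq.o (z, ε / 4) ⊆ A := fun y hy => hb (mem_ball_iff_norm.2
    ((norm_le_of_csq (osq_subset_csq _ _ hy)).trans_lt (by linarith)))
  have h2 : z ∈ ⋃ w : {w : Sq // w.o ⊆ A}, w.1.o :=
    mem_iUnion.2 ⟨⟨_, h1⟩, by constructor <;> simpa using hε⟩
  rw [← hS] at h2
  obtain ⟨w, hw, hz⟩ := mem_iUnion₂.1 h2
  obtain ⟨n, rfl⟩ : w ∈ range f := hf ▸ mem_insert_of_mem _ hw
  exact mem_iUnion.2 ⟨n, hz⟩

theorem measurable_restrict_GG (A : Set ℂ) :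
    Measurable[GG A] fun c : Cf => c.2.restrict (interior A) := by
  obtain ⟨f, hf, hU⟩ := exists_sq_cover (isOpen_interior (s := A))
  have hm : ∀ n, MeasurableSet (f n).o := fun n => (isOpen_osq _ _).measurableSet
  refine @Measure.measurable_of_measurable_coe _ _ _ (GG A) _ fun s hs => ?_
  have hd : ∀ n, MeasurableSet (s ∩ disjointed (fun n => (f n).o) n) := fun n =>
    hs.inter (MeasurableSet.disjointed hm n)
  have e : (fun c : Cf => c.2.restrict (interior A) s) =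
      fun c => ∑' n, (loc (f n) c).2 (s ∩ disjointed (fun n => (f n).o) n) := by
    funext c
    rw [Measure.restrict_apply hs, ← hU, ← iUnion_disjointed, inter_iUnion,
      measure_iUnion (fun i j hij => (disjoint_disjointed _ hij).mono inter_subset_right
        inter_subset_right) hd]
    refine tsum_congr fun n => ?_
    show _ = c.2.restrict (f n).o _
    rw [Measure.restrict_apply (hd n), inter_assoc,
      inter_eq_left.2 (disjointed_subset (fun n => (f n).o) n)]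
  rw [e]
  let _ : MeasurableSpace Cf := GG A
  exact Measurable.tsum fun n =>
    ((Measure.measurable_coe (hd n)).comp measurable_snd).comp
      (measurable_loc_GG ((hf n).trans interior_subset))

theorem GGhat_eq (A : Set ℂ) : GGhat A = hat (GG A) (interior A) :=
  MeasurableSpace.ext fun _ => and_congr_right' (forall_congr' fun _ =>
    ⟨fun h z w h1 h2 => propext (h z.1 z.2 w.1 w.2 h1 h2),
      fun h x y x' y' h1 h2 => iff_of_eq (h (x, y) (x', y') h1 h2)⟩)

theorem GGhat_mono {A B : Set ℂ} (h : A ⊆ B) : GGhat A ≤ GGhat B := by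
  rw [GGhat_eq, GGhat_eq]
  exact hat_mono (GG_mono h) (interior_mono h)

theorem GGhat_le (A : Set ℂ) : GGhat A ≤ (Prod.instMeasurableSpace : MeasurableSpace Xi) := by
  rw [GGhat_eq]
  exact hat_le (GG_le A) _

/-! ### the point kernels -/

theorem measurableSet_o (W : Sq) : MeasurableSet W.o := (isOpen_osq _ _).measurableSet

theorem inten_eq (a : ℝ) (W : Sq) (c : Cf) : inten a W c = cut W.o a.toNNReal c.2 := rfl

theorem pt2K_apply (γ L : ℝ) (W : Sq) (c : Cf) : pt2K γ L W c =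
    pp2 (inten (exp (-(γ * L))) W c) (inten (exp (γ * L) - exp (-(γ * L))) W c) := by
  rw [pt2K, Kernel.prod_apply]
  rfl

theorem pt2K_eq (γ L : ℝ) (W : Sq) : pt2K γ L W =
    (pk W.o (measurableSet_o W) (exp (-(γ * L))).toNNReal
      (exp (γ * L) - exp (-(γ * L))).toNNReal).comap Prod.snd measurable_snd := by
  ext1 c
  rw [pt2K_apply, Kernel.comap_apply, pk_apply]
  rfl

theorem inten_add {γ L : ℝ} (h : 0 ≤ γ * L) (W : Sq) (c : Cf) :
    inten (exp (-(γ * L))) W c + inten (exp (γ * L) - exp (-(γ * L))) W c =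
      inten (exp (γ * L)) W c := by
  rw [inten_eq, inten_eq, inten_eq, cut_add, ← Real.toNNReal_add (exp_pos _).le
    (sub_nonneg.2 (exp_le_exp.2 (by linarith))), add_sub_cancel]

theorem Phat_apply (M : Model) (L : ℝ) (W : Sq) (n : ℤ) (g : Fn) :
    M.Phat L W n g = M.Pk n g ⊗ₘ pt2K M.γ L W := by
  rw [Model.Phat, Kernel.compProd_apply_eq_compProd_sectR]
  rfl

theorem lintegral_Phat (M : Model) (L : ℝ) (W : Sq) (n : ℤ) (g : Fn) {F : Xi → ℝ≥0∞}
    (hF : Measurable F) :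
    ∫⁻ x, F x ∂M.Phat L W n g = ∫⁻ c, ∫⁻ z, F (c, z) ∂pt2K M.γ L W c ∂M.Pk n g := by
  rw [Phat_apply, Measure.lintegral_compProd hF]

/-- Independence of the local data passes to the local data with points. -/
theorem indep_GGhat (Pr : Measure Cf) [IsProbabilityMeasure Pr] {A B : Set ℂ}
    (hind : Indep (GG A) (GG B) Pr) (hAB : Disjoint A B) (γ L : ℝ) (W : Sq)
    (hfin : ∀ᵐ c ∂Pr, c.2 W.o < ∞) : Indep (GGhat A) (GGhat B) (Pr ⊗ₘ pt2K γ L W) := by
  rw [GGhat_eq, GGhat_eq, pt2K_eq]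
  exact indep_hat Pr (GG_le A) (GG_le B) hind measurableSet_interior measurableSet_interior
    (hAB.mono interior_subset interior_subset) _ _ _ measurable_snd (measurable_restrict_GG A)
    (measurable_restrict_GG B) hfin

/-! ### measurability of the pattern -/

theorem sc_pos (n : ℕ) : 0 < sc n := by
  unfold sc
  positivity

theorem measurableSet_blk_hat (lam : ℝ) (u : ℂ) (r : ℝ) {A : Set ℂ} (hA : osq u r ⊆ A) :
    MeasurableSet[GGhat A] {x : Xi | blk lam u r x.1.1 (pts x.2.1)} := by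
  refine ⟨?_, fun c x y x' y' h1 _ => ?_⟩
  · let _ : MeasurableSpace Cf := GG A
    have h1 : Measurable fun x : Cf × Tup × Tup => ((loc (u, r) x.1).1, x.2.1) :=
      ((@measurable_fst _ _ _ _).comp ((measurable_loc_GG hA).comp measurable_fst)).prodMk
        measurable_snd.fst
    exact h1 (measurableSet_blkT lam u r)
  · exact blkT_congr (interior_maximal hA (isOpen_osq _ _)) h1

/-- the squares of the blocking event lie in the annulus -/
theorem osq_subset_ann (n : ℕ) (v : ℤ × ℤ) {j : ℤ × ℤ} (hj : max |j.1| |j.2| = 8) :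
    osq (ctr n v + (sc n / 2 : ℝ) * (j.1 + j.2 * Complex.I)) (sc n / 2) ⊆ ann n v := by
  intro z hz
  have hs := sc_pos n
  obtain ⟨h1, h2⟩ := hz
  simp only [Complex.add_re, Complex.add_im, Complex.mul_re, Complex.mul_im, Complex.ofReal_re,
    Complex.ofReal_im, Complex.intCast_re, Complex.intCast_im, Complex.I_re, Complex.I_im,
    mul_zero, mul_one, zero_mul, sub_zero, add_zero, zero_add] at h1 h2
  have a1 : |(j.1 : ℝ)| ≤ 8 := by exact_mod_cast hj ▸ le_max_left |j.1| |j.2|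
  have a2 : |(j.2 : ℝ)| ≤ 8 := by exact_mod_cast hj ▸ le_max_right |j.1| |j.2|
  have a3 : |(j.1 : ℝ)| = 8 ∨ |(j.2 : ℝ)| = 8 := by
    rcases max_choice |j.1| |j.2| with h | h
    · exact Or.inl (by exact_mod_cast h.symm.trans hj)
    · exact Or.inr (by exact_mod_cast h.symm.trans hj)
  have up : ∀ t c k : ℝ, |k| ≤ 8 → |t - (c + sc n / 2 * k)| < sc n / 2 →
      |t - c| < 9 / 2 * sc n := fun t c k hk h => by
    rw [abs_le] at hk
    rw [abs_lt] at h ⊢
    constructor <;> nlinarith [hk.1, hk.2, h.1, h.2]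
  have lo : ∀ t c k : ℝ, |k| = 8 → |t - (c + sc n / 2 * k)| < sc n / 2 →
      ¬ |t - c| ≤ 7 / 2 * sc n := fun t c k hk h h' => by
    rw [abs_le] at h'
    rw [abs_lt] at h
    rcases (abs_eq (by norm_num)).1 hk with rfl | rfl <;> linarith [h.1, h.2, h'.1, h'.2]
  refine ⟨⟨up _ _ _ a1 h1, up _ _ _ a2 h2⟩, fun h => ?_⟩
  rcases a3 with a | a
  · exact lo _ _ _ a h1 h.1
  · exact lo _ _ _ a h2 h.2

theorem ann_subset_reg (n : ℕ) (v : ℤ × ℤ) : ann n v ⊆ reg n v 5 :=
  sdiff_subset.trans (osq_mono _ (by linarith [sc_pos n]))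

theorem measurableSet_Blk_hat (lam : ℝ) (n : ℕ) (v : ℤ × ℤ) :
    MeasurableSet[GGhat (ann n v)] {x : Xi | Blk lam n v x.1.1 (pts x.2.1)} := by
  have e : {x : Xi | Blk lam n v x.1.1 (pts x.2.1)} = ⋂ j : ℤ × ℤ, ⋂ _ : max |j.1| |j.2| = 8,
      {x : Xi | blk lam (ctr n v + (sc n / 2 : ℝ) * (j.1 + j.2 * Complex.I)) (sc n / 2) x.1.1
        (pts x.2.1)} := by
    ext x
    simp only [Blk, mem_ofPred_eq, mem_iInter]
  rw [e]
  exact MeasurableSet.iInter fun j => MeasurableSet.iInter fun hj =>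
    measurableSet_blk_hat lam _ _ (osq_subset_ann n v hj)

theorem measurableSet_pat_B (ξ L : ℝ) (W : Sq) (n : ℕ) (v : ℤ × ℤ) :
    MeasurableSet[GGhat (ann n v)] {x : Xi | (pat ξ L W x).B n v} := by
  by_cases h : reg n v 5 ⊆ W.o
  · convert measurableSet_Blk_hat (exp (2 * ξ * L)) n v using 1
    exact Set.ext fun x => and_iff_right h
  · convert @MeasurableSet.empty _ (GGhat (ann n v))
    exact eq_empty_of_forall_notMem fun x hx => h hx.1

theorem measurableSet_hit_hat {B A : Set ℂ} (hB : MeasurableSet B) (hA : B ⊆ interior A) :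
    MeasurableSet[GGhat A] {x : Xi | ((pts x.2.1 ∪ pts x.2.2) ∩ B).Nonempty} := by
  refine ⟨?_, fun c x y x' y' h1 h2 => ?_⟩
  · let _ : MeasurableSpace Cf := GG A
    have e : {x : Xi | ((pts x.2.1 ∪ pts x.2.2) ∩ B).Nonempty} =
        ((fun x : Xi => PPP.app x.2.1 x.2.2) ⁻¹' {c | pts c ∩ B = ∅})ᶜ := by
      ext x
      simp [nonempty_iff_ne_empty]
    rw [e]
    exact ((PPP.measurable_app.comp measurable_snd) (PPP.measurableSet_void hB)).compl
  · show ((pts x ∪ pts y) ∩ B).Nonempty ↔ ((pts x' ∪ pts y') ∩ B).Nonempty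
    rw [← inter_eq_right.2 hA, ← inter_assoc, ← inter_assoc, union_inter_distrib_right (pts x),
      union_inter_distrib_right (pts x'), h1, h2]

theorem measurable_ncard_hat {B A : Set ℂ} (hB : MeasurableSet B) (hA : B ⊆ interior A) :
    Measurable[GGhat A] fun x : Xi => ((pts x.2.1 ∪ pts x.2.2) ∩ B).ncard := by
  rw [GGhat_eq]
  refine measurable_hat ?_ fun c z w h1 h2 => ?_
  · let _ : MeasurableSpace Cf := GG A
    exact (PPP.meas_ncard hB).union_joint.comp measurable_snd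
  · show ((pts z.1 ∪ pts z.2) ∩ B).ncard = ((pts w.1 ∪ pts w.2) ∩ B).ncard
    rw [← inter_eq_right.2 hA, ← inter_assoc, ← inter_assoc, union_inter_distrib_right (pts z.1),
      union_inter_distrib_right (pts w.1), h1, h2]

/-! ### monotone comparison -/

theorem blk_of_close {ξ γ L K : ℝ} {W : Sq} {c₁ c₂ : Cf} (h : Close ξ γ K W c₁ c₂) {u : ℂ} {r : ℝ}
    (hw : osq u r ⊆ W.o) {Y₁ Y₂ : Set ℂ} (hY : Y₂ ⊆ Y₁)
    (hb : blk (exp (2 * ξ * (L + K))) u r c₂.1 Y₂) : blk (exp (2 * ξ * L)) u r c₁.1 Y₁ := by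
  obtain ⟨κ, hκ, hT⟩ := h.1
  rw [blk_iff] at hb ⊢
  refine (hb.mono (inter_subset_left.trans hY)).of_le (exp_pos _).le
    (mul_pos hκ (exp_pos (-(ξ * K)))) ?_ (fun p => (hT (u, r) hw p).2) fun p => (hT (u, r) hw p).1
  rw [mul_left_comm, ← exp_add, mul_left_comm, ← exp_add]
  congr 2
  ring

theorem mkPat_le {ξ γ L K : ℝ} {W : Sq} {c₁ c₂ : Cf} (h : Close ξ γ K W c₁ c₂)
    {Y₁ Y₂ Z₁ Z₂ : Set ℂ} (hY : Y₂ ⊆ Y₁) (hZ : Z₁ ⊆ Z₂) :
    (mkPat W (exp (2 * ξ * L)) c₁.1 Y₁ Z₁).Le (mkPat W (exp (2 * ξ * (L + K))) c₂.1 Y₂ Z₂) :=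
  ⟨fun n v hb => ⟨hb.1, fun j hj => blk_of_close h
    (((osq_subset_ann n v hj).trans (ann_subset_reg n v)).trans hb.1) hY (hb.2 j hj)⟩, hZ⟩

theorem Close.lt_top_iff {ξ γ K : ℝ} {W : Sq} {c₁ c₂ : Cf} (h : Close ξ γ K W c₁ c₂) :
    c₁.2 W.o < ∞ ↔ c₂.2 W.o < ∞ := by
  have h1 := h.2.1 univ
  have h2 := h.2.2 univ
  simp only [Measure.smul_apply, Measure.restrict_apply_univ, smul_eq_mul] at h1 h2
  refine ⟨fun k => ?_, fun k => h2.trans_lt (ENNReal.mul_lt_top ENNReal.ofReal_lt_top k)⟩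
  by_contra hh
  rw [top_le_iff.1 (not_lt.1 hh), ENNReal.mul_top (ENNReal.ofReal_pos.2 (exp_pos _)).ne'] at h1
  exact k.not_ge h1

theorem inten_le {a b s : ℝ} (ha : 0 ≤ a) (hab : a * s ≤ b) {W : Sq} {c₁ c₂ : Cf}
    (h : c₁.2 W.o < ∞ ↔ c₂.2 W.o < ∞)
    (hle : c₁.2.restrict W.o ≤ ENNReal.ofReal s • c₂.2.restrict W.o) :
    inten a W c₁ ≤ inten b W c₂ := by
  unfold inten
  by_cases k : c₁.2 W.o < ∞
  · rw [if_pos k, if_pos (h.1 k)]
    intro A
    have := hle A
    simp only [Measure.smul_apply, smul_eq_mul] at this ⊢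
    refine (mul_le_mul_right this _).trans ?_
    rw [← mul_assoc, ← ENNReal.ofReal_mul ha]
    exact mul_le_mul_left (ENNReal.ofReal_le_ofReal hab) _
  · rw [if_neg k]
    exact Measure.zero_le _

theorem le_smul_of_smul_le {t : ℝ} {m₁ m₂ : Measure ℂ}
    (h : ENNReal.ofReal (exp (-t)) • m₂ ≤ m₁) : m₂ ≤ ENNReal.ofReal (exp t) • m₁ := by
  intro A
  have := mul_le_mul_right (h A) (ENNReal.ofReal (exp t))
  simp only [Measure.smul_apply, smul_eq_mul] at this ⊢
  rwa [← mul_assoc, ← ENNReal.ofReal_mul (exp_pos _).le, ← exp_add, add_neg_cancel, exp_zero,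
    ENNReal.ofReal_one, one_mul] at this

/-- MONO: a monotone function of the pattern has a larger Poisson average for a close
configuration at a larger distortion. -/
theorem mono_close {ξ γ L K : ℝ} (hL : 0 ≤ γ * L) (hK : 0 ≤ γ * K) {W : Sq} {c₁ c₂ : Cf}
    (h : Close ξ γ K W c₁ c₂) {Φ : Pat → ℝ≥0∞} (hΦ : ∀ a b : Pat, a.Le b → Φ a ≤ Φ b)
    (h₁ : Measurable fun z => Φ (pat ξ L W (c₁, z)))
    (h₂ : Measurable fun z => Φ (pat ξ (L + K) W (c₂, z))) :
    ∫⁻ z, Φ (pat ξ L W (c₁, z)) ∂pt2K γ L W c₁ ≤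
      ∫⁻ z, Φ (pat ξ (L + K) W (c₂, z)) ∂pt2K γ (L + K) W c₂ := by
  rw [pt2K_apply, pt2K_apply]
  refine lintegral_pp2_mono (F₁ := fun s t => Φ (mkPat W (exp (2 * ξ * L)) c₁.1 s (s ∪ t)))
    (F₂ := fun s t => Φ (mkPat W (exp (2 * ξ * (L + K))) c₂.1 s (s ∪ t))) ?_ ?_ h₁ h₂
    fun s₁ t₁ s₂ t₂ k1 k2 => hΦ _ _ (mkPat_le h k1 k2)
  · refine inten_le (exp_pos _).le (le_of_eq ?_) (Close.lt_top_iff h).symm
      (le_smul_of_smul_le h.2.1)
    rw [← exp_add]
    congr 1
    ring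
  · rw [inten_add hL, inten_add (by linarith [mul_add γ L K])]
    refine inten_le (exp_pos _).le (le_of_eq ?_) (Close.lt_top_iff h) h.2.2
    rw [← exp_add, mul_add]

/-- MONO for events -/
theorem Theta_mono {ξ γ L K : ℝ} (hL : 0 ≤ γ * L) (hK : 0 ≤ γ * K) {W : Sq} {c₁ c₂ : Cf}
    (h : Close ξ γ K W c₁ c₂) {E : Set Pat} (hE : ∀ a b : Pat, a.Le b → a ∈ E → b ∈ E)
    (h₁ : MeasurableSet {x : Xi | pat ξ L W x ∈ E})
    (h₂ : MeasurableSet {x : Xi | pat ξ (L + K) W x ∈ E}) :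
    Theta ξ γ L W E c₁ ≤ Theta ξ γ (L + K) W E c₂ := by
  have m₁ : MeasurableSet {z | pat ξ L W (c₁, z) ∈ E} := measurable_prodMk_left h₁
  have m₂ : MeasurableSet {z | pat ξ (L + K) W (c₂, z) ∈ E} := measurable_prodMk_left h₂
  rw [Theta, Theta, ← lintegral_indicator_one m₁, ← lintegral_indicator_one m₂]
  exact mono_close hL hK h (Φ := E.indicator 1)
    (fun a b hab => by
      by_cases ha : a ∈ E
      · rw [indicator_of_mem ha, indicator_of_mem (hE a b hab ha)]
        rfl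
      · rw [indicator_of_notMem ha]
        exact zero_le)
    (measurable_one.indicator m₁) (measurable_one.indicator m₂)

theorem measurable_Theta (ξ γ L : ℝ) (W : Sq) {E : Set Pat}
    (h : MeasurableSet {x : Xi | pat ξ L W x ∈ E}) : Measurable (Theta ξ γ L W E) :=
  Kernel.measurable_kernel_prodMk_left h

theorem Phat_eq_Theta (M : Model) (L : ℝ) (W : Sq) (n : ℤ) (g : Fn) {E : Set Pat}
    (h : MeasurableSet {x : Xi | pat M.ξ L W x ∈ E}) :
    M.Phat L W n g {x | pat M.ξ L W x ∈ E} = ∫⁻ c, Theta M.ξ M.γ L W E c ∂M.Pk n g := by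
  rw [Phat_apply, Measure.compProd_apply h]
  rfl

end Pool.Agent.Lib.MP_0d9445_pr.EN
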